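import Pool.Agent.MP_b0ee3d_lc.H.St
import Pool.Agent.MP_b0ee3d_lc.Defs3
import Pool.Agent.Mg.F2e8011.G0f7af8

section
set_option autoImplicit false

namespace Pool.Agent.MP_b0ee3d_lc.H

theorem mod_Geo1 {k i : ℕ} (hi : i < k) :
    ((i + 1 < k ∧ (i + 1) % k = i + 1) ∨ (i + 1 = k ∧ (i + 1) % k = 0)) ∧
    ((i = 0 ∧ (i + k - 1) % k = k - 1) ∨ (0 < i ∧ (i + k - 1) % k = i - 1)) := by
  constructor
  · rcases Nat.lt_or_ge (i + 1) k with h | h
    · exact Or.inl ⟨h, Nat.mod_eq_of_lt h⟩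
    · have e : i + 1 = k := by omega
      exact Or.inr ⟨e, by rw [e, Nat.mod_self]⟩
  · rcases Nat.eq_zero_or_pos i with h | h
    · exact Or.inl ⟨h, by rw [h, Nat.zero_add, Nat.mod_eq_of_lt (by omega)]⟩
    · refine Or.inr ⟨h, ?_⟩
      rw [show i + k - 1 = i - 1 + k by omega, Nat.add_mod_right, Nat.mod_eq_of_lt (by omega)]

theorem comb_Geo1 {a b : ℕ → ℝ} {i : ℕ} {u v x : ℂ} (hu : fv a b i u = 0) (hv : fv a b i v = 0)
    {s t : ℝ} (h : s + t = 1) :
    s • u + t • v = x ↔ fv a b i x = 0 ∧ s • u.re + t • v.re = x.re := by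
  simp only [fv, sub_eq_zero] at hu hv ⊢
  simp only [Complex.ext_iff, Complex.add_re, Complex.add_im, Complex.smul_re, Complex.smul_im,
    smul_eq_mul, hu, hv]
  constructor
  · rintro ⟨h1, h2⟩
    exact ⟨by rw [← h1, ← h2]; linear_combination b i * h, h1⟩
  · rintro ⟨h1, h2⟩
    exact ⟨h2, by rw [h1, ← h2]; linear_combination b i * h⟩

theorem seg_Geo1 {a b : ℕ → ℝ} {i : ℕ} {u v x : ℂ} (hu : fv a b i u = 0) (hv : fv a b i v = 0) :
    x ∈ segment ℝ u v ↔ fv a b i x = 0 ∧ x.re ∈ Set.uIcc u.re v.re := by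
  rw [← segment_eq_uIcc]
  constructor
  · rintro ⟨s, t, h1, h2, h3, h4⟩
    exact ((comb_Geo1 hu hv h3).1 h4).imp_right fun h => ⟨s, t, h1, h2, h3, h⟩
  · rintro ⟨h, s, t, h1, h2, h3, h4⟩
    exact ⟨s, t, h1, h2, h3, (comb_Geo1 hu hv h3).2 ⟨h, h4⟩⟩

theorem oseg_Geo1 {a b : ℕ → ℝ} {i : ℕ} {u v x : ℂ} (hu : fv a b i u = 0) (hv : fv a b i v = 0)
    (hx : fv a b i x = 0) (h : Btw u.re v.re x.re) : x ∈ openSegment ℝ u v := by
  have h0 : x.re ∈ openSegment ℝ u.re v.re := by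
    rcases h with h | h
    · rw [openSegment_eq_Ioo (h.1.trans h.2)]
      exact h
    · rw [openSegment_symm, openSegment_eq_Ioo (h.1.trans h.2)]
      exact h
  obtain ⟨s, t, h1, h2, h3, h4⟩ := h0
  exact ⟨s, t, h1, h2, h3, (comb_Geo1 hu hv h3).2 ⟨hx, h4⟩⟩

theorem two_Geo1 {a b : ℕ → ℝ} {i j : ℕ} (h : a i ≠ a j) {x : ℂ} (h1 : fv a b i x = 0)
    (h2 : fv a b j x = 0) : x = VV a b i j := by
  have h3 := fv_on b h h1
  rw [h2] at h3
  have h4 : x.re = XX a b i j :=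
    sub_eq_zero.1 ((mul_eq_zero.1 h3.symm).resolve_left (sub_ne_zero.2 h))
  refine Complex.ext h4 ?_
  simp only [fv, sub_eq_zero] at h1
  rw [h1, h4]
  rfl

theorem sGeo1 : SGeo1 := by
  intro k a b S
  have k3 := S.three
  have k0 : 0 < k := by omega
  have len : (poly k a b).length = k := by simp [poly]
  have ne : ∀ i j, i < k → j < k → i ≠ j → a i ≠ a j := fun i j hi hj h => by
    rcases lt_or_gt_of_ne h with l | l
    · exact (S.mono i j l hj).ne
    · exact (S.mono j i l hi).ne'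
  have v0 : ∀ i, vtx (poly k a b) i = VV a b (i % k) ((i % k + k - 1) % k) := fun i => by
    have := Nat.mod_lt i k0
    rw [vtx, len]
    simp [poly, List.getD_eq_getElem?_getD, this]
  have v1 : ∀ i < k, vtx (poly k a b) i = VV a b i ((i + k - 1) % k) := fun i hi => by
    rw [v0, Nat.mod_eq_of_lt hi]
  have v2 : ∀ i < k, vtx (poly k a b) (i + 1) = VV a b i ((i + 1) % k) := fun i hi => by
    have h1 := mod_Geo1 hi
    have h2 := mod_Geo1 (Nat.mod_lt (i + 1) k0)
    rw [v0, show ((i + 1) % k + k - 1) % k = i by omega]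
    exact VV_comm b (ne _ _ (Nat.mod_lt _ k0) hi (by omega))
  have lk : ∀ i < k, ∀ x, x ∈ link (poly k a b) i ↔ fv a b i x = 0 ∧
      x.re ∈ Set.uIcc (XX a b i ((i + k - 1) % k)) (XX a b i ((i + 1) % k)) := fun i hi x => by
    rw [link, v1 i hi, v2 i hi]
    exact seg_Geo1 (fv_VV _ _ _ _) (fv_VV _ _ _ _)
  have lk' : ∀ i, link (poly k a b) (i + 1) = link (poly k a b) ((i + 1) % k) := fun i => by
    simp only [link, v0, Nat.mod_mod, Nat.mod_add_mod]
  have ol : ∀ i < k, ∀ j < k, i ≠ j → (i + 1) % k ≠ j → (j + 1) % k ≠ i →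
      VV a b i j ∈ olink (poly k a b) i := fun i hi j hj h1 h2 h3 => by
    have h4 := (mod_Geo1 hi).2
    have h5 := (mod_Geo1 hj).1
    rw [olink, v1 i hi, v2 i hi]
    exact oseg_Geo1 (fv_VV _ _ _ _) (fv_VV _ _ _ _) (fv_VV _ _ _ _)
      (S.btw i j hi hj h1.symm (by omega) h2.symm)
  refine ⟨?_, fun i hi => ?_, fun i hi j hj h1 h2 h3 => ?_, ?_⟩
  · ext x
    simp only [off, Off, Set.mem_ofPred_eq, len]
    exact forall₂_congr fun i hi => not_congr (lk i hi x)
  · have h1 := mod_Geo1 hi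
    have h2 := Nat.mod_lt (i + 1) k0
    have h3 := ne i _ hi h2 (by omega)
    constructor
    · rw [v1 i hi, v2 i hi]
      intro e
      refine S.simple i ((i + k - 1) % k) ((i + 1) % k) hi (Nat.mod_lt _ k0) h2 (by omega)
        (by omega) (by omega) ?_
      rw [e]
      exact fv_VV' b h3
    · refine Set.Subset.antisymm (fun x hx => ?_) (Set.singleton_subset_iff.2
        ⟨right_mem_segment _ _ _, left_mem_segment _ _ _⟩)
      rw [lk'] at hx
      rw [v2 i hi]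
      exact two_Geo1 h3 ((lk i hi x).1 hx.1).1 ((lk _ h2 x).1 hx.2).1
  · have h4 : ∀ x ∈ link (poly k a b) i ∩ link (poly k a b) j, x = VV a b i j := fun x hx =>
      two_Geo1 (ne i j hi hj h1) ((lk i hi x).1 hx.1).1 ((lk j hj x).1 hx.2).1
    refine ⟨fun x hx y hy => (h4 x hx).trans (h4 y hy).symm, fun x hx => ?_⟩
    rw [h4 x hx]
    exact ⟨ol i hi j hj h1 h2 h3, VV_comm b (ne i j hi hj h1) ▸ ol j hj i hi h1.symm h3 h2⟩
  · rintro x l hl j hj i hi ⟨h1, h2, h3⟩
    have hj' := hj.trans hl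
    have hi' := hi.trans hj'
    refine S.simple i j l hi' hj' hl hi.ne (hi.trans hj).ne' hj.ne' ?_
    rw [← two_Geo1 (ne i j hi' hj' hi.ne) ((lk i hi' x).1 h1).1 ((lk j hj' x).1 h2).1]
    exact ((lk l hl x).1 h3).1

end Pool.Agent.MP_b0ee3d_lc.H

end

section
set_option autoImplicit false

namespace Pool.Agent.MP_b0ee3d_lc.H

open Bornology

theorem cont_Geo2 (a b : ℕ → ℝ) (l : ℕ) : Continuous (fv a b l) := by
  unfold fv; fun_prop

theorem neg_Geo2 {x y : ℝ} (hx : x ≠ 0) (h : ¬ 0 < x) (hy : 0 < x * y) : y < 0 := by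
  have : x < 0 := lt_of_le_of_ne (not_lt.1 h) hx
  by_contra h'
  nlinarith [not_lt.1 h']

theorem bdd_Geo2 {k : ℕ} {a b : ℕ → ℝ} (hS : Star k a b) {w : ℂ} (hw : ∀ l < k, fv a b l w ≠ 0)
    (hB : Bnd k fun l => 0 < fv a b l w) :
    IsBounded {p : ℂ | ∀ l < k, 0 < fv a b l w * fv a b l p} := by
  obtain ⟨⟨i, j, hij, hj, si, sj⟩, i', j', hij', hj', si', sj'⟩ := hB
  obtain ⟨R, hR⟩ : ∃ R, R = |XX a b i j| + |XX a b i' j'| := ⟨_, rfl⟩
  refine ((Metric.isBounded_Icc (-R) R).reProdIm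
    (Metric.isBounded_Icc (-(|a j| * R) + b j) (|a i| * R + b i))).subset fun p hp => ?_
  have h1 := neg_Geo2 (hw i (by omega)) si (hp i (by omega))
  have h2 := (pos_iff_pos_of_mul_pos (hp j hj)).1 sj
  have h3 := (pos_iff_pos_of_mul_pos (hp i' (by omega))).1 si'
  have h4 := neg_Geo2 (hw j' hj') sj' (hp j' hj')
  have m1 := sub_pos.2 (hS.mono i j hij hj)
  have m2 := sub_pos.2 (hS.mono i' j' hij' hj')
  unfold fv at h1 h2 h3 h4
  have h5 : p.re < XX a b i j := by rw [XX, lt_div_iff₀ m1]; linarith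
  have h6 : XX a b i' j' < p.re := by rw [XX, div_lt_iff₀ m2]; linarith
  have h7 : |p.re| ≤ R := by
    rw [hR, abs_le]
    constructor
    · linarith [neg_abs_le (XX a b i' j'), abs_nonneg (XX a b i j)]
    · linarith [le_abs_self (XX a b i j), abs_nonneg (XX a b i' j')]
  have h8 : ∀ x : ℝ, |x * p.re| ≤ |x| * R := fun x => by
    rw [abs_mul]; exact mul_le_mul_of_nonneg_left h7 (abs_nonneg x)
  rw [Complex.mem_reProdIm]
  exact ⟨abs_le.1 h7, by linarith [(abs_le.1 (h8 (a j))).1], by linarith [(abs_le.1 (h8 (a i))).2]⟩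

theorem clos_Geo2 {k : ℕ} {a b : ℕ → ℝ} (hS : Star k a b) {w : ℂ} (hw : ∀ l < k, fv a b l w ≠ 0)
    (hB : Bnd k fun l => 0 < fv a b l w) {p : ℂ} (hp : p ∈ Off k a b)
    (h : ∀ l < k, 0 ≤ fv a b l w * fv a b l p) : ∀ l < k, 0 < fv a b l w * fv a b l p := by
  intro l hl
  refine lt_of_le_of_ne (h l hl) fun e => ?_
  have h0 : fv a b l p = 0 := (mul_eq_zero.1 e.symm).resolve_left (hw l hl)
  have h1 : p.re ∉ Set.uIcc (XX a b l ((l + k - 1) % k)) (XX a b l ((l + 1) % k)) :=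
    fun hh => hp l hl ⟨h0, hh⟩
  have h2 : ∀ j < k, j ≠ l →
      XX a b l j ∈ Set.uIcc (XX a b l ((l + k - 1) % k)) (XX a b l ((l + 1) % k)) := by
    intro j hj hjl
    by_cases e1 : j = (l + k - 1) % k
    · rw [← e1]; exact Set.left_mem_uIcc
    by_cases e2 : j = (l + 1) % k
    · rw [← e2]; exact Set.right_mem_uIcc
    rcases hS.btw l j hl hj hjl e1 e2 with hh | hh
    · exact Set.mem_uIcc_of_le hh.1.le hh.2.le
    · exact Set.mem_uIcc_of_ge hh.1.le hh.2.le
  have hpos : ∀ j < k, 0 < fv a b j p → 0 < fv a b j w := fun j hj hh =>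
    lt_of_le_of_ne (nonneg_of_mul_nonneg_left (h j hj) hh) (hw j hj).symm
  have hneg : ∀ j < k, fv a b j p < 0 → ¬ 0 < fv a b j w := fun j hj hh h' =>
    absurd (h j hj) (not_le.2 (mul_neg_of_pos_of_neg h' hh))
  obtain ⟨⟨i, j, hij, hj, si, sj⟩, i', j', hij', hj', si', sj'⟩ := hB
  rw [Set.uIcc, Set.mem_Icc, not_and_or, not_le, not_le] at h1
  rcases h1 with h1 | h1
  · rcases lt_or_ge i' l with h3 | h3
    · have m := hS.mono i' l h3 hl
      refine hneg i' (by omega) ?_ si'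
      rw [fv_on b m.ne' h0]
      exact mul_neg_of_pos_of_neg (sub_pos.2 m)
        (sub_neg.2 (h1.trans_le (h2 i' (by omega) h3.ne).1))
    · have m := hS.mono l j' (by omega) hj'
      refine sj' (hpos j' hj' ?_)
      rw [fv_on b m.ne h0]
      exact mul_pos_of_neg_of_neg (sub_neg.2 m)
        (sub_neg.2 (h1.trans_le (h2 j' hj' (by omega)).1))
  · rcases lt_or_ge i l with h3 | h3
    · have m := hS.mono i l h3 hl
      refine si (hpos i (by omega) ?_)
      rw [fv_on b m.ne' h0]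
      exact mul_pos (sub_pos.2 m) (sub_pos.2 ((h2 i (by omega) h3.ne).2.trans_lt h1))
    · have m := hS.mono l j (by omega) hj
      refine hneg j hj ?_ sj
      rw [fv_on b m.ne h0]
      exact mul_neg_of_neg_of_pos (sub_neg.2 m) (sub_pos.2 ((h2 j hj (by omega)).2.trans_lt h1))

theorem sGeo2 : SGeo2 := by
  intro k a b hS w hw hB
  have hwC : w ∈ {p : ℂ | ∀ l < k, 0 < fv a b l w * fv a b l p} :=
    fun l hl => mul_self_pos.2 (hw l hl)
  have hsub : {p : ℂ | ∀ l < k, 0 < fv a b l w * fv a b l p} ⊆ Off k a b := fun p hp l hl hh => by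
    have := hp l hl
    rw [hh.1, mul_zero] at this
    exact lt_irrefl _ this
  have hconv : Convex ℝ {p : ℂ | ∀ l < k, 0 < fv a b l w * fv a b l p} := by
    intro p hp q hq s t hs ht hst l hl
    have h1 := convex_Ioi (0 : ℝ) (hp l hl) (hq l hl) hs ht hst
    have h2 : fv a b l (s • p + t • q) = s * fv a b l p + t * fv a b l q := by
      simp only [fv, Complex.add_im, Complex.add_re, Complex.smul_im, Complex.smul_re, smul_eq_mul]
      linear_combination (b l) * hst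
    rw [h2]
    simp only [smul_eq_mul, Set.mem_Ioi] at h1
    linarith
  have hopen : IsOpen {p : ℂ | ∀ l < k, 0 < fv a b l w * fv a b l p} := by
    have : {p : ℂ | ∀ l < k, 0 < fv a b l w * fv a b l p} =
        ⋂ l ∈ {l | l < k}, {p : ℂ | 0 < fv a b l w * fv a b l p} := by
      ext p; simp
    rw [this]
    exact (Set.finite_lt_nat k).isOpen_biInter fun l _ =>
      isOpen_lt continuous_const (continuous_const.mul (cont_Geo2 a b l))
  have heq : connectedComponentIn (Off k a b) w =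
      {p : ℂ | ∀ l < k, 0 < fv a b l w * fv a b l p} := by
    refine Set.Subset.antisymm ?_ (hconv.isPreconnected.subset_connectedComponentIn hwC hsub)
    refine isPreconnected_connectedComponentIn.subset_of_closure_inter_subset hopen
      ⟨w, mem_connectedComponentIn (hsub hwC), hwC⟩ fun p hp => ?_
    refine clos_Geo2 hS hw hB (connectedComponentIn_subset _ _ hp.2) fun l hl => ?_
    exact closure_minimal (t := {p : ℂ | 0 ≤ fv a b l w * fv a b l p})
      (fun q hq => (hq l hl).le)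
      (isClosed_le continuous_const (continuous_const.mul (cont_Geo2 a b l))) hp.1
  rw [heq]
  exact ⟨bdd_Geo2 hS hw hB, fun p => Iff.rfl⟩

end Pool.Agent.MP_b0ee3d_lc.H

end

section
set_option autoImplicit false

namespace Pool.Agent.MP_b0ee3d_lc.H

open Pool.Agent.MP_2e8011_lc Bornology

theorem ray_Geo3 {S : Set ℂ} (x d : ℂ) (hd : d ≠ 0)
    (h : ∀ t : ℝ, 0 ≤ t → x + (t : ℂ) * d ∈ S) : ¬ IsBounded (connectedComponentIn S x) := by
  intro hb
  obtain ⟨R, hR⟩ := hb.exists_norm_le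
  have hc : Continuous fun t : ℝ => x + (t : ℂ) * d := by fun_prop
  have hs : (fun t : ℝ => x + (t : ℂ) * d) '' Set.Ici 0 ⊆ connectedComponentIn S x :=
    (isPreconnected_Ici.image _ hc.continuousOn).subset_connectedComponentIn
      ⟨0, Set.self_mem_Ici, by simp⟩ (by rintro _ ⟨t, ht, rfl⟩; exact h t ht)
  have hn : 0 < ‖d‖ := norm_pos_iff.2 hd
  have ht : 0 ≤ (|R| + ‖x‖ + 1) / ‖d‖ := by positivity
  have h1 := hR _ (hs ⟨_, ht, rfl⟩)
  have h2 := norm_sub_le (x + (((|R| + ‖x‖ + 1) / ‖d‖ : ℝ) : ℂ) * d) x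
  rw [add_sub_cancel_left, norm_mul, Complex.norm_real, Real.norm_of_nonneg ht,
    div_mul_cancel₀ _ hn.ne'] at h2
  linarith [le_abs_self R]

theorem fv_ray_Geo3 (a b : ℕ → ℝ) (l : ℕ) (x : ℂ) (e c t : ℝ) :
    fv a b l (x + (t : ℂ) * ⟨e, e * c⟩) = fv a b l x + t * (e * (c - a l)) := by
  simp only [fv, Complex.add_im, Complex.add_re, Complex.mul_im, Complex.mul_re, Complex.ofReal_re,
    Complex.ofReal_im]
  ring

theorem re_ray_Geo3 (x : ℂ) (e c t : ℝ) : (x + (t : ℂ) * ⟨e, e * c⟩).re = x.re + t * e := by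
  simp

theorem ne_Geo3 {e : ℝ} (c : ℝ) (he : e ≠ 0) : (⟨e, e * c⟩ : ℂ) ≠ 0 :=
  fun h => he (congrArg Complex.re h)

theorem inj_Geo3 {k : ℕ} {a b : ℕ → ℝ} (h : Star k a b) {i j : ℕ} (hi : i < k) (hj : j < k)
    (hij : i ≠ j) : a i ≠ a j := by
  rcases lt_or_gt_of_ne hij with h1 | h1
  · exact (h.mono i j h1 hj).ne
  · exact (h.mono j i h1 hi).ne'

theorem nz_Geo3 {k : ℕ} {a b : ℕ → ℝ} (h : Star k a b) {x : ℂ} (hx : x ∈ Off k a b)
    (hb : IsBounded (connectedComponentIn (Off k a b) x)) (l : ℕ) (hl : l < k) :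
    fv a b l x ≠ 0 := by
  intro h0
  have h1 : x.re ∉ Set.uIcc (XX a b l ((l + k - 1) % k)) (XX a b l ((l + 1) % k)) :=
    fun h1 => hx l hl ⟨h0, h1⟩
  obtain ⟨e, he, h2⟩ : ∃ e : ℝ, e ≠ 0 ∧
      ∀ u ∈ Set.uIcc (XX a b l ((l + k - 1) % k)) (XX a b l ((l + 1) % k)), 0 < e * (x.re - u) := by
    rw [Set.uIcc, Set.mem_Icc, not_and_or, not_le, not_le] at h1
    rcases h1 with h1 | h1
    · exact ⟨-1, by norm_num, fun u hu => by linarith [hu.1]⟩
    · exact ⟨1, one_ne_zero, fun u hu => by linarith [hu.2]⟩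
  refine ray_Geo3 (S := Off k a b) x _ (ne_Geo3 (a l) he) (fun t ht i hi hh => ?_) hb
  have h3 : fv a b l (x + (t : ℂ) * ⟨e, e * a l⟩) = 0 := by
    rw [fv_ray_Geo3, h0, sub_self, mul_zero, mul_zero, add_zero]
  have h4 : ∀ u ∈ Set.uIcc (XX a b l ((l + k - 1) % k)) (XX a b l ((l + 1) % k)),
      (x + (t : ℂ) * ⟨e, e * a l⟩).re ≠ u := fun u hu h5 => by
    rw [re_ray_Geo3] at h5
    have h6 := h2 u hu
    rw [← h5] at h6
    nlinarith [mul_nonneg ht (mul_self_nonneg e)]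
  by_cases hil : i = l
  · subst hil
    exact h4 _ hh.2 rfl
  · have h5 := inj_Geo3 h hl hi (Ne.symm hil)
    have h6 := hh.1
    rw [fv_on b h5 h3] at h6
    refine h4 (XX a b l i) ?_
      (sub_eq_zero.1 ((mul_eq_zero.1 h6).resolve_left (sub_ne_zero.2 h5)))
    by_cases h7 : i = (l + k - 1) % k
    · rw [h7]
      exact Set.left_mem_uIcc
    by_cases h8 : i = (l + 1) % k
    · rw [h8]
      exact Set.right_mem_uIcc
    rcases h.btw l i hl hi hil h7 h8 with h9 | h9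
    · exact Set.mem_uIcc.2 (.inl ⟨h9.1.le, h9.2.le⟩)
    · exact Set.mem_uIcc.2 (.inr ⟨h9.1.le, h9.2.le⟩)

theorem esc_Geo3 {k : ℕ} {a b : ℕ → ℝ} {x : ℂ} (h0 : ∀ l < k, fv a b l x ≠ 0) (e c : ℝ)
    (he : e ≠ 0) (h : ∀ l < k, 0 ≤ fv a b l x * (e * (c - a l))) :
    ¬ IsBounded (connectedComponentIn (Off k a b) x) := by
  refine ray_Geo3 x _ (ne_Geo3 c he) fun t ht i hi hh => ?_
  have h1 := hh.1
  rw [fv_ray_Geo3] at h1
  have h2 := mul_nonneg ht (h i hi)
  have h3 := mul_self_pos.2 (h0 i hi)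
  have h4 : fv a b i x * (fv a b i x + t * (e * (c - a i))) = 0 := by rw [h1, mul_zero]
  nlinarith

theorem sep_Geo3 {k : ℕ} {a b : ℕ → ℝ} (h : Star k a b) (s : ℕ → Prop)
    (hs : ¬ ∃ i j, i < j ∧ j < k ∧ ¬ s i ∧ s j) :
    ∃ c : ℝ, ∀ l < k, (s l → a l < c) ∧ (¬ s l → c < a l) := by
  classical
  obtain ⟨c, h1, h2⟩ := Order.exists_between_finsets (((Finset.range k).filter s).image a)
    (((Finset.range k).filter fun l => ¬ s l).image a) (by
      simp only [Finset.mem_image, Finset.mem_filter, Finset.mem_range]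
      rintro _ ⟨i, ⟨hi, si⟩, rfl⟩ _ ⟨j, ⟨hj, sj⟩, rfl⟩
      rcases lt_trichotomy i j with h3 | h3 | h3
      · exact h.mono i j h3 hj
      · exact absurd (h3 ▸ si) sj
      · exact absurd ⟨j, i, h3, hi, sj, si⟩ hs)
  exact ⟨c, fun l hl =>
    ⟨fun h3 => h1 _ (Finset.mem_image_of_mem a (Finset.mem_filter.2 ⟨Finset.mem_range.2 hl, h3⟩)),
    fun h3 => h2 _ (Finset.mem_image_of_mem a (Finset.mem_filter.2 ⟨Finset.mem_range.2 hl, h3⟩))⟩⟩

theorem bnd_Geo3 {k : ℕ} {a b : ℕ → ℝ} (h : Star k a b) {x : ℂ} (h0 : ∀ l < k, fv a b l x ≠ 0)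
    (hb : IsBounded (connectedComponentIn (Off k a b) x)) : Bnd k fun l => 0 < fv a b l x := by
  refine ⟨by_contra fun hn => ?_, by_contra fun hn => ?_⟩
  · obtain ⟨c, hc⟩ := sep_Geo3 h _ hn
    refine esc_Geo3 h0 1 c one_ne_zero (fun l hl => ?_) hb
    by_cases h1 : 0 < fv a b l x
    · exact mul_nonneg h1.le (by linarith [(hc l hl).1 h1])
    · exact mul_nonneg_of_nonpos_of_nonpos (not_lt.1 h1) (by linarith [(hc l hl).2 h1])
  · obtain ⟨c, hc⟩ := sep_Geo3 h (fun l => ¬ 0 < fv a b l x) fun ⟨i, j, h1, h2, h3, h4⟩ =>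
      hn ⟨i, j, h1, h2, not_not.1 h3, h4⟩
    refine esc_Geo3 h0 (-1) c (by norm_num) (fun l hl => ?_) hb
    by_cases h1 : 0 < fv a b l x
    · exact mul_nonneg h1.le (by linarith [(hc l hl).2 (not_not.2 h1)])
    · exact mul_nonneg_of_nonpos_of_nonpos (not_lt.1 h1) (by linarith [(hc l hl).1 h1])

theorem diff_Geo3 {a : ℕ → ℝ} (b : ℕ → ℝ) {i j : ℕ} (h : a i ≠ a j) (p : ℂ) :
    fv a b i p - fv a b j p = (a j - a i) * (p.re - XX a b i j) := by
  have : a j - a i ≠ 0 := sub_ne_zero.2 h.symm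
  simp only [fv, XX]
  field_simp
  ring

/-- a pair that is separated at `x` in one order and at `p` in the other order -/
theorem cross_Geo3 {k : ℕ} {a b : ℕ → ℝ} (h : Star k a b) {i j : ℕ} (hi : i < k) (hj : j < k)
    (hij : i ≠ j) {x p : ℂ} (hpx : p.re < x.re) (h1 : fv a b j x < fv a b i x)
    (h2 : fv a b i p < fv a b j p) : i < j ∧ p.re < XX a b i j := by
  have e1 := diff_Geo3 b (inj_Geo3 h hi hj hij) x
  have e2 := diff_Geo3 b (inj_Geo3 h hi hj hij) p
  rcases lt_or_gt_of_ne hij with h3 | h3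
  · have h4 := h.mono i j h3 hj
    exact ⟨h3, by nlinarith⟩
  · have h4 := h.mono j i h3 hi
    nlinarith

theorem sGeo3 : SGeo3 := by
  classical
  intro k a b h x hx hb
  have h0 := nz_Geo3 h hx hb
  have hB := bnd_Geo3 h h0 hb
  refine ⟨h0, hB, ?_⟩
  obtain ⟨i0, j0, g1, g2, g3, g4⟩ := hB.2
  obtain ⟨⟨i, j⟩, hq, hm⟩ := Finset.exists_max_image
    ((Finset.range k ×ˢ Finset.range k).filter fun q =>
      q.1 < q.2 ∧ 0 < fv a b q.1 x ∧ fv a b q.2 x < 0) (fun q => XX a b q.1 q.2)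
    ⟨(i0, j0), Finset.mem_filter.2 ⟨Finset.mem_product.2
      ⟨Finset.mem_range.2 (g1.trans g2), Finset.mem_range.2 g2⟩, g1, g3,
      lt_of_le_of_ne (not_lt.1 g4) (h0 j0 g2)⟩⟩
  simp only [Finset.mem_filter, Finset.mem_product, Finset.mem_range] at hq hm
  obtain ⟨⟨hi, hj⟩, hij, hxi, hxj⟩ := hq
  have ha := h.mono i j hij hj
  have hV : (VV a b i j).re < x.re := by
    have e := diff_Geo3 b ha.ne x
    change XX a b i j < x.re
    nlinarith
  refine ⟨i, j, hij, hj, hxi, hxj, fun l hl hli hlj => ?_⟩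
  have hs := h.simple i j l hi hj hl hij.ne hli hlj
  rcases lt_or_gt_of_ne (h0 l hl) with h1 | h1 <;> rcases lt_or_gt_of_ne hs with h2 | h2
  · exact mul_pos_of_neg_of_neg h1 h2
  · obtain ⟨h3, h4⟩ := cross_Geo3 h hi hl (Ne.symm hli) hV (h1.trans hxi)
      (by rw [fv_VV]; exact h2)
    exact absurd (hm (i, l) ⟨⟨hi, hl⟩, h3, hxi, h1⟩) (not_le.2 h4)
  · obtain ⟨h3, h4⟩ := cross_Geo3 h hl hj hlj hV (hxj.trans h1)
      (by rw [fv_VV' b ha.ne]; exact h2)
    exact absurd (hm (l, j) ⟨⟨hl, hj⟩, h3, h1, hxj⟩) (not_le.2 h4)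
  · exact mul_pos h1 h2

end Pool.Agent.MP_b0ee3d_lc.H

end

section
set_option autoImplicit false

namespace Pool.Agent.MP_b0ee3d_lc.H

open Finset

theorem digits_Gen (B : ℤ) (N : ℕ) (c : ℕ → ℤ) (hc : ∀ e, |c e| < B)
    (h : ∑ e ∈ range N, c e * B ^ e = 0) : ∀ e < N, c e = 0 := by
  induction N generalizing c with
  | zero => intro e he; omega
  | succ N ih =>
    have hB : 0 < B := (abs_nonneg _).trans_lt (hc 0)
    have e1 : ∑ e ∈ range N, c (e + 1) * B ^ (e + 1) = B * ∑ e ∈ range N, c (e + 1) * B ^ e := by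
      rw [mul_sum]
      exact sum_congr rfl fun e _ => by ring
    rw [sum_range_succ', e1, pow_zero, mul_one] at h
    have h0 : c 0 = 0 :=
      Int.eq_zero_of_abs_lt_dvd ⟨-∑ e ∈ range N, c (e + 1) * B ^ e, by linarith⟩ (hc 0)
    rw [h0, add_zero, mul_eq_zero] at h
    have h1 := ih (fun e => c (e + 1)) (fun e => hc _) (h.resolve_left hB.ne')
    intro e he
    rcases e with _ | e
    · exact h0
    · exact h1 e (by omega)

/-- digits of an ordinary line -/
def AN_Gen (I : In) (l e : ℕ) : ℤ := if e = (if l = 0 then kk I else l) then 1 else 0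

/-- digits of a free line -/
def AF_Gen (I : In) (o e : ℕ) : ℤ :=
  if e = xI I o then (cI I o : ℤ) - fI I o else if e = cI I o then (fI I o : ℤ) - xI I o else 0

def NK_Gen (I : In) (l : ℕ) (d : ℤ) (A : ℕ → ℤ) : Prop := d = 1 ∧ A = AN_Gen I l

def FK_Gen (I : In) (l : ℕ) (d : ℤ) (A : ℕ → ℤ) : Prop :=
  ∃ o < MM I, l = fI I o ∧ d = (cI I o : ℤ) - xI I o ∧ A = AF_Gen I o

theorem rep_Gen {I : In} (h : WF I) {l : ℕ} (hl : l < kk I) : ∃ (d : ℤ) (A : ℕ → ℤ),
    (NK_Gen I l d A ∨ FK_Gen I l d A) ∧ 1 ≤ d ∧ d ≤ kk I ∧ (∀ e, |A e| ≤ kk I) ∧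
      d * ga I l = SS I * ∑ e ∈ range (kk I + 1), A e * BB I ^ e := by
  have hk := kk_ge I
  by_cases e : ∃ o < MM I, l = fI I o
  · obtain ⟨o, ho, rfl⟩ := e
    have a1 := idx h ho
    refine ⟨_, _, Or.inr ⟨o, ho, rfl, rfl, rfl⟩, by omega, by omega, fun e => ?_, ?_⟩
    · unfold AF_Gen
      rw [abs_le]
      split_ifs <;> omega
    · rw [sum_eq_add_of_mem (xI I o) (cI I o) (mem_range.2 (by omega)) (mem_range.2 (by omega))
        (by omega) fun e _ he => by rw [AF_Gen, if_neg he.1, if_neg he.2, zero_mul],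
        AF_Gen, AF_Gen, if_pos rfl, if_neg (by omega), if_pos rfl, ga_fI ho]
      have e1 := (xi_spec h ho).1
      rw [gb_eq, gb_eq, if_neg (by omega), if_neg (by omega)] at e1
      rw [gb_eq, if_neg (by omega)]
      linear_combination (-((fI I o : ℤ) - (xI I o : ℤ))) * e1
  · refine ⟨_, _, Or.inl ⟨rfl, rfl⟩, le_rfl, by omega, fun e => ?_, ?_⟩
    · unfold AN_Gen
      rw [abs_le]
      split_ifs <;> omega
    · rw [ga_of_not fun o ho e' => e ⟨o, ho, e'⟩, gb_eq, one_mul,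
        sum_eq_single (if l = 0 then kk I else l) (fun e _ he => by rw [AN_Gen, if_neg he, zero_mul])
          (fun he => absurd (mem_range.2 (by split_ifs <;> omega)) he), AN_Gen, if_pos rfl, one_mul]

theorem AN_ne_Gen {I : In} {l e : ℕ} (h : AN_Gen I l e ≠ 0) (he : e < kk I) : l = e := by
  unfold AN_Gen at h
  split_ifs at h <;> omega

theorem AF_ne_Gen {I : In} {o e : ℕ} (h : AF_Gen I o e ≠ 0) : e = xI I o ∨ e = cI I o := by
  unfold AF_Gen at h
  split_ifs at h <;> omega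

theorem AF_x_Gen {I : In} (h : WF I) {o : ℕ} (ho : o < MM I) : AF_Gen I o (xI I o) ≠ 0 := by
  have := idx h ho
  rw [AF_Gen, if_pos rfl]
  omega

theorem AF_c_Gen {I : In} (h : WF I) {o : ℕ} (ho : o < MM I) : AF_Gen I o (cI I o) ≠ 0 := by
  have := idx h ho
  rw [AF_Gen, if_neg (by omega), if_pos rfl]
  omega

theorem cov_Gen {U V W a b c : ℤ} (h : U * a + V * b + W * c = 0) (hU : U ≠ 0) (ha : a ≠ 0) :
    (V ≠ 0 ∧ b ≠ 0) ∨ (W ≠ 0 ∧ c ≠ 0) := by
  by_contra hn
  have h1 : V * b = 0 := mul_eq_zero.2 (by tauto)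
  have h2 : W * c = 0 := mul_eq_zero.2 (by tauto)
  exact mul_ne_zero hU ha (by linarith)

/-- two free lines and an ordinary one -/
theorem ffn_Gen {I : In} (h : WF I) {o o' l : ℕ} (ho : o < MM I) (ho' : o' < MM I) (hne : o ≠ o')
    {U V W : ℤ} (hU : U ≠ 0)
    (H : ∀ e < kk I + 1, U * AF_Gen I o e + V * AF_Gen I o' e + W * AN_Gen I l e = 0) : False := by
  obtain ⟨-, a2, -, a3, a4, -⟩ := idx h ho
  obtain ⟨-, b2, -, b3, b4, -⟩ := idx h ho'
  have k5 := (kinds h ho ho').2.2.2.2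
  have c1 := (cov_Gen (H _ (by omega)) hU (AF_x_Gen h ho)).imp (And.imp_right AF_ne_Gen)
    fun p => AN_ne_Gen p.2 (by omega)
  have c2 := (cov_Gen (H _ (by omega)) hU (AF_c_Gen h ho)).imp (And.imp_right AF_ne_Gen)
    fun p => AN_ne_Gen p.2 (by omega)
  have hV : V ≠ 0 := fun e => by
    rcases c1 with c1 | c1
    · exact c1.1 e
    · rcases c2 with c2 | c2
      · exact c2.1 e
      · omega
  have c3 := (cov_Gen ((by ring : V * AF_Gen I o' (xI I o') + U * AF_Gen I o (xI I o') +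
    W * AN_Gen I l (xI I o') = _).trans (H _ (by omega))) hV (AF_x_Gen h ho')).imp
      (fun p => AF_ne_Gen p.2) fun p => AN_ne_Gen p.2 (by omega)
  have c4 := (cov_Gen ((by ring : V * AF_Gen I o' (cI I o') + U * AF_Gen I o (cI I o') +
    W * AN_Gen I l (cI I o') = _).trans (H _ (by omega))) hV (AF_c_Gen h ho')).imp
      (fun p => AF_ne_Gen p.2) fun p => AN_ne_Gen p.2 (by omega)
  have c1' := c1.imp_left And.right
  have c2' := c2.imp_left And.right
  exact hne (k5 (by omega) (by omega))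

/-- three free lines -/
theorem fff_Gen {I : In} (h : WF I) {o o' o'' : ℕ} (ho : o < MM I) (ho' : o' < MM I)
    (ho'' : o'' < MM I) (n1 : o ≠ o') {U V W : ℤ} (hV : V ≠ 0)
    (H : ∀ e < kk I + 1, U * AF_Gen I o e + V * AF_Gen I o' e + W * AF_Gen I o'' e = 0)
    (e1 : xI I o = xI I o') (e2 : cI I o = cI I o'') : False := by
  obtain ⟨-, a2, -, a3, a4, -⟩ := idx h ho
  obtain ⟨-, b2, -, b3, b4, -⟩ := idx h ho'
  obtain ⟨-, d2, -, d3, d4, -⟩ := idx h ho''
  have c4 := (cov_Gen ((by ring : V * AF_Gen I o' (cI I o') + U * AF_Gen I o (cI I o') +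
    W * AF_Gen I o'' (cI I o') = _).trans (H _ (by omega))) hV (AF_c_Gen h ho')).imp
      (fun p => AF_ne_Gen p.2) fun p => AF_ne_Gen p.2
  exact n1 ((kinds h ho ho').2.2.2.2 e1 (by omega))

/-- a free line and its two parents -/
theorem fnn_Gen {I : In} (h : WF I) {o : ℕ} (ho : o < MM I) {u v w : ℤ}
    (H : ∀ e < kk I + 1, u * AF_Gen I o e +
      v * ((cI I o : ℤ) - xI I o) * AN_Gen I (xI I o) e +
      w * ((cI I o : ℤ) - xI I o) * AN_Gen I (cI I o) e = 0) :
    u + v + w = 0 ∧ u * fI I o + v * xI I o + w * cI I o = 0 := by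
  obtain ⟨a1, a2, -, a3, a4, -⟩ := idx h ho
  have h1 := H (xI I o) (by omega)
  have h2 := H (cI I o) (by omega)
  have x0 : xI I o ≠ 0 := by omega
  have c0 : cI I o ≠ 0 := by omega
  have xc : xI I o ≠ cI I o := by omega
  simp only [AF_Gen, AN_Gen, if_neg x0, if_neg c0, if_neg xc, if_neg xc.symm, if_true] at h1 h2
  have hd : (cI I o : ℤ) - xI I o ≠ 0 := by omega
  exact ⟨mul_left_cancel₀ hd (by linear_combination h1 + h2),
    mul_left_cancel₀ hd (by linear_combination (xI I o : ℤ) * h1 + (cI I o : ℤ) * h2)⟩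

theorem core_Gen {I : In} (h : WF I) {i j l : ℕ} (n1 : i ≠ j) (n2 : l ≠ i) (n3 : l ≠ j)
    {di dj dl u v w : ℤ} {Ai Aj Al : ℕ → ℤ} (ki : FK_Gen I i di Ai)
    (kj : NK_Gen I j dj Aj ∨ FK_Gen I j dj Aj) (kl : NK_Gen I l dl Al ∨ FK_Gen I l dl Al)
    (pj : 1 ≤ dj) (pl : 1 ≤ dl) (hu : u ≠ 0)
    (H : ∀ e < kk I + 1, u * dj * dl * Ai e + v * di * dl * Aj e + w * di * dj * Al e = 0) :
    Tri I i j l ∧ u + v + w = 0 ∧ u * i + v * j + w * l = 0 := by
  obtain ⟨o, ho, rfl, rfl, rfl⟩ := ki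
  have hU : u * dj * dl ≠ 0 := mul_ne_zero (mul_ne_zero hu (by omega)) (by omega)
  obtain ⟨-, a2, -, a3, a4, -⟩ := idx h ho
  have c1 := cov_Gen (H _ (by omega)) hU (AF_x_Gen h ho)
  have c2 := cov_Gen (H _ (by omega)) hU (AF_c_Gen h ho)
  rcases kj with ⟨rfl, rfl⟩ | ⟨o', ho', rfl, rfl, rfl⟩ <;>
    rcases kl with ⟨rfl, rfl⟩ | ⟨o'', ho'', rfl, rfl, rfl⟩
  · have d1 := c1.imp (fun p => AN_ne_Gen p.2 (by omega)) fun p => AN_ne_Gen p.2 (by omega)
    have d2 := c2.imp (fun p => AN_ne_Gen p.2 (by omega)) fun p => AN_ne_Gen p.2 (by omega)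
    have d3 : (j = xI I o ∧ l = cI I o) ∨ (l = xI I o ∧ j = cI I o) := by omega
    rcases d3 with ⟨rfl, rfl⟩ | ⟨rfl, rfl⟩
    · exact ⟨⟨o, ho, Or.inr (Or.inr rfl), Or.inl rfl, Or.inr (Or.inl rfl)⟩,
        fnn_Gen h ho fun e he => by linear_combination H e he⟩
    · have := fnn_Gen h ho (u := u) (v := w) (w := v) fun e he => by linear_combination H e he
      exact ⟨⟨o, ho, Or.inr (Or.inr rfl), Or.inr (Or.inl rfl), Or.inl rfl⟩,
        by linarith [this.1], by linarith [this.2]⟩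
  · exact (ffn_Gen h ho ho'' (fun e => n2 (by rw [e])) hU
      fun e he => (add_right_comm _ _ _).trans (H e he)).elim
  · exact (ffn_Gen h ho ho' (fun e => n1 (by rw [e])) hU H).elim
  · exfalso
    obtain ⟨-, b2, -, b3, b4, -⟩ := idx h ho'
    obtain ⟨-, d2, -, d3, d4, -⟩ := idx h ho''
    have m1 : o ≠ o' := fun e => n1 (by rw [e])
    have m2 : o ≠ o'' := fun e => n2 (by rw [e])
    rcases c1 with ⟨p1, q1⟩ | ⟨p1, q1⟩ <;> rcases c2 with ⟨p2, q2⟩ | ⟨p2, q2⟩ <;>
      have r1 := AF_ne_Gen q1 <;> have r2 := AF_ne_Gen q2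
    · exact m1 ((kinds h ho ho').2.2.2.2 (by omega) (by omega))
    · exact fff_Gen h ho ho' ho'' m1 p1 H (by omega) (by omega)
    · exact fff_Gen h ho ho'' ho' m2 p1 (fun e he => (add_right_comm _ _ _).trans (H e he))
        (by omega) (by omega)
    · exact m2 ((kinds h ho ho'').2.2.2.2 (by omega) (by omega))

theorem nn_Gen {I : In} {i j l : ℕ} (hi : i < kk I) (hj : j < kk I) (hl : l < kk I) (n1 : i ≠ j)
    (n2 : l ≠ i) {di dj dl u v w : ℤ} {Ai Aj Al : ℕ → ℤ} (ki : u = 0 ∨ NK_Gen I i di Ai)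
    (kj : v = 0 ∨ NK_Gen I j dj Aj) (kl : w = 0 ∨ NK_Gen I l dl Al) (pj : 1 ≤ dj) (pl : 1 ≤ dl)
    (H : ∀ e < kk I + 1, u * dj * dl * Ai e + v * di * dl * Aj e + w * di * dj * Al e = 0) :
    u = 0 := by
  by_contra hu
  obtain ⟨rfl, rfl⟩ := ki.resolve_left hu
  have hU : u * dj * dl ≠ 0 := mul_ne_zero (mul_ne_zero hu (by omega)) (by omega)
  rcases cov_Gen (H (if i = 0 then kk I else i) (by split_ifs <;> omega)) hU
    (by rw [AN_Gen, if_pos rfl]; exact one_ne_zero) with ⟨p, q⟩ | ⟨p, q⟩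
  · obtain ⟨-, rfl⟩ := kj.resolve_left fun e => p (by rw [e, zero_mul, zero_mul])
    unfold AN_Gen at q
    split_ifs at q <;> omega
  · obtain ⟨-, rfl⟩ := kl.resolve_left fun e => p (by rw [e, zero_mul, zero_mul])
    unfold AN_Gen at q
    split_ifs at q <;> omega

theorem bd_Gen {k u d d' a : ℤ} (hu : |u| ≤ 2 * k) (p : 1 ≤ d) (q : d ≤ k) (p' : 1 ≤ d')
    (q' : d' ≤ k) (ha : |a| ≤ k) : |u * d * d' * a| ≤ 2 * k ^ 4 := by
  have hk : 0 ≤ k := by omega
  rw [abs_mul, abs_mul, abs_mul, abs_of_pos (by omega : 0 < d), abs_of_pos (by omega : 0 < d')]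
  calc |u| * d * d' * |a| ≤ 2 * k * k * k * k := by gcongr
    _ = _ := by ring

theorem sGen : SGen := by
  intro I h i j l hi hj hl n1 n2 n3 u v w hu hv hw hs
  obtain ⟨di, Ai, ki, pi, qi, bi, ei⟩ := rep_Gen h hi
  obtain ⟨dj, Aj, kj, pj, qj, bj, ej⟩ := rep_Gen h hj
  obtain ⟨dl, Al, kl, pl, ql, bl, el⟩ := rep_Gen h hl
  have hk : (63 : ℤ) ≤ kk I := by exact_mod_cast kk_ge I
  have hS := (scales I).2.2.2.2.2.2.1
  have hB := BB_ge I
  have H : ∀ e < kk I + 1,
      u * dj * dl * Ai e + v * di * dl * Aj e + w * di * dj * Al e = 0 := by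
    refine digits_Gen (BB I) _ _ (fun e => ?_) ?_
    · have b1 := bd_Gen hu pj qj pl ql (bi e)
      have b2 := bd_Gen hv pi qi pl ql (bj e)
      have b3 := bd_Gen hw pi qi pj qj (bl e)
      have b4 : (kk I : ℤ) ^ 4 ≤ (kk I : ℤ) ^ 5 := pow_le_pow_right₀ (by omega) (by norm_num)
      have b5 : 0 < (kk I : ℤ) ^ 4 := by positivity
      have b6 := abs_add_three (u * dj * dl * Ai e) (v * di * dl * Aj e) (w * di * dj * Al e)
      linarith
    · have e1 : SS I * ∑ e ∈ range (kk I + 1),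
          (u * dj * dl * Ai e + v * di * dl * Aj e + w * di * dj * Al e) * BB I ^ e =
          di * dj * dl * (u * ga I i + v * ga I j + w * ga I l) := by
        simp only [add_mul, sum_add_distrib, mul_assoc, ← mul_sum]
        linear_combination (-(u * dj * dl)) * ei - (v * di * dl) * ej - (w * di * dj) * el
      generalize ∑ e ∈ range (kk I + 1),
          (u * dj * dl * Ai e + v * di * dl * Aj e + w * di * dj * Al e) * BB I ^ e = T at e1
      have e2 : SS I * |T| < SS I * 1 := by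
        rw [← abs_of_pos hS, ← abs_mul, e1, abs_of_pos hS, abs_mul, mul_one,
          abs_of_pos (by positivity : 0 < di * dj * dl)]
        refine lt_of_le_of_lt (mul_le_mul_of_nonneg_right ?_ (abs_nonneg _)) hs
        calc di * dj * dl ≤ kk I * kk I * kk I := by gcongr
          _ = _ := by ring
      exact Int.abs_lt_one_iff.1 (lt_of_mul_lt_mul_left e2 hS.le)
  have H2 : ∀ e < kk I + 1, v * di * dl * Aj e + u * dj * dl * Ai e + w * dj * di * Al e = 0 :=
    fun e he => by linear_combination H e he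
  have H3 : ∀ e < kk I + 1, w * di * dj * Al e + u * dl * dj * Ai e + v * dl * di * Aj e = 0 :=
    fun e he => by linear_combination H e he
  by_cases h1 : u ≠ 0 ∧ FK_Gen I i di Ai
  · exact Or.inr (core_Gen h n1 n2 n3 h1.2 kj kl pj pl h1.1 H)
  by_cases h2 : v ≠ 0 ∧ FK_Gen I j dj Aj
  · obtain ⟨⟨o, ho, t1, t2, t3⟩, s1, s2⟩ := core_Gen h n1.symm n3 n2 h2.2 ki kl pi pl h2.1 H2
    exact Or.inr ⟨⟨o, ho, t2, t1, t3⟩, by linarith, by linarith⟩
  by_cases h3 : w ≠ 0 ∧ FK_Gen I l dl Al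
  · obtain ⟨⟨o, ho, t1, t2, t3⟩, s1, s2⟩ :=
      core_Gen h n2 n3.symm n1.symm h3.2 ki kj pi pj h3.1 H3
    exact Or.inr ⟨⟨o, ho, t2, t3, t1⟩, by linarith, by linarith⟩
  have g1 : u = 0 ∨ NK_Gen I i di Ai :=
    or_iff_not_imp_left.2 fun e => ki.resolve_right fun e' => h1 ⟨e, e'⟩
  have g2 : v = 0 ∨ NK_Gen I j dj Aj :=
    or_iff_not_imp_left.2 fun e => kj.resolve_right fun e' => h2 ⟨e, e'⟩
  have g3 : w = 0 ∨ NK_Gen I l dl Al :=
    or_iff_not_imp_left.2 fun e => kl.resolve_right fun e' => h3 ⟨e, e'⟩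
  exact Or.inl ⟨nn_Gen hi hj hl n1 n2 g1 g2 g3 pj pl H, nn_Gen hj hi hl n1.symm n3 g2 g1 g3 pi pl H2,
    nn_Gen hl hi hj n2 n3.symm g3 g1 g2 pi pj H3⟩

end Pool.Agent.MP_b0ee3d_lc.H

end

section
set_option autoImplicit false

namespace Pool.Agent.MP_b0ee3d_lc.H

theorem cx_spec_Base {I : In} (h : WF I) {i j : ℕ} (hi : i < kk I) (hj : j < kk I) (hij : i ≠ j) :
    ((j : ℤ) - (i : ℤ)) * cx I i j = cc I i - cc I j :=
  Int.mul_ediv_cancel' ((dvd_fac I (by omega) (by rw [abs_le]; omega)).trans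
    (dvd_sub (fac_dvd_cc h i) (fac_dvd_cc h j)))

theorem XX_eq_Base {I : In} {i j : ℕ} (hij : i ≠ j) {x : ℤ}
    (e : ((j : ℤ) - (i : ℤ)) * x = cc I i - cc I j) : XX a0 (b0 I) i j = x := by
  have h1 : ((j : ℝ) - (i : ℝ)) * (x : ℝ) = (cc I i : ℝ) - (cc I j : ℝ) := by exact_mod_cast e
  have h2 : (j : ℝ) - (i : ℝ) ≠ 0 := sub_ne_zero.2 (by exact_mod_cast hij.symm)
  unfold XX a0 b0
  rw [div_eq_iff h2, ← h1, mul_comm]

theorem cc_eq_Base (I : In) (i : ℕ) : cc I i = ga I i - 240 * rho I * ((i % 2 : ℕ) : ℤ) := by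
  unfold cc
  rcases Nat.mod_two_eq_zero_or_one i with e | e <;> simp [e]

theorem big_Base {k r S ρ B F G N d : ℤ} (hk : 63 ≤ k) (hr : 0 < r) (hB : 100000 * k ^ 5 ≤ B)
    (h1 : r * B ≤ S) (h2 : S ≤ ρ) (hd : |d| ≤ k) (e : d * F = G - 240 * ρ * N)
    (hG : |G| ≤ ρ) (h0 : N = 0 → S ≤ k ^ 3 * |G|) : 4 * k * r ≤ |F| := by
  have hk0 : 0 < k := by omega
  have a1 : |G - 240 * ρ * N| ≤ k * |F| := by
    rw [← e, abs_mul]
    exact mul_le_mul_of_nonneg_right hd (abs_nonneg _)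
  have a2 : r * (100000 * k ^ 5) ≤ S := (mul_le_mul_of_nonneg_left hB hr.le).trans h1
  have hS : 0 < S := lt_of_lt_of_le (by positivity) a2
  have a3 : S ≤ k ^ 3 * (k * |F|) := by
    by_cases hN : N = 0
    · have := h0 hN
      rw [hN, mul_zero, sub_zero] at a1
      exact this.trans (mul_le_mul_of_nonneg_left a1 (by positivity))
    · have b1 : 1 ≤ |N| := Int.one_le_abs hN
      have b2 : |240 * ρ * N| = 240 * ρ * |N| := by rw [abs_mul, abs_of_pos (by omega)]
      have b3 : 240 * ρ * 1 ≤ 240 * ρ * |N| := mul_le_mul_of_nonneg_left b1 (by omega)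
      have b4 := abs_sub_abs_le_abs_sub (240 * ρ * N) G
      rw [abs_sub_comm] at b4
      have b5 : S ≤ k * |F| := by omega
      have b6 : (1 : ℤ) ≤ k ^ 3 := one_le_pow₀ (by omega)
      exact b5.trans (le_mul_of_one_le_left (by omega) b6)
  have a4 : k ^ 4 * (100000 * (k * r)) ≤ k ^ 4 * |F| := by
    calc k ^ 4 * (100000 * (k * r)) = r * (100000 * k ^ 5) := by ring
      _ ≤ k ^ 3 * (k * |F|) := a2.trans a3
      _ = _ := by ring
  have a5 := le_of_mul_le_mul_left a4 (by positivity)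
  have a6 : 0 < k * r := by positivity
  linarith

theorem sBase (hG : SGen) : SBase := by
  intro I h
  obtain ⟨-, -, s1, s2, -, s3, s4, s5⟩ := scales I
  have hk : (63 : ℤ) ≤ kk I := by exact_mod_cast kk_ge I
  have hB := BB_ge I
  have hB' := BB_ge' I
  refine ⟨fun i j hi hj hij => ?_, fun i j l hi hj hl hij hli hlj hT => ?_, fun o ho => ?_⟩
  · have e := cx_spec_Base h hi hj hij
    rw [XX_eq_Base hij e]
    refine ⟨rfl, ?_⟩
    have a1 : |cx I i j| ≤ |cc I i - cc I j| := by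
      rw [← e, abs_mul]
      exact le_mul_of_one_le_left (abs_nonneg _) (Int.one_le_abs (by omega))
    have a2 : |ga I i| * 2 ≤ rho I :=
      (mul_le_mul_of_nonneg_left (by omega) (abs_nonneg _)).trans (ga_le h hi).1
    have a3 : |ga I j| * 2 ≤ rho I :=
      (mul_le_mul_of_nonneg_left (by omega) (abs_nonneg _)).trans (ga_le h hj).1
    have a4 : |cc I i - cc I j| ≤ 241 * rho I := by
      have b1 := le_abs_self (ga I i)
      have b2 := neg_abs_le (ga I i)
      have b3 := le_abs_self (ga I j)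
      have b4 := neg_abs_le (ga I j)
      unfold cc
      rw [abs_le]
      split_ifs <;> constructor <;> linarith
    exact_mod_cast a1.trans a4
  · have e := cx_spec_Base h hi hj hij
    have ef : f0 I l (V0 I i j) = ((((i : ℤ) - l) * cx I i j + cc I i - cc I l : ℤ) : ℝ) := by
      unfold f0 V0 fv VV
      rw [XX_eq_Base hij e]
      simp only [a0, b0]
      push_cast
      ring
    have g : ∀ (u : ℤ) (m : ℕ), |u| ≤ kk I → m < kk I → |u * ga I m| * 3 ≤ rho I := by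
      intro u m hu hm
      have b1 := (ga_le h hm).1
      have b2 := abs_nonneg (ga I m)
      rw [abs_mul]
      calc |u| * |ga I m| * 3 = |ga I m| * (|u| * 3) := by ring
        _ ≤ |ga I m| * BB I := mul_le_mul_of_nonneg_left (by omega) b2
        _ ≤ _ := b1
    have u1 : |(j : ℤ) - l| ≤ kk I := by rw [abs_le]; omega
    have u2 : |(l : ℤ) - i| ≤ kk I := by rw [abs_le]; omega
    have u3 : |(i : ℤ) - j| ≤ kk I := by rw [abs_le]; omega
    have key : 4 * (kk I : ℤ) * rr I ≤ |((i : ℤ) - l) * cx I i j + cc I i - cc I l| := by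
      refine big_Base (S := SS I) (ρ := rho I) (B := BB I) (d := (j : ℤ) - i)
        (G := ((j : ℤ) - l) * ga I i + ((l : ℤ) - i) * ga I j + ((i : ℤ) - j) * ga I l)
        (N := ((j : ℤ) - l) * ((i % 2 : ℕ) : ℤ) + ((l : ℤ) - i) * ((j % 2 : ℕ) : ℤ)
          + ((i : ℤ) - j) * ((l % 2 : ℕ) : ℤ)) hk s3 hB s1
        ((le_mul_of_one_le_right s4.le (BB_one I)).trans s2) (by rw [abs_le]; omega) ?_ ?_ ?_
      · have c1 := cc_eq_Base I i
        have c2 := cc_eq_Base I j
        have c3 := cc_eq_Base I l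
        linear_combination ((i : ℤ) - l) * e + ((j : ℤ) - l) * c1 + ((l : ℤ) - i) * c2
          + ((i : ℤ) - j) * c3
      · have b1 := g _ i u1 hi
        have b2 := g _ j u2 hj
        have b3 := g _ l u3 hl
        have b4 := abs_add_three (((j : ℤ) - l) * ga I i) (((l : ℤ) - i) * ga I j)
          (((i : ℤ) - j) * ga I l)
        linarith
      · intro _
        by_contra hc
        rcases hG I h i j l hi hj hl hij hli hlj _ _ _ (u1.trans (by omega)) (u2.trans (by omega))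
          (u3.trans (by omega)) (not_le.1 hc) with b | b
        · have := b.2.2
          omega
        · exact hT b.1
    rw [ef]
    exact_mod_cast key
  · have a1 := idx h ho
    obtain ⟨x1, -⟩ := xi_spec h ho
    have ev : ∀ m, m % 2 = 0 → cc I m = ga I m := fun m hm => by
      rw [cc_eq_Base, hm]; simp
    have c1 : cc I (xI I o) = gb I (xI I o) := by rw [ev _ (by omega), ga_xI h ho]
    have c2 : cc I (cI I o) = gb I (cI I o) := by rw [ev _ (by omega), ga_cI h ho]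
    have c3 : cc I (fI I o) = gb I (xI I o) - ((fI I o : ℤ) - (xI I o : ℤ)) * xi I o := by
      rw [ev _ (by omega), ga_fI ho]
    have hne : xI I o ≠ cI I o := by omega
    have eX : XX a0 (b0 I) (xI I o) (cI I o) = xi I o := XX_eq_Base hne (by rw [c1, c2, x1])
    have z : ∀ l, On I o l → f0 I l (V0 I (xI I o) (cI I o)) = 0 := by
      intro l hl
      have ef : f0 I l (V0 I (xI I o) (cI I o))
          = ((((xI I o : ℤ) - l) * xi I o + cc I (xI I o) - cc I l : ℤ) : ℝ) := by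
        unfold f0 V0 fv VV
        rw [eX]
        simp only [a0, b0]
        push_cast
        ring
      rw [ef, Int.cast_eq_zero]
      rcases hl with rfl | rfl | rfl
      · ring
      · rw [c1, c2]; linear_combination -x1
      · rw [c1, c3]; ring
    refine ⟨eX, z, fun i j hij hi hj => ?_⟩
    have n : a0 i ≠ a0 j := by unfold a0; exact_mod_cast hij
    have p1 : fv a0 (b0 I) i (V0 I (xI I o) (cI I o)) = 0 := z i hi
    have p2 : fv a0 (b0 I) j (V0 I (xI I o) (cI I o)) = 0 := z j hj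
    have p3 := fv_on (b0 I) n p1
    rw [p2] at p3
    have p4 : (V0 I (xI I o) (cI I o)).re = XX a0 (b0 I) i j :=
      sub_eq_zero.1 ((mul_eq_zero.1 p3.symm).resolve_left (sub_ne_zero.2 n))
    generalize V0 I (xI I o) (cI I o) = p at p1 p4 ⊢
    refine Complex.ext p4.symm ?_
    simp only [fv] at p1
    simp only [V0, VV]
    rw [← p4]
    linarith

end Pool.Agent.MP_b0ee3d_lc.H

end

section
/- The sides of the base lines on which the corners lie. -/

set_option autoImplicit false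

namespace Pool.Agent.MP_b0ee3d_lc.H

theorem key_Corn (I : In) {i j : ℕ} (l : ℕ) (h : i < j) :
    (0 < f0 I l (V0 I i j) ↔
      0 < ((j : ℤ) - l) * cc I i + ((l : ℤ) - i) * cc I j - ((j : ℤ) - i) * cc I l) ∧
    (f0 I l (V0 I i j) < 0 ↔
      ((j : ℤ) - l) * cc I i + ((l : ℤ) - i) * cc I j - ((j : ℤ) - i) * cc I l < 0) := by
  have hd : (0 : ℝ) < (j : ℝ) - i := sub_pos.2 (by exact_mod_cast h)
  have e : ((j : ℝ) - i) * f0 I l (V0 I i j) =
      ((((j : ℤ) - l) * cc I i + ((l : ℤ) - i) * cc I j - ((j : ℤ) - i) * cc I l : ℤ) : ℝ) := by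
    simp only [f0, fv, V0, VV, XX, a0, b0]
    generalize cc I i = x
    generalize cc I j = y
    generalize cc I l = z
    push_cast
    field_simp
    ring
  constructor
  · rw [← Int.cast_pos (R := ℝ), ← e, mul_pos_iff_of_pos_left hd]
  · rw [← Int.cast_lt_zero (R := ℝ), ← e, ← not_le, ← not_le, mul_nonneg_iff_of_pos_left hd]

theorem sign_Corn {k B ρ g1 g2 g3 u v N : ℤ} (hk : 63 ≤ k) (hB : 100000 * k ≤ B) (hρ : 0 < ρ)
    (h1 : |g1| * B ≤ ρ) (h2 : |g2| * B ≤ ρ) (h3 : |g3| * B ≤ ρ) (hu : |u| ≤ k) (hv : |v| ≤ k)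
    (hN : N ≠ 0) : 0 < u * g1 + v * g2 - g3 - 240 * ρ * N ↔ N < 0 := by
  have t : ∀ w g : ℤ, |w| ≤ k → |g| * B ≤ ρ → |w * g| * 100000 ≤ ρ := fun w g hw hg => by
    rw [abs_mul]
    nlinarith [mul_le_mul_of_nonneg_left hB (abs_nonneg g),
      mul_le_mul_of_nonneg_right hw (abs_nonneg g)]
  have a1 := t u g1 hu h1
  have a2 := t v g2 hv h2
  have a3 := t 1 g3 (by rw [abs_one]; omega) h3
  rw [one_mul] at a3
  have b1 := le_abs_self (u * g1)
  have b2 := le_abs_self (v * g2)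
  have b3 := le_abs_self g3
  have c1 := neg_abs_le (u * g1)
  have c2 := neg_abs_le (v * g2)
  have c3 := neg_abs_le g3
  rcases lt_or_gt_of_ne hN with h | h
  · have : ρ * N ≤ ρ * (-1) := mul_le_mul_of_nonneg_left (by omega) hρ.le
    exact ⟨fun _ => h, fun _ => by linarith⟩
  · have : ρ * 1 ≤ ρ * N := mul_le_mul_of_nonneg_left (by omega) hρ.le
    exact ⟨fun _ => by linarith, fun _ => by omega⟩

theorem one_Corn {I : In} (h : WF I) {i l : ℕ} (hi : i + 1 < kk I) (hl : l < kk I) (h1 : l ≠ i)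
    (h2 : l ≠ i + 1) : 0 < f0 I l (V0 I i (i + 1)) ↔ (l < i ↔ i % 2 = 0) := by
  rw [(key_Corn I l (Nat.lt_succ_self i)).1]
  have hk : (63 : ℤ) ≤ kk I := by exact_mod_cast kk_ge I
  have s := fun N hN => sign_Corn (u := (i : ℤ) + 1 - l) (v := (l : ℤ) - i) (N := N) hk (BB_ge' I)
    (scales I).2.2.2.2.2.2.2 (ga_le h (show i < kk I by omega)).1 (ga_le h hi).1 (ga_le h hl).1
    (by rw [abs_le]; omega) (by rw [abs_le]; omega) hN
  simp only [cc, Nat.succ_eq_add_one]
  generalize ga I i = g1 at s ⊢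
  generalize ga I (i + 1) = g2 at s ⊢
  generalize ga I l = g3 at s ⊢
  generalize rho I = ρ at s ⊢
  push_cast
  rcases Nat.mod_two_eq_zero_or_one i with e | e <;>
    rcases Nat.mod_two_eq_zero_or_one l with e' | e'
  · rw [if_neg (by omega), if_pos (by omega), if_neg (by omega)]
    refine Iff.trans (iff_of_eq ?_) ((s ((l : ℤ) - i) (by omega)).trans (by omega))
    congr 1
    ring
  · rw [if_neg (by omega), if_pos (by omega), if_pos (by omega)]
    refine Iff.trans (iff_of_eq ?_) ((s ((l : ℤ) - i - 1) (by omega)).trans (by omega))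
    congr 1
    ring
  · rw [if_pos (by omega), if_neg (by omega), if_neg (by omega)]
    refine Iff.trans (iff_of_eq ?_) ((s ((i : ℤ) + 1 - l) (by omega)).trans (by omega))
    congr 1
    ring
  · rw [if_pos (by omega), if_neg (by omega), if_pos (by omega)]
    refine Iff.trans (iff_of_eq ?_) ((s ((i : ℤ) - l) (by omega)).trans (by omega))
    congr 1
    ring

theorem ends_Corn {I : In} (h : WF I) : ∃ T : ℤ, 0 < T ∧ SS I * BB I ^ (kk I - 3) = T ∧
    SS I * BB I ^ (kk I - 2) = T * BB I ∧ cc I (kk I - 1) = T * BB I * BB I ∧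
    cc I 0 = T * BB I * BB I * BB I ∧ rho I = T * BB I * BB I * BB I * BB I := by
  have hk := kk_ge I
  have ho := kk_odd I
  have b1 := BB_one I
  have hs := (scales I).2.2.2.2.2.2.1
  have e1 : cc I (kk I - 1) = SS I * BB I ^ (kk I - 1) := by
    rw [cc, if_neg (by omega), sub_zero, ga_of_not fun o ho' e => ?_, gb_eq, if_neg (by omega)]
    have := On.lt h ho' (Or.inr (Or.inr e))
    omega
  have e0 : cc I 0 = SS I * BB I ^ kk I := by
    rw [cc, if_neg (by omega), sub_zero, ga_of_not fun o ho' e => ?_, gb_eq, if_pos rfl]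
    have := On.lt h ho' (Or.inr (Or.inr e))
    omega
  rw [e1, e0, rho_eq]
  generalize SS I = S at hs ⊢
  generalize BB I = B at b1 ⊢
  obtain ⟨m, hm⟩ : ∃ m, kk I = m + 3 := ⟨kk I - 3, by omega⟩
  rw [hm]
  refine ⟨S * B ^ m, mul_pos hs (pow_pos (by omega) _), rfl, ?_, ?_, ?_, ?_⟩
  · rw [show m + 3 - 2 = m + 1 by omega]; ring
  · rw [show m + 3 - 1 = m + 2 by omega]; ring
  · ring
  · ring

theorem sCorn : SCorn := by
  intro I h
  obtain ⟨T, hT, t3, t2, t1, t0, tr⟩ := ends_Corn h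
  have hk := kk_ge I
  have hB := BB_ge' I
  have b1 := BB_one I
  have hs := (scales I).2.2.2.2.2.2.1
  have hρ := (scales I).2.2.2.2.2.2.2
  have p1 : T * (100000 * kk I) ≤ T * BB I := mul_le_mul_of_nonneg_left hB hT.le
  have q1 : 0 < T * BB I := mul_pos hT (by omega)
  have p2 : T * BB I * (100000 * kk I) ≤ T * BB I * BB I := mul_le_mul_of_nonneg_left hB q1.le
  have p2' : T * BB I ≤ T * BB I * BB I := le_mul_of_one_le_right q1.le b1
  have p3 : T * BB I * BB I ≤ T * BB I * BB I * BB I := le_mul_of_one_le_right (by omega) b1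
  have p4 : T * BB I * BB I * BB I ≤ T * BB I * BB I * BB I * BB I :=
    le_mul_of_one_le_right (by omega) b1
  refine ⟨fun i l => one_Corn h, fun l l0 l1 => ?_, fun o ho => ?_⟩
  · rw [(key_Corn I l (show 0 < kk I - 1 by omega)).1, t0, t1]
    have a1 : cc I l ≤ T * BB I := by
      have := (le_abs_self _).trans ((ga_le h (show l < kk I by omega)).2 l0 l1)
      rw [t2] at this
      unfold cc
      split_ifs <;> omega
    have a2 : (1 : ℤ) ≤ ((kk I - 1 : ℕ) : ℤ) - l := by omega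
    have a3 : ((kk I - 1 : ℕ) : ℤ) - ((0 : ℕ) : ℤ) ≤ kk I := by omega
    have a4 : (0 : ℤ) ≤ ((kk I - 1 : ℕ) : ℤ) - ((0 : ℕ) : ℤ) := by omega
    have a5 : (0 : ℤ) ≤ (l : ℤ) - ((0 : ℕ) : ℤ) := by omega
    have c1 := mul_le_mul_of_nonneg_left a1 a4
    have c2 := mul_le_mul_of_nonneg_right a3 q1.le
    have c3 := mul_le_mul_of_nonneg_right a2 (show 0 ≤ T * BB I * BB I * BB I by omega)
    have c4 := mul_nonneg a5 (show 0 ≤ T * BB I * BB I by omega)
    have c5 : (0 : ℤ) < kk I * (T * BB I) := mul_pos (by omega) q1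
    linarith
  · obtain ⟨i1, i2, i3, i4, i5, i6, -⟩ := idx h ho
    have hxc : xI I o < cI I o := by omega
    have g : ∀ j, 0 < j → j + 3 ≤ kk I → 0 < gb I j ∧ gb I j ≤ T := fun j j0 j1 => by
      rw [gb_eq, if_neg (by omega), ← t3]
      exact ⟨mul_pos hs (pow_pos (by omega) _),
        mul_le_mul_of_nonneg_left (pow_le_pow_right₀ b1 (by omega)) hs.le⟩
    have ex : cc I (xI I o) = gb I (xI I o) := by rw [cc, if_neg (by omega), sub_zero, ga_xI h ho]
    have ec : cc I (cI I o) = gb I (cI I o) := by rw [cc, if_neg (by omega), sub_zero, ga_cI h ho]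
    obtain ⟨x0, x1⟩ := g (xI I o) (by omega) (by omega)
    obtain ⟨y0, y1⟩ := g (cI I o) (by omega) i5
    have e1 : cc I 1 ≤ -(239 * rho I) := by
      have a1 := (ga_le h (show 1 < kk I by omega)).1
      have a2 := le_mul_of_one_le_right (abs_nonneg (ga I 1)) b1
      have a3 := le_abs_self (ga I 1)
      rw [cc, if_pos rfl]
      omega
    have d1 : (1 : ℤ) ≤ (cI I o : ℤ) - xI I o := by omega
    have c5 : (0 : ℤ) < kk I * T := mul_pos (by omega) hT
    rw [(key_Corn I 0 hxc).2, (key_Corn I 1 hxc).1, (key_Corn I (kk I - 1) hxc).2, ex, ec, t0, t1]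
    refine ⟨?_, ?_, ?_⟩
    · have c1 : ((cI I o : ℤ) - ((0 : ℕ) : ℤ)) * gb I (xI I o) ≤ kk I * T :=
        mul_le_mul (by omega) x1 x0.le (by omega)
      have c2 : (((0 : ℕ) : ℤ) - xI I o) * gb I (cI I o) ≤ 0 :=
        mul_nonpos_of_nonpos_of_nonneg (by omega) y0.le
      have c3 := mul_le_mul_of_nonneg_right d1 (show 0 ≤ T * BB I * BB I * BB I by omega)
      linarith
    · have c1 : 0 ≤ ((cI I o : ℤ) - ((1 : ℕ) : ℤ)) * gb I (xI I o) := mul_nonneg (by omega) x0.le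
      have c2 : ((xI I o : ℤ) - ((1 : ℕ) : ℤ)) * gb I (cI I o) ≤ kk I * T :=
        mul_le_mul (by omega) y1 y0.le (by omega)
      have c3 := mul_le_mul_of_nonneg_right d1 (show 0 ≤ -cc I 1 by omega)
      linarith
    · have c1 : ((cI I o : ℤ) - ((kk I - 1 : ℕ) : ℤ)) * gb I (xI I o) ≤ 0 :=
        mul_nonpos_of_nonpos_of_nonneg (by omega) x0.le
      have c2 : (((kk I - 1 : ℕ) : ℤ) - xI I o) * gb I (cI I o) ≤ kk I * T :=
        mul_le_mul (by omega) y1 y0.le (by omega)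
      have c3 := mul_le_mul_of_nonneg_right d1 (show 0 ≤ T * BB I * BB I by omega)
      linarith

end Pool.Agent.MP_b0ee3d_lc.H

end

section
set_option autoImplicit false

namespace Pool.Agent.MP_b0ee3d_lc.H

theorem sc_Near (I : In) : (0 : ℝ) < del I ∧ (del I : ℝ) ≤ rr I ∧ (del I : ℝ) ≤ rho I := by
  obtain ⟨-, h2, h3, h4, h5, h6, h7, -⟩ := scales I
  have b := BB_one I
  have e1 : del I ≤ rr I := h2 ▸ le_mul_of_one_le_right h5.le b
  have e2 : rr I ≤ SS I := (le_mul_of_one_le_right h6.le b).trans h3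
  have e3 : SS I ≤ rho I := (le_mul_of_one_le_right h7.le b).trans h4
  exact ⟨by exact_mod_cast h5, by exact_mod_cast e1, by exact_mod_cast e1.trans (e2.trans e3)⟩

theorem cc_Near {I : In} (h : WF I) {i : ℕ} (hi : i < kk I) :
    -241 * (rho I : ℝ) ≤ cc I i ∧ (cc I i : ℝ) ≤ rho I := by
  have h1 : |ga I i| ≤ rho I :=
    (le_mul_of_one_le_right (abs_nonneg _) (BB_one I)).trans (ga_le h hi).1
  have h2 := (scales I).2.2.2.2.2.2.2
  rw [abs_le] at h1
  have h3 : -241 * rho I ≤ cc I i ∧ cc I i ≤ rho I := by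
    unfold cc
    split_ifs <;> omega
  exact_mod_cast h3

theorem ab_Near {I : In} {a b : ℕ → ℝ} (hc : Close I a b fun _ => del I) {i : ℕ}
    (hi : i < kk I) : |b i - cc I i| < del I ∧ |a i - i| < 1 / 4 := by
  obtain ⟨d0, -, d2⟩ := sc_Near I
  have r0 : (0 : ℝ) < rho I := d0.trans_le d2
  have h1 := hc i hi 0 (by rw [abs_zero]; linarith)
  have h2 := hc i hi (1000 * rho I) (by rw [abs_of_pos (by linarith)])
  simp only [mul_zero, zero_add] at h1
  refine ⟨h1, ?_⟩
  rw [abs_lt] at h1 h2 ⊢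
  constructor <;> nlinarith [h1.1, h1.2, h2.1, h2.2]

theorem slope_Near {I : In} {a b : ℕ → ℝ} (hc : Close I a b fun _ => del I) {i j : ℕ}
    (hij : i < j) (hj : j < kk I) : a i + 1 / 2 < a j ∧ a j < a i + kk I := by
  have h1 := abs_lt.1 (ab_Near hc (hij.trans hj)).2
  have h2 := abs_lt.1 (ab_Near hc hj).2
  have h3 : (i : ℝ) + 1 ≤ j := by exact_mod_cast hij
  have h4 : (j : ℝ) + 1 ≤ kk I := by exact_mod_cast hj
  have h5 : (0 : ℝ) ≤ i := Nat.cast_nonneg i
  constructor <;> linarith [h1.1, h1.2, h2.1, h2.2]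

theorem half_Near {I : In} {a b : ℕ → ℝ} (hc : Close I a b fun _ => del I) {i j : ℕ}
    (hi : i < kk I) (hj : j < kk I) (hij : i ≠ j) : 1 / 2 < |a j - a i| := by
  rcases lt_or_gt_of_ne hij with h | h
  · exact lt_abs.2 (Or.inl (by linarith [(slope_Near hc h hj).1]))
  · exact lt_abs.2 (Or.inr (by linarith [(slope_Near hc h hi).1]))

theorem ne_Near {I : In} {a b : ℕ → ℝ} (hc : Close I a b fun _ => del I) {i j : ℕ}
    (hi : i < kk I) (hj : j < kk I) (hij : i ≠ j) : a i ≠ a j := fun e => by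
  have := half_Near hc hi hj hij
  rw [e, sub_self, abs_zero] at this
  linarith

theorem sign_Near (hB : SBase) {I : In} (h : WF I) {a b : ℕ → ℝ}
    (hc : Close I a b fun _ => del I) {i j l : ℕ} (hi : i < kk I) (hj : j < kk I) (hl : l < kk I)
    (hij : i ≠ j) (hli : l ≠ i) (hlj : l ≠ j) (ht : ¬ Tri I i j l) :
    0 < fv a b l (VV a b i j) * f0 I l (V0 I i j) := by
  obtain ⟨d0, d1, d2⟩ := sc_Near I
  have hx : |(VV a b i j).re| ≤ 1000 * rho I := by
    have a1 := abs_lt.1 (ab_Near hc hi).1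
    have a2 := abs_lt.1 (ab_Near hc hj).1
    have a3 := cc_Near h hi
    have a4 := cc_Near h hj
    have a5 := half_Near hc hi hj hij
    have a6 : |b i - b j| ≤ 244 * rho I :=
      abs_le.2 ⟨by linarith [a1.1, a2.2, a3.1, a4.2], by linarith [a1.2, a2.1, a3.2, a4.1]⟩
    show |(b i - b j) / (a j - a i)| ≤ _
    rw [abs_div, div_le_iff₀ (by linarith)]
    nlinarith
  have hd : ∀ m < kk I, |f0 I m (VV a b i j) - fv a b m (VV a b i j)| < del I := fun m hm => by
    have e : f0 I m (VV a b i j) - fv a b m (VV a b i j) =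
        a m * (VV a b i j).re + b m - (m * (VV a b i j).re + cc I m) := by
      simp only [f0, fv, a0, b0]
      ring
    rw [e]
    exact hc m hm _ hx
  have e1 := hd i hi
  have e2 := hd j hj
  have e3 := hd l hl
  rw [fv_VV, sub_zero] at e1
  rw [fv_VV' b (ne_Near hc hi hj hij), sub_zero] at e2
  have n0 : a0 i ≠ a0 j := fun e => hij (Nat.cast_injective (R := ℝ) e)
  have t := tri_const a0 (b0 I) i j l (VV a b i j) (V0 I i j)
  rw [V0, fv_VV, fv_VV' _ n0] at t
  have t' : ((j : ℝ) - i) * (f0 I l (V0 I i j) - f0 I l (VV a b i j)) =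
      ((l : ℝ) - j) * f0 I i (VV a b i j) + ((i : ℝ) - l) * f0 I j (VV a b i j) := by
    simp only [f0, V0]
    simp only [a0] at t ⊢
    linarith
  have c1 : ∀ u v : ℕ, u < kk I → v < kk I → |(u : ℝ) - v| ≤ kk I := fun u v hu hv => by
    have b1 : (u : ℝ) ≤ kk I := by exact_mod_cast hu.le
    have b2 : (v : ℝ) ≤ kk I := by exact_mod_cast hv.le
    have b3 : (0 : ℝ) ≤ u := Nat.cast_nonneg u
    have b4 : (0 : ℝ) ≤ v := Nat.cast_nonneg v
    exact abs_le.2 ⟨by linarith, by linarith⟩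
  have c2 : (1 : ℝ) ≤ |(j : ℝ) - i| := by
    have : (1 : ℤ) ≤ |(j : ℤ) - i| := Int.one_le_abs (by omega)
    exact_mod_cast this
  have k0 : (1 : ℝ) ≤ kk I := by exact_mod_cast (by have := kk_ge I; omega : 1 ≤ kk I)
  have c3 : |f0 I l (V0 I i j) - f0 I l (VV a b i j)| ≤ kk I * del I + kk I * del I := by
    refine (le_mul_of_one_le_left (abs_nonneg _) c2).trans ?_
    rw [← abs_mul, t']
    refine (abs_add_le _ _).trans (add_le_add ?_ ?_) <;> rw [abs_mul]
    · exact mul_le_mul (c1 l j hl hj) e1.le (abs_nonneg _) (by linarith)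
    · exact mul_le_mul (c1 i l hi hl) e2.le (abs_nonneg _) (by linarith)
  have c4 := (hB I h).2.1 i j l hi hj hl hij hli hlj ht
  have c5 : (kk I : ℝ) * del I ≤ kk I * rr I := mul_le_mul_of_nonneg_left d1 (by linarith)
  have c6 : (del I : ℝ) ≤ kk I * del I := le_mul_of_one_le_left d0.le k0
  rw [abs_le] at c3
  rw [abs_lt] at e3
  rcases le_abs'.1 c4 with c | c
  · exact mul_pos_of_neg_of_neg (by linarith [c3.1, e3.1]) (by linarith)
  · exact mul_pos (by linarith [c3.2, e3.2]) (by linarith)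

theorem side_Near (hB : SBase) {I : In} (h : WF I) {a b : ℕ → ℝ}
    (hc : Close I a b fun _ => del I) {i j l : ℕ} (hi : i < kk I) (hj : j < kk I) (hl : l < kk I)
    (hli : l ≠ i) (hlj : l ≠ j) (hij : i + 1 = j ∨ j + 1 = i ∨ (i = 0 ∧ 0 < j) ∨ (j = 0 ∧ 0 < i))
    {C : Prop} (hC : 0 < f0 I l (V0 I i j) ↔ C) :
    (XX a b i l < XX a b i j ↔ (l < i ↔ C)) ∧ XX a b i l ≠ XX a b i j := by
  have s := sign_Near hB h hc hi hj hl (by omega) hli hlj fun ⟨o, ho, h1, h2, _⟩ => by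
    have := On.lt h ho h1
    have := On.lt h ho h2
    omega
  rw [fv_on b (ne_Near hc hi hl hli.symm) (fv_VV a b i j)] at s
  have e : (VV a b i j).re = XX a b i j := rfl
  rw [e] at s
  refine ⟨?_, fun k => by rw [k, sub_self, mul_zero, zero_mul] at s; exact lt_irrefl _ s⟩
  rw [← hC, ← sub_pos]
  rcases lt_or_gt_of_ne hli with k | k
  · have a1 : 0 < a i - a l := by linarith [(slope_Near hc k hi).1]
    rw [mul_assoc, mul_pos_iff_of_pos_left a1] at s
    rw [iff_true_intro k, true_iff]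
    exact ⟨fun u => (pos_iff_pos_of_mul_pos s).1 u, fun u => (pos_iff_pos_of_mul_pos s).2 u⟩
  · have a1 : a i - a l < 0 := by linarith [(slope_Near hc k hl).1]
    rw [iff_false_intro (not_lt.2 k.le), false_iff]
    rw [mul_assoc] at s
    have s' := neg_of_mul_pos_right s a1.le
    rcases mul_neg_iff.1 s' with ⟨u, v⟩ | ⟨u, v⟩
    · exact iff_of_true u (not_lt.2 v.le)
    · exact iff_of_false (not_lt.2 u.le) (not_not.2 v)

theorem btw_Near {A B x : ℝ} {P Q : Prop} (h1 : (x < A ↔ P) ∧ x ≠ A) (h2 : (x < B ↔ Q) ∧ x ≠ B)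
    (h : ¬ (P ↔ Q)) : Btw A B x := by
  by_cases hP : P
  · exact Or.inr ⟨lt_of_le_of_ne (not_lt.1 fun k => h (iff_of_true hP (h2.1.1 k))) h2.2.symm,
      h1.1.2 hP⟩
  · exact Or.inl ⟨lt_of_le_of_ne (not_lt.1 fun k => hP (h1.1.1 k)) h1.2.symm,
      h2.1.2 (by_contra fun k => h (iff_of_false hP k))⟩

theorem sym_Near (I : In) {i j : ℕ} (h : i ≠ j) : V0 I i j = V0 I j i :=
  VV_comm _ fun e => h (Nat.cast_injective (R := ℝ) e)

theorem pr_Near (P Q : Prop) : ¬ ((P ↔ (P ↔ Q)) ↔ (P ↔ (P ↔ ¬ Q))) := by tauto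

theorem sNear (hB : SBase) (hR : SCorn) : SNear := by
  intro I h a b hc
  refine ⟨fun i j => slope_Near hc, fun i j l => sign_Near hB h hc, fun i l hi hl h1 h2 h3 => ?_⟩
  obtain ⟨r1, r2, -⟩ := hR I h
  have k1 := kk_ge I
  have k2 := kk_odd I
  rcases Nat.eq_zero_or_pos i with rfl | i0
  · rw [Nat.mod_eq_of_lt (by omega), Nat.zero_add] at h2
    rw [Nat.mod_eq_of_lt (by omega)] at h3
    rw [Nat.mod_eq_of_lt (by omega), Nat.mod_eq_of_lt (by omega), Nat.zero_add]
    exact btw_Near (side_Near hB h hc hi (by omega) hl h1 h2 (by omega)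
        (iff_true_intro (r2 l (by omega) (by omega))))
      (side_Near hB h hc hi (by omega) hl h1 h3 (by omega) (r1 0 l (by omega) hl h1 h3))
      (by simp)
  obtain ⟨i, rfl⟩ : ∃ i', i = i' + 1 := ⟨i - 1, by omega⟩
  have e : (i + 1 + kk I - 1) % kk I = i := by
    rw [show i + 1 + kk I - 1 = i + kk I by omega, Nat.add_mod_right, Nat.mod_eq_of_lt (by omega)]
  rw [e] at h2 ⊢
  have p := side_Near hB h hc hi (by omega) hl h1 h2 (by omega)
    ((sym_Near I (by omega : i ≠ i + 1)) ▸ r1 i l hi hl h2 h1)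
  have q1 : l < i + 1 ↔ l < i := by omega
  rcases Nat.lt_or_ge (i + 1 + 1) (kk I) with hk | hk
  · rw [Nat.mod_eq_of_lt hk] at h3 ⊢
    have q2 : (i + 1) % 2 = 0 ↔ ¬ i % 2 = 0 := by omega
    exact btw_Near p (side_Near hB h hc hi hk hl h1 h3 (by omega) (r1 (i + 1) l hk hl h1 h3))
      (by rw [q1, q2]; exact pr_Near _ _)
  · have e1 : i + 1 + 1 = kk I := by omega
    have e2 : i + 1 = kk I - 1 := by omega
    rw [e1, Nat.mod_self] at h3 ⊢
    have q2 : ¬ i % 2 = 0 := by omega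
    have q3 : l < i := by omega
    refine btw_Near p (side_Near hB h hc hi (by omega) hl h1 h3 (by omega) (C := True)
      (iff_true_intro ?_)) (by rw [q1]; simp [q2, q3])
    rw [sym_Near I (by omega), e2]
    exact r2 l (by omega) (by omega)

end Pool.Agent.MP_b0ee3d_lc.H

end

section
set_option autoImplicit false

namespace Pool.Agent.MP_b0ee3d_lc.H

theorem far_Cand {F e r K : ℝ} (hr : 0 < r) (hK : 1 ≤ K) (he : |e| ≤ 2 * K * r)
    (hF : 4 * K * r ≤ |F|) : r ≤ |F + e| ∧ 0 < (F + e) * F := by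
  have h1 : r ≤ K * r := le_mul_of_one_le_left hr.le hK
  rw [abs_le] at he
  rcases le_or_gt 0 F with h | h
  · rw [abs_of_nonneg h] at hF
    exact ⟨le_abs.2 (Or.inl (by linarith)), mul_pos (by linarith) (by linarith)⟩
  · rw [abs_of_neg h] at hF
    exact ⟨le_abs.2 (Or.inr (by linarith)), mul_pos_of_neg_of_neg (by linarith) h⟩

theorem odd_Cand {r : ℝ} (hr : 0 < r) (s : Bool) {k m l : ℕ} (hm : m ≤ k) (hl : l < k) :
    r ≤ |(bif s then r else -r) * (2 * (m : ℝ) - 1 - 2 * l)| ∧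
    |(bif s then r else -r) * (2 * (m : ℝ) - 1 - 2 * l)| ≤ 2 * k * r ∧
    (0 < (bif s then r else -r) * (2 * (m : ℝ) - 1 - 2 * l) ↔ (s = true ↔ l < m)) := by
  have hc : |(bif s then r else -r)| = r := by cases s <;> simp [abs_of_pos hr]
  have hm' : (m : ℝ) ≤ k := by exact_mod_cast hm
  have hl' : (l : ℝ) + 1 ≤ k := by exact_mod_cast hl
  have m0 : (0 : ℝ) ≤ m := Nat.cast_nonneg m
  have l0 : (0 : ℝ) ≤ l := Nat.cast_nonneg l
  have h2 : |2 * (m : ℝ) - 1 - 2 * l| ≤ 2 * k := abs_le.2 ⟨by linarith, by linarith⟩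
  rw [abs_mul, hc]
  rcases lt_or_ge l m with h | h
  · have h' : (l : ℝ) + 1 ≤ m := by exact_mod_cast h
    have p : 0 < 2 * (m : ℝ) - 1 - 2 * l := by linarith
    refine ⟨le_mul_of_one_le_right hr.le (le_abs.2 (Or.inl (by linarith))), by nlinarith, ?_⟩
    cases s
    · simp only [cond_false, Bool.false_eq_true, h, iff_true, iff_false, not_lt]
      exact (mul_neg_of_neg_of_pos (by linarith) p).le
    · simp only [cond_true, h, iff_true]
      exact mul_pos hr p
  · have h' : (m : ℝ) ≤ l := by exact_mod_cast h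
    have p : 2 * (m : ℝ) - 1 - 2 * l < 0 := by linarith
    have h3 : ¬ l < m := not_lt.2 h
    refine ⟨le_mul_of_one_le_right hr.le (le_abs.2 (Or.inr (by linarith))), by nlinarith, ?_⟩
    cases s
    · simp only [cond_false, Bool.false_eq_true, h3, iff_true]
      exact mul_pos_of_neg_of_neg (by linarith) p
    · simp only [cond_true, h3, iff_false, not_true, not_lt]
      exact (mul_neg_of_pos_of_neg hr p).le

theorem sCand (hB : SBase) : SCand := by
  intro I hI i j m s hij hj hm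
  obtain ⟨B1, B2, B3⟩ := hB I hI
  have hi : i < kk I := hij.trans hj
  obtain ⟨x1, x2⟩ := B1 i j hi hj hij.ne
  obtain ⟨-, -, s3, s4, -, r0, s0, -⟩ := scales I
  have b1 := BB_one I
  have hrr : rr I ≤ rho I :=
    ((le_mul_of_one_le_right r0.le b1).trans s3).trans ((le_mul_of_one_le_right s0.le b1).trans s4)
  have hr : (0 : ℝ) < rr I := by exact_mod_cast r0
  have hrr' : (rr I : ℝ) ≤ rho I := by exact_mod_cast hrr
  have hk : (1 : ℝ) ≤ kk I := by have := kk_ge I; exact_mod_cast (by omega : 1 ≤ kk I)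
  have hc : (((bif s then rr I else -rr I : ℤ)) : ℝ) = bif s then (rr I : ℝ) else -(rr I : ℝ) := by
    cases s
    · exact Int.cast_neg _
    · rfl
  have hre : (tz (cand I i j m s)).re =
      XX a0 (b0 I) i j + 2 * (bif s then (rr I : ℝ) else -(rr I : ℝ)) := by
    rw [x1, ← hc]
    simp only [tz, cand]
    push_cast
    rfl
  refine ⟨?_, fun l hl => ?_⟩
  · rw [hre]
    rw [abs_le] at x2 ⊢
    cases s <;> simp only [cond_true, cond_false] <;> constructor <;> linarith [x2.1, x2.2]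
  have he : f0 I l (tz (cand I i j m s)) = f0 I l (V0 I i j) +
      (bif s then (rr I : ℝ) else -(rr I : ℝ)) * (2 * (m : ℝ) - 1 - 2 * l) := by
    simp only [f0, fv, V0, VV]
    rw [hre, x1, ← hc]
    simp only [tz, cand, a0, b0]
    push_cast
    ring
  obtain ⟨o1, o2, o3⟩ := odd_Cand hr s hm hl
  by_cases h0 : f0 I l (V0 I i j) = 0
  · rw [he, h0, zero_add]
    exact ⟨o1, fun _ => o3, fun h => absurd rfl h⟩
  · have a : a0 i ≠ a0 j := fun e => hij.ne (by unfold a0 at e; exact_mod_cast e)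
    have l1 : l ≠ i := fun e => h0 (by rw [e]; exact fv_VV _ _ _ _)
    have l2 : l ≠ j := fun e => h0 (by rw [e]; exact fv_VV' _ a)
    have l3 : ¬ Tri I i j l := fun ⟨o, ho, p1, p2, p3⟩ => h0 (by
      rw [(B3 o ho).2.2 i j hij.ne p1 p2]; exact (B3 o ho).2.1 l p3)
    obtain ⟨q1, q2⟩ := far_Cand hr hk o2 (B2 i j l hi hj hl hij.ne l1 l2 l3)
    rw [he]
    exact ⟨q1, fun h => absurd h h0, fun _ => q2⟩

end Pool.Agent.MP_b0ee3d_lc.H

end

section
set_option autoImplicit false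

namespace Pool.Agent.MP_b0ee3d_lc.H

theorem nv_GapA (i : ℕ) {t : ℕ} (ht : t < 3) : 10 ≤ nv i t ∧ nv i t ≤ 60 ∧
    nv i t * (240 / nv i t) = 240 ∧ (240 / nv i t) % 2 = 0 := by
  unfold nv
  split_ifs <;> interval_cases t <;> simp

theorem sg_GapA (I : In) (i : ℕ) : sg I i = 1 ∨ sg I i = -1 := by
  unfold sg
  split_ifs <;> simp

theorem val_GapA (I : In) (i l : ℕ) {t : ℕ} (ht : t < 3) (up : Bool) :
    f0 I l (tz (gap I i t up)) = ((rho I * (nv i t * (HH I i t i - HH I i t l)) +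
      (ga I i - ga I l + bif up then wd I i else -wd I i) : ℤ) : ℝ) := by
  have h := (nv_GapA i ht).2.2.1
  have e : (gap I i t up).2 - (l * (gap I i t up).1 + cc I l) =
      rho I * (nv i t * (HH I i t i - HH I i t l)) +
        (ga I i - ga I l + bif up then wd I i else -wd I i) := by
    simp only [gap, nu, cc, HH]
    generalize (bif up then wd I i else -wd I i) = w
    generalize 240 / nv i t = D at h
    split_ifs
    · ring
    · linear_combination rho I * h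
    · linear_combination -rho I * h
    · ring
  rw [← e]
  simp only [f0, fv, tz, a0, b0]
  push_cast
  rfl

theorem ne_GapA (I : In) {i l t : ℕ} (ht : t < 3) (h : l ≠ i) : HH I i t i - HH I i t l ≠ 0 := by
  have h1 := (nv_GapA i ht).2.2.2
  unfold HH
  generalize 240 / nv i t = D at h1
  rcases sg_GapA I i with e | e <;> rw [e] <;> split_ifs <;> omega

theorem sGapA : SGapA := by
  intro I h i t up hi ht
  obtain ⟨n1, n2, -⟩ := nv_GapA i ht
  obtain ⟨s1, s2, s3, s4, s5, s6, s7, s8⟩ := scales I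
  have b := BB_one I
  have r1 : del I ≤ rr I := s2 ▸ le_mul_of_one_le_right s5.le b
  have r2 : rr I ≤ rho I := ((le_mul_of_one_le_right s6.le b).trans s3).trans
    ((le_mul_of_one_le_right s7.le b).trans s4)
  refine ⟨?_, by rw [val_GapA I i i ht]; simp, fun l hl hli => ?_⟩
  · have e : |nu I i t * rho I| ≤ 1000 * rho I := by
      rw [abs_mul, abs_of_pos s8]
      refine mul_le_mul_of_nonneg_right ?_ s8.le
      unfold nu
      rcases sg_GapA I i with e | e <;> rw [e, abs_le] <;> omega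
    simp only [tz, gap]
    exact_mod_cast e
  have g1 := abs_le.1 ((le_mul_of_one_le_right (abs_nonneg _) b).trans (ga_le h hi).1)
  have g2 := abs_le.1 ((le_mul_of_one_le_right (abs_nonneg _) b).trans (ga_le h hl).1)
  have w := wd_pos I i
  have g3 : -(3 * rho I) ≤ ga I i - ga I l + (bif up then wd I i else -wd I i) ∧
      ga I i - ga I l + (bif up then wd I i else -wd I i) ≤ 3 * rho I := by
    cases up <;> simp only [cond_true, cond_false] <;> omega
  have hne := ne_GapA I ht hli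
  rw [val_GapA I i l ht, ← sub_pos (a := HH I i t i)]
  generalize ga I i - ga I l + (bif up then wd I i else -wd I i) = E at g3
  generalize HH I i t i - HH I i t l = H at hne
  generalize nv i t = N at n1
  generalize rho I = R at *
  generalize rr I = Q at *
  have key : Q ≤ |R * (N * H) + E| ∧ (0 < R * (N * H) + E ↔ 0 < H) := by
    rcases lt_or_gt_of_ne hne with q | q
    · have a1 : N * H ≤ -10 := by nlinarith
      have a2 := mul_le_mul_of_nonneg_left a1 s8.le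
      exact ⟨le_abs.2 (.inr (by omega)), by omega⟩
    · have a1 : 10 ≤ N * H := by nlinarith
      have a2 := mul_le_mul_of_nonneg_left a1 s8.le
      exact ⟨le_abs.2 (.inl (by omega)), by omega⟩
  exact ⟨by exact_mod_cast key.1, by exact_mod_cast key.2⟩

end Pool.Agent.MP_b0ee3d_lc.H

end

section
set_option autoImplicit false

namespace Pool.Agent.MP_b0ee3d_lc.H

/-- the shift of the abscissa of an occurrence point -/
theorem dx_Z {I : In} (h : WF I) {o : ℕ} (ho : o < MM I) : ∃ dx : ℤ, zx I o = xi I o + dx ∧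
    ((cI I o : ℤ) - (xI I o : ℤ)) * dx = al I o - be I o ∧ |dx| ≤ 2 * fac I ∧
    |al I o| ≤ fac I := by
  have a1 := idx h ho
  have f1 := fac_pos I
  have hd : ((cI I o : ℤ) - (xI I o : ℤ)) ∣ fac I :=
    dvd_fac I (by omega) (by rw [abs_le]; omega)
  have ha : al I o = fac I ∨ al I o = -fac I := by unfold al; cases (lit I o).2 <;> simp
  have hb : be I o = fac I ∨ be I o = 0 := by unfold be; split_ifs <;> simp
  have h2 : fac I ∣ al I o - be I o := by
    refine dvd_sub ?_ ?_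
    · rcases ha with e | e <;> rw [e]
      exact (dvd_refl _).neg_right
    · rcases hb with e | e <;> rw [e]
      exact dvd_zero _
  have e := Int.mul_ediv_cancel' (hd.trans h2)
  refine ⟨_, rfl, e, ?_, by rw [abs_le]; omega⟩
  have d1 : (1 : ℤ) ≤ (cI I o : ℤ) - (xI I o : ℤ) := by omega
  have h3 : |al I o - be I o| ≤ 2 * fac I := by rw [abs_le]; omega
  rw [← e, abs_mul, abs_of_pos (by omega : (0 : ℤ) < (cI I o : ℤ) - (xI I o : ℤ))] at h3
  exact (le_mul_of_one_le_left (abs_nonneg _) d1).trans h3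

theorem gap_Z {I : In} (h : WF I) {o o' : ℕ} (ho : o < MM I) (ho' : o' < MM I) (l : o < o')
    (e : o / 3 = o' / 3) : xi I o' + SS I ≤ xi I o := by
  have a1 := idx h ho
  have a2 := idx h ho'
  have ec : cI I o = cI I o' := by unfold cI; rw [e]
  have ex : xI I o + 2 ≤ xI I o' := by have := h.srt o o' l ho' e; unfold xI; omega
  have x1 := (xi_spec h ho).1
  have x2 := (xi_spec h ho').1
  rw [← ec] at x2 a2
  have hs := (scales I).2.2.2.2.2.2.1
  have b1 := BB_one I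
  have b2 := BB_ge I
  have hk : (63 : ℤ) ≤ kk I := by exact_mod_cast kk_ge I
  have g1 : 0 < gb I (xI I o) := by rw [gb_eq]; exact mul_pos hs (pow_pos (by omega) _)
  have g2 : SS I ≤ gb I (xI I o') := by
    rw [gb_eq]; exact le_mul_of_one_le_right hs.le (one_le_pow₀ b1)
  have g3 : gb I (xI I o') * BB I ≤ gb I (cI I o) := by
    rw [gb_eq, gb_eq, if_neg (by omega), if_neg (by omega), mul_assoc, ← pow_succ]
    exact mul_le_mul_of_nonneg_left (pow_le_pow_right₀ b1 (by omega)) hs.le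
  have b3 : (kk I : ℤ) * kk I + kk I ≤ BB I := by
    refine le_trans ?_ b2
    have e2 : (kk I : ℤ) ^ 2 ≤ (kk I : ℤ) ^ 5 := pow_le_pow_right₀ (by omega) (by norm_num)
    have e1 : (kk I : ℤ) ^ 1 ≤ (kk I : ℤ) ^ 5 := pow_le_pow_right₀ (by omega) (by norm_num)
    rw [pow_one] at e1
    rw [sq] at e2
    generalize (kk I : ℤ) * kk I = A at *
    generalize (kk I : ℤ) ^ 5 = B at *
    omega
  have d1 : (1 : ℤ) ≤ (cI I o : ℤ) - (xI I o' : ℤ) := by omega
  have d2 : (cI I o : ℤ) - (xI I o' : ℤ) + 1 ≤ (cI I o : ℤ) - (xI I o : ℤ) := by omega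
  have d3 : (cI I o : ℤ) - (xI I o : ℤ) ≤ kk I := by omega
  clear a1 a2 ex b2
  generalize (cI I o : ℤ) - (xI I o' : ℤ) = d' at *
  generalize (cI I o : ℤ) - (xI I o : ℤ) = d at *
  generalize gb I (xI I o) = G at *
  generalize gb I (xI I o') = G' at *
  generalize gb I (cI I o) = C at *
  generalize (kk I : ℤ) = k at *
  generalize xi I o = u at *
  generalize xi I o' = u' at *
  generalize SS I = S at *
  generalize BB I = B at *
  have p0 : 0 < d * d' := mul_pos (by omega) (by omega)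
  have p1 : d * d' ≤ k * k := mul_le_mul d3 (by omega) (by omega) (by omega)
  have p2 : d * d' * (u - u') = C * (d - d') + d' * G - d * G' := by
    linear_combination d' * x1 - d * x2
  have p3 : 0 ≤ C := le_trans (mul_nonneg (by omega) (by omega)) g3
  have p4 : C ≤ C * (d - d') := le_mul_of_one_le_right p3 (by omega)
  have p5 : d * G' ≤ k * G' := mul_le_mul_of_nonneg_right d3 (by omega)
  have p6 : G' * (k * k + k) ≤ G' * B := mul_le_mul_of_nonneg_left b3 (by omega)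
  have p7 : 0 ≤ d' * G := mul_nonneg (by omega) g1.le
  have p8 : d * d' * S ≤ k * k * G' := mul_le_mul p1 g2 hs.le (mul_self_nonneg k)
  have p9 : d * d' * S ≤ d * d' * (u - u') := by linarith
  have := le_of_mul_le_mul_left p9 p0
  omega

theorem sZ (hB : SBase) : SZ := by
  intro I h o ho
  obtain ⟨-, hB2, hB3⟩ := hB I h
  obtain ⟨v1, v2, -⟩ := hB3 o ho
  obtain ⟨dx, z1, z2, z3, z4⟩ := dx_Z h ho
  have a1 := idx h ho
  obtain ⟨x1, -, x3, x4⟩ := xi_spec h ho
  obtain ⟨s1, s2, s3, s4, s5, s6, s7, s8⟩ := scales I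
  have f1 := fac_pos I
  have b1 := BB_ge' I
  have hk : (63 : ℤ) ≤ kk I := by exact_mod_cast kk_ge I
  have t1 : del I ≤ rr I := s2 ▸ le_mul_of_one_le_right s5.le (by omega)
  have t2 : rr I ≤ SS I := (le_mul_of_one_le_right s6.le (by omega)).trans s3
  have t3 : SS I ≤ rho I := (le_mul_of_one_le_right s7.le (by omega)).trans s4
  have t4 : 2 * kk I * fac I ≤ rr I := by
    refine le_trans ?_ (s1.trans t1)
    rw [mul_comm (fac I)]
    exact mul_le_mul_of_nonneg_right (by omega) (by omega)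
  have t5 : 8 * fac I ≤ rr I :=
    (mul_le_mul_of_nonneg_right (by omega) (by omega)).trans t4
  have key : ∀ l : ℕ, f0 I l (tz (zz I o)) = f0 I l (V0 I (xI I o) (cI I o)) +
      ((((xI I o : ℤ) - (l : ℤ)) * dx + al I o : ℤ) : ℝ) := by
    intro l
    simp only [f0, fv, V0, VV, tz, zz, v1, z1, a0, b0]
    push_cast
    ring
  have bd : ∀ l < kk I, |(((((xI I o : ℤ) - (l : ℤ)) * dx + al I o : ℤ)) : ℝ)| ≤
      2 * kk I * (fac I : ℝ) := by
    intro l hl
    have q1 : |((xI I o : ℤ) - (l : ℤ)) * dx| ≤ (kk I - 1) * (2 * fac I) := by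
      rw [abs_mul]
      exact mul_le_mul (by rw [abs_le]; omega) z3 (abs_nonneg _) (by omega)
    have q2 : |((xI I o : ℤ) - (l : ℤ)) * dx + al I o| ≤ 2 * kk I * fac I := by
      refine (abs_add_le _ _).trans ?_
      linarith
    exact_mod_cast q2
  refine ⟨?_, ?_, ?_, ?_, ?_, ?_⟩
  · have g1 := (ga_le h (i := cI I o) (by omega)).1
    rw [ga_cI h ho] at g1
    have g2 : |gb I (cI I o)| * 2 ≤ |gb I (cI I o)| * BB I :=
      mul_le_mul_of_nonneg_left (by omega) (abs_nonneg _)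
    have g3 := le_abs_self (gb I (cI I o))
    have g4 : |zx I o| ≤ rho I := by
      rw [abs_le] at z3 ⊢
      omega
    simp only [tz, zz]
    exact_mod_cast g4
  · rw [key, v2 _ (Or.inl rfl)]; simp
  · rw [key, v2 _ (Or.inr (Or.inl rfl)), zero_add]
    exact congrArg Int.cast (by linear_combination -z2)
  · rw [key, v2 _ (Or.inr (Or.inr rfl)), zero_add]
    exact bd _ (by omega)
  · intro l hl hn
    have n1 : l ≠ xI I o := fun e => hn (Or.inl e)
    have n2 : l ≠ cI I o := fun e => hn (Or.inr (Or.inl e))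
    have n3 : xI I o ≠ cI I o := by omega
    have w1 := hB2 (xI I o) (cI I o) l (by omega) (by omega) hl n3 n1 n2 (by
      rintro ⟨o', ho', c1, c2, c3⟩
      have := On.uniq h ho ho' n3 (Or.inl rfl) (Or.inr (Or.inl rfl)) c1 c2
      exact hn (this ▸ c3))
    have w2 := bd l hl
    have w3 : 2 * kk I * (fac I : ℝ) ≤ rr I := by exact_mod_cast t4
    have w4 : (0 : ℝ) < rr I := by exact_mod_cast s6
    have w5 : (63 : ℝ) ≤ kk I := by exact_mod_cast hk
    rw [key]
    generalize (((((xI I o : ℤ) - (l : ℤ)) * dx + al I o : ℤ)) : ℝ) = D at *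
    generalize f0 I l (V0 I (xI I o) (cI I o)) = F at *
    have w6 : 4 * (rr I : ℝ) ≤ |F| := le_trans (mul_le_mul_of_nonneg_right (by linarith) w4.le) w1
    have w7 := abs_le.1 (w2.trans w3)
    rcases le_abs.1 w6 with w | w
    · exact ⟨le_abs.2 (Or.inl (by linarith)), mul_pos (by linarith) (by linarith)⟩
    · exact ⟨le_abs.2 (Or.inr (by linarith)), mul_pos_of_neg_of_neg (by linarith) (by linarith)⟩
  · intro o' ho' l e
    obtain ⟨dx', y1, -, y3, -⟩ := dx_Z h ho'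
    have g := gap_Z h ho ho' l e
    have g2 : 2 * zx I o' + SS I ≤ 2 * zx I o := by
      rw [abs_le] at z3 y3
      omega
    simp only [tz, zz]
    exact_mod_cast g2

end Pool.Agent.MP_b0ee3d_lc.H

end

section
/- The gap dots lie in bounded cells with pairwise different sign vectors. -/

set_option autoImplicit false

namespace Pool.Agent.MP_b0ee3d_lc.H

theorem dv_GapB (i : ℕ) {t : ℕ} (ht : t < 3) :
    (i % 2 = 0 → 240 / nv i t = 4 * (t : ℤ) + 4) ∧ (i % 2 = 1 → 240 / nv i t = 4 * (t : ℤ) + 16) := by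
  refine ⟨fun e => ?_, fun e => ?_⟩
  · rw [nv, if_pos e]; interval_cases t <;> rfl
  · rw [nv, if_neg (by omega)]; interval_cases t <;> rfl

theorem sg_GapB (I : In) (i : ℕ) :
    (i % 2 = 0 → 2 * i < kk I → sg I i = 1) ∧ (i % 2 = 1 → kk I ≤ 2 * i → sg I i = 1) ∧
    (i % 2 = 0 → kk I ≤ 2 * i → sg I i = -1) ∧ (i % 2 = 1 → 2 * i < kk I → sg I i = -1) := by
  unfold sg
  refine ⟨fun e f => if_pos ?_, fun e f => if_pos ?_, fun e f => if_neg ?_, fun e f => if_neg ?_⟩ <;>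
    rw [decide_eq_decide] <;> omega

theorem ab_GapB (hA : SGapA) {I : In} (h : WF I) {i t : ℕ} (up : Bool) (hi : i < kk I)
    (ht : t < 3) : (ab I i (gap I i t up) = true ↔ up = true) ∧ ∀ l < kk I, l ≠ i →
      (ab I l (gap I i t up) = true ↔ HH I i t l < HH I i t i) := by
  obtain ⟨-, h1, h2⟩ := hA I h i t up hi ht
  refine ⟨?_, fun l hl e => by rw [ab_iff]; exact (h2 l hl e).2⟩
  have hw := (wd_pos I i).1
  rw [ab_iff, h1, Int.cast_pos]
  cases up
  · simp only [cond_false, Bool.false_eq_true, iff_false]; omega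
  · simp only [cond_true, iff_true]; exact hw

/-- the two tables of thresholds -/
def TU_GapB (k i t : ℕ) (c E O : ℤ) : Prop :=
  (i % 2 = 0 ∧ 2 * i < k ∧ E = i - c ∧ O = i + 4 * t + 3) ∨
    (i % 2 = 1 ∧ k ≤ 2 * i ∧ E = i - 4 * t - 17 ∧ O = i - c)

def TD_GapB (k i t : ℕ) (c E O : ℤ) : Prop :=
  (i % 2 = 0 ∧ k ≤ 2 * i ∧ E = i + c ∧ O = i - 4 * t - 3) ∨
    (i % 2 = 1 ∧ 2 * i < k ∧ E = i + 4 * t + 17 ∧ O = i + c)

theorem tab_GapB (hA : SGapA) {I : In} (h : WF I) {i t : ℕ} (up : Bool) (hi : i < kk I)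
    (ht : t < 3) : ∃ c E O : ℤ, (c = 0 ∧ up = true ∨ c = 2 ∧ up = false) ∧
      ((TU_GapB (kk I) i t c E O ∧ ∀ l < kk I, ab I l (gap I i t up) = true ↔
          (l % 2 = 0 ∧ (l : ℤ) ≤ E ∨ l % 2 = 1 ∧ (l : ℤ) ≤ O)) ∨
        (TD_GapB (kk I) i t c E O ∧ ∀ l < kk I, ab I l (gap I i t up) = true ↔
          (l % 2 = 0 ∧ E ≤ (l : ℤ) ∨ l % 2 = 1 ∧ O ≤ (l : ℤ)))) := by
  obtain ⟨h1, h2⟩ := ab_GapB hA h up hi ht
  obtain ⟨d1, d2⟩ := dv_GapB i ht
  obtain ⟨s1, s2, s3, s4⟩ := sg_GapB I i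
  obtain ⟨c, hc⟩ : ∃ c : ℤ, c = 0 ∧ up = true ∨ c = 2 ∧ up = false := by
    cases up
    · exact ⟨2, Or.inr ⟨rfl, rfl⟩⟩
    · exact ⟨0, Or.inl ⟨rfl, rfl⟩⟩
  have hc' : (up = true ↔ c = 0) ∧ (c = 0 ∨ c = 2) := by
    rcases hc with ⟨e1, e2⟩ | ⟨e1, e2⟩ <;> simp [e1, e2]
  obtain ⟨hu, hc2⟩ := hc'
  rw [hu] at h1
  have key : ∀ l < kk I, (ab I l (gap I i t up) = true ↔
      (l = i ∧ c = 0 ∨ l ≠ i ∧ HH I i t l < HH I i t i)) := fun l hl => by
    by_cases e : l = i
    · rw [e, h1]; simp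
    · rw [h2 l hl e]; simp [e]
  clear h1 h2 hu
  unfold HH at key
  rcases Nat.mod_two_eq_zero_or_one i with e | e <;> rcases lt_or_ge (2 * i) (kk I) with f | f
  · refine ⟨c, _, _, hc, Or.inl ⟨Or.inl ⟨e, f, rfl, rfl⟩, fun l hl => ?_⟩⟩
    rw [key l hl, s1 e f, d1 e, if_neg (show ¬ i % 2 = 1 by omega)]
    rcases Nat.mod_two_eq_zero_or_one l with g | g
    · rw [if_neg (by omega)]; omega
    · rw [if_pos g]; omega
  · refine ⟨c, _, _, hc, Or.inr ⟨Or.inl ⟨e, f, rfl, rfl⟩, fun l hl => ?_⟩⟩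
    rw [key l hl, s3 e f, d1 e, if_neg (show ¬ i % 2 = 1 by omega)]
    rcases Nat.mod_two_eq_zero_or_one l with g | g
    · rw [if_neg (by omega)]; omega
    · rw [if_pos g]; omega
  · refine ⟨c, _, _, hc, Or.inr ⟨Or.inr ⟨e, f, rfl, rfl⟩, fun l hl => ?_⟩⟩
    rw [key l hl, s4 e f, d2 e, if_pos e]
    rcases Nat.mod_two_eq_zero_or_one l with g | g
    · rw [if_neg (by omega)]; omega
    · rw [if_pos g]; omega
  · refine ⟨c, _, _, hc, Or.inl ⟨Or.inr ⟨e, f, rfl, rfl⟩, fun l hl => ?_⟩⟩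
    rw [key l hl, s2 e f, d2 e, if_pos e]
    rcases Nat.mod_two_eq_zero_or_one l with g | g
    · rw [if_neg (by omega)]; omega
    · rw [if_pos g]; omega

theorem rU_GapB {k i t : ℕ} {c E O : ℤ} (hk : 63 ≤ k) (ko : k % 2 = 1) (hi : i < k) (ht : t < 3)
    (hc : c = 0 ∨ c = 2) (h : TU_GapB k i t c E O) : ∃ e o : ℕ, (e : ℤ) = E + 2 ∧ (o : ℤ) = O ∧
      e % 2 = 0 ∧ o % 2 = 1 ∧ e < o ∧ o < k ∧ (e = 0 → o ≤ 11) := by
  refine ⟨(E + 2).toNat, O.toNat, ?_⟩
  rcases h with ⟨a1, a2, a3, a4⟩ | ⟨a1, a2, a3, a4⟩ <;> rcases hc with a5 | a5 <;> omega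

theorem rD_GapB {k i t : ℕ} {c E O : ℤ} (hk : 63 ≤ k) (ko : k % 2 = 1) (hi : i < k) (ht : t < 3)
    (hc : c = 0 ∨ c = 2) (h : TD_GapB k i t c E O) : ∃ e o : ℕ, (e : ℤ) = E - 2 ∧ (o : ℤ) = O ∧
      e % 2 = 0 ∧ o % 2 = 1 ∧ o < e ∧ e < k := by
  refine ⟨(E - 2).toNat, O.toNat, ?_⟩
  rcases h with ⟨a1, a2, a3, a4⟩ | ⟨a1, a2, a3, a4⟩ <;> rcases hc with a5 | a5 <;> omega

theorem iU_GapB {k i t i' t' : ℕ} {c c' E O : ℤ} (ht : t < 3) (ht' : t' < 3)
    (hc : c = 0 ∨ c = 2) (hc' : c' = 0 ∨ c' = 2) (h : TU_GapB k i t c E O)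
    (h' : TU_GapB k i' t' c' E O) : i = i' ∧ t = t' ∧ c = c' := by
  rcases h with ⟨a1, -, a3, a4⟩ | ⟨a1, -, a3, a4⟩ <;>
    rcases h' with ⟨b1, -, b3, b4⟩ | ⟨b1, -, b3, b4⟩ <;>
    rcases hc with a5 | a5 <;> rcases hc' with b5 | b5 <;> omega

theorem iD_GapB {k i t i' t' : ℕ} {c c' E O : ℤ} (ht : t < 3) (ht' : t' < 3)
    (hc : c = 0 ∨ c = 2) (hc' : c' = 0 ∨ c' = 2) (h : TD_GapB k i t c E O)
    (h' : TD_GapB k i' t' c' E O) : i = i' ∧ t = t' ∧ c = c' := by
  rcases h with ⟨a1, -, a3, a4⟩ | ⟨a1, -, a3, a4⟩ <;>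
    rcases h' with ⟨b1, -, b3, b4⟩ | ⟨b1, -, b3, b4⟩ <;>
    rcases hc with a5 | a5 <;> rcases hc' with b5 | b5 <;> omega

theorem mix_GapB {k e o e' o' : ℕ} {E O E' O' : ℤ} (hk : 63 ≤ k) (ko : k % 2 = 1)
    (a1 : (e : ℤ) = E + 2) (a2 : (o : ℤ) = O) (a4 : o % 2 = 1) (a7 : e = 0 → o ≤ 11)
    (b1 : (e' : ℤ) = E' - 2) (b2 : (o' : ℤ) = O') (b5 : o' < e') (b6 : e' < k) (a3 : e % 2 = 0)
    (H : ∀ l < k, (l % 2 = 0 ∧ (l : ℤ) ≤ E ∨ l % 2 = 1 ∧ (l : ℤ) ≤ O) ↔
      (l % 2 = 0 ∧ E' ≤ (l : ℤ) ∨ l % 2 = 1 ∧ O' ≤ (l : ℤ))) : False := by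
  have p1 := (H (k - 2) (by omega)).2 (Or.inr ⟨by omega, by omega⟩)
  have p2 := (H 0 (by omega)).1
  have p3 : ¬ (0 : ℤ) ≤ E := fun q => by
    have := p2 (Or.inl ⟨rfl, by omega⟩)
    omega
  omega

theorem sGapB (hA : SGapA) : SGapB := by
  intro I h i t up hi ht
  have hk := kk_ge I
  have ko := kk_odd I
  obtain ⟨c, E, O, hc, T⟩ := tab_GapB hA h up hi ht
  have hc2 : c = 0 ∨ c = 2 := hc.imp And.left And.left
  refine ⟨?_, fun i' t' up' hi' ht' hs => ?_⟩
  · rw [bnd_iff]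
    rcases T with ⟨T, H⟩ | ⟨T, H⟩
    · obtain ⟨e, o, a1, a2, a3, a4, a5, a6, -⟩ := rU_GapB hk ko hi ht hc2 T
      refine ⟨⟨e, o, a5, a6, ?_, ?_⟩, ⟨1, kk I - 1, by omega, by omega, ?_, ?_⟩⟩ <;> beta_reduce
      · rw [H e (by omega)]; omega
      · rw [H o a6]; omega
      · rw [H 1 (by omega)]; omega
      · rw [H (kk I - 1) (by omega)]; omega
    · obtain ⟨e, o, a1, a2, a3, a4, a5, a6⟩ := rD_GapB hk ko hi ht hc2 T
      refine ⟨⟨0, kk I - 2, by omega, by omega, ?_, ?_⟩, ⟨o, e, a5, a6, ?_, ?_⟩⟩ <;> beta_reduce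
      · rw [H 0 (by omega)]; omega
      · rw [H (kk I - 2) (by omega)]; omega
      · rw [H o (by omega)]; omega
      · rw [H e a6]; omega
  · obtain ⟨c', E', O', hc', T'⟩ := tab_GapB hA h up' hi' ht'
    have hc2' : c' = 0 ∨ c' = 2 := hc'.imp And.left And.left
    rw [sv_eq_iff] at hs
    suffices hh : i = i' ∧ t = t' ∧ c = c' by
      refine ⟨hh.1, hh.2.1, ?_⟩
      have := hh.2.2
      rcases hc with ⟨p, q⟩ | ⟨p, q⟩ <;> rcases hc' with ⟨p', q'⟩ | ⟨p', q'⟩ <;>
        first | omega | rw [q, q']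
    rcases T with ⟨T, H⟩ | ⟨T, H⟩ <;> rcases T' with ⟨T', H'⟩ | ⟨T', H'⟩
    · obtain ⟨e, o, a1, a2, a3, a4, a5, a6, -⟩ := rU_GapB hk ko hi ht hc2 T
      obtain ⟨e', o', b1, b2, b3, b4, b5, b6, -⟩ := rU_GapB hk ko hi' ht' hc2' T'
      have G := fun l hl => (H l hl).symm.trans ((Bool.eq_iff_iff.1 (hs l hl)).trans (H' l hl))
      have p1 := (G o a6).1 (Or.inr ⟨a4, a2.le⟩)
      have p2 := (G o' b6).2 (Or.inr ⟨b4, b2.le⟩)
      have p3 : O = O' := by omega
      have p4 : ¬ (e : ℤ) ≤ E' := fun q => by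
        have := (G e (by omega)).2 (Or.inl ⟨a3, q⟩)
        omega
      have p5 : ¬ (e' : ℤ) ≤ E := fun q => by
        have := (G e' (by omega)).1 (Or.inl ⟨b3, q⟩)
        omega
      have p6 : E = E' := by omega
      rw [← p3, ← p6] at T'
      exact iU_GapB ht ht' hc2 hc2' T T'
    · obtain ⟨e, o, a1, a2, a3, a4, a5, a6, a7⟩ := rU_GapB hk ko hi ht hc2 T
      obtain ⟨e', o', b1, b2, b3, b4, b5, b6⟩ := rD_GapB hk ko hi' ht' hc2' T'
      exact (mix_GapB hk ko a1 a2 a4 a7 b1 b2 b5 b6 a3 fun l hl =>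
        (H l hl).symm.trans ((Bool.eq_iff_iff.1 (hs l hl)).trans (H' l hl))).elim
    · obtain ⟨e, o, a1, a2, a3, a4, a5, a6, a7⟩ := rU_GapB hk ko hi' ht' hc2' T'
      obtain ⟨e', o', b1, b2, b3, b4, b5, b6⟩ := rD_GapB hk ko hi ht hc2 T
      exact (mix_GapB hk ko a1 a2 a4 a7 b1 b2 b5 b6 a3 fun l hl =>
        (H' l hl).symm.trans ((Bool.eq_iff_iff.1 (hs l hl)).symm.trans (H l hl))).elim
    · obtain ⟨e, o, a1, a2, a3, a4, a5, a6⟩ := rD_GapB hk ko hi ht hc2 T
      obtain ⟨e', o', b1, b2, b3, b4, b5, b6⟩ := rD_GapB hk ko hi' ht' hc2' T'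
      have G := fun l hl => (H l hl).symm.trans ((Bool.eq_iff_iff.1 (hs l hl)).trans (H' l hl))
      have p1 := (G o (by omega)).1 (Or.inr ⟨a4, a2.ge⟩)
      have p2 := (G o' (by omega)).2 (Or.inr ⟨b4, b2.ge⟩)
      have p3 : O = O' := by omega
      have p4 : ¬ E' ≤ (e : ℤ) := fun q => by
        have := (G e a6).2 (Or.inl ⟨a3, q⟩)
        omega
      have p5 : ¬ E ≤ (e' : ℤ) := fun q => by
        have := (G e' b6).1 (Or.inl ⟨b3, q⟩)
        omega
      have p6 : E = E' := by omega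
      rw [← p3, ← p6] at T'
      exact iD_GapB ht ht' hc2 hc2' T T'

end Pool.Agent.MP_b0ee3d_lc.H

end

section
set_option autoImplicit false

namespace Pool.Agent.MP_b0ee3d_lc.H

theorem getD_Kept {L : List (ℤ × ℤ)} {p : ℤ × ℤ} :
    p ∈ L ↔ ∃ j < L.length, L.getD j (0, 0) = p := by
  rw [List.mem_iff_getElem]
  exact ⟨fun ⟨j, h, e⟩ => ⟨j, h, by rw [List.getD_eq_getElem _ _ h, e]⟩,
    fun ⟨j, h, e⟩ => ⟨j, h, by rw [← e, List.getD_eq_getElem _ _ h]⟩⟩

section
variable {β : Type} [DecidableEq β] {key : ℤ × ℤ → β} {ok : ℤ × ℤ → Bool} {L : List (ℤ × ℤ)}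

theorem mem_Kept {p : ℤ × ℤ} : p ∈ ded key ok L ↔ ∃ j < L.length, ok (L.getD j (0, 0)) = true ∧
    (∀ i < j, key (L.getD i (0, 0)) ≠ key (L.getD j (0, 0))) ∧ L.getD j (0, 0) = p := by
  simp only [ded, List.mem_map, List.mem_filter, List.mem_range, Bool.and_eq_true,
    List.all_eq_true, decide_eq_true_eq]
  exact ⟨fun ⟨j, ⟨h1, h2, h3⟩, h4⟩ => ⟨j, h1, h2, h3, h4⟩,
    fun ⟨j, h1, h2, h3, h4⟩ => ⟨j, ⟨h1, h2, h3⟩, h4⟩⟩

theorem sub_Kept {p : ℤ × ℤ} (h : p ∈ ded key ok L) : p ∈ L ∧ ok p = true := by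
  obtain ⟨j, h1, h2, -, h4⟩ := mem_Kept.1 h
  exact ⟨getD_Kept.2 ⟨j, h1, h4⟩, h4 ▸ h2⟩

theorem least_Kept (hk : ∀ p q, key p = key q → ok q = true → ok p = true) {j : ℕ}
    (h1 : j < L.length) (h2 : ok (L.getD j (0, 0)) = true) :
    ∃ i ≤ j, key (L.getD i (0, 0)) = key (L.getD j (0, 0)) ∧ L.getD i (0, 0) ∈ ded key ok L := by
  have e : ∃ i, key (L.getD i (0, 0)) = key (L.getD j (0, 0)) := ⟨j, rfl⟩
  have h3 := Nat.find_spec e
  have h4 : Nat.find e ≤ j := Nat.find_min' e rfl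
  exact ⟨_, h4, h3, mem_Kept.2 ⟨_, h4.trans_lt h1, hk _ _ h3 h2,
    fun i hi h5 => Nat.find_min e hi (h5.trans h3), rfl⟩⟩

theorem rep_Kept (hk : ∀ p q, key p = key q → ok q = true → ok p = true) {p : ℤ × ℤ}
    (h1 : p ∈ L) (h2 : ok p = true) : ∃ q ∈ ded key ok L, key q = key p := by
  obtain ⟨j, h3, rfl⟩ := getD_Kept.1 h1
  obtain ⟨i, -, h4, h5⟩ := least_Kept hk h3 h2
  exact ⟨_, h5, h4⟩

theorem inj_Kept {p q : ℤ × ℤ} (hp : p ∈ ded key ok L) (hq : q ∈ ded key ok L)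
    (h : key p = key q) : p = q := by
  obtain ⟨i, -, -, h1, rfl⟩ := mem_Kept.1 hp
  obtain ⟨j, -, -, h2, rfl⟩ := mem_Kept.1 hq
  rcases lt_trichotomy i j with l | l | l
  · exact absurd h (h2 i l)
  · rw [l]
  · exact absurd h.symm (h1 j l)

theorem nodup_Kept : (ded key ok L).Nodup := by
  refine List.Nodup.map_on (fun i hi j hj h => ?_) (List.nodup_range.filter _)
  simp only [List.mem_filter, List.mem_range, Bool.and_eq_true, List.all_eq_true,
    decide_eq_true_eq] at hi hj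
  rcases lt_trichotomy i j with l | l | l
  · exact absurd (congrArg key h) (hj.2.2 i l)
  · exact l
  · exact absurd (congrArg key h).symm (hi.2.2 j l)

theorem left_Kept (hk : ∀ p q, key p = key q → ok q = true → ok p = true) {G C : List (ℤ × ℤ)}
    {p : ℤ × ℤ} (h1 : p ∈ G) (h2 : ok p = true) (h3 : ∀ q ∈ G, key q = key p → q = p) :
    p ∈ ded key ok (G ++ C) := by
  obtain ⟨j, h4, rfl⟩ := getD_Kept.1 h1
  have e : ∀ i < G.length, (G ++ C).getD i (0, 0) = G.getD i (0, 0) := fun i hi =>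
    List.getD_append _ _ _ _ hi
  obtain ⟨i, h5, h6, h7⟩ := least_Kept (L := G ++ C) hk (j := j)
    (by rw [List.length_append]; omega) (by rw [e j h4]; exact h2)
  rw [e i (by omega)] at h6 h7
  rw [e j h4] at h6
  exact h3 _ (getD_Kept.2 ⟨i, by omega, rfl⟩) h6 ▸ h7

end

theorem bnd_Kept (I : In) (p q : ℤ × ℤ) (h : sv I p = sv I q) (hq : bnd I q = true) :
    bnd I p = true := by
  rw [sv_eq_iff] at h
  rw [bnd_iff] at hq ⊢
  obtain ⟨⟨i, j, h1, h2, h3, h4⟩, i', j', h5, h6, h7, h8⟩ := hq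
  exact ⟨⟨i, j, h1, h2, fun e => h3 ((h i (h1.trans h2)).symm.trans e), (h j h2).trans h4⟩,
    i', j', h5, h6, (h i' (h5.trans h6)).trans h7, fun e => h8 ((h j' h6).symm.trans e)⟩

theorem gaps_Kept (I : In) (p : ℤ × ℤ) :
    p ∈ gaps I ↔ ∃ i t up, i < kk I ∧ t < 3 ∧ p = gap I i t up := by
  simp only [gaps, List.mem_flatMap, List.mem_range, List.mem_cons, List.not_mem_nil, or_false]
  exact ⟨fun ⟨i, h1, t, h2, h3⟩ => h3.elim (fun e => ⟨i, t, _, h1, h2, e⟩)
    fun e => ⟨i, t, _, h1, h2, e⟩, fun ⟨i, t, up, h1, h2, e⟩ => ⟨i, h1, t, h2, by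
      cases up
      · exact Or.inr e
      · exact Or.inl e⟩⟩

theorem cands_Kept (I : In) (p : ℤ × ℤ) :
    p ∈ cands I ↔ ∃ i j m s, i < j ∧ j < kk I ∧ m ≤ kk I ∧ p = cand I i j m s := by
  simp only [cands, List.mem_flatMap, List.mem_range, List.mem_cons, List.not_mem_nil, or_false,
    Nat.lt_succ_iff]
  exact ⟨fun ⟨j, h1, i, h2, m, h3, h4⟩ => h4.elim (fun e => ⟨i, j, m, _, h2, h1, h3, e⟩)
    fun e => ⟨i, j, m, _, h2, h1, h3, e⟩, fun ⟨i, j, m, s, h2, h1, h3, e⟩ =>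
      ⟨j, h1, i, h2, m, h3, by
        cases s
        · exact Or.inr e
        · exact Or.inl e⟩⟩

theorem sKept (hB : SGapB) : SKept := by
  intro I hI
  refine ⟨fun p hp => ?_, fun i t up hi ht => ?_, fun i j m s h1 h2 h3 h4 => ?_,
    fun p hp q hq h => inj_Kept hp hq h, fun p => ?_, nodup_Kept⟩
  · obtain ⟨h1, h2⟩ := sub_Kept hp
    exact ⟨h2, (List.mem_append.1 h1).imp (gaps_Kept I p).1 (cands_Kept I p).1⟩
  · refine left_Kept (bnd_Kept I) ((gaps_Kept I _).2 ⟨i, t, up, hi, ht, rfl⟩)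
      (hB I hI i t up hi ht).1 fun q hq h => ?_
    obtain ⟨i', t', up', hi', ht', rfl⟩ := (gaps_Kept I q).1 hq
    obtain ⟨rfl, rfl, rfl⟩ := (hB I hI i' t' up' hi' ht').2 i t up hi ht h
    rfl
  · exact rep_Kept (bnd_Kept I) (List.mem_append_right _
      ((cands_Kept I _).2 ⟨i, j, m, s, h1, h2, h3, rfl⟩)) h4
  · have e : p ∈ dots I ↔ p ∈ (List.range (MM I)).map (zz I) ++ kept I := by
      refine ⟨fun h => (sub_Kept h).1, fun h => ?_⟩
      obtain ⟨q, h1, h2⟩ := rep_Kept (key := id) (ok := fun _ => true) (fun _ _ _ _ => rfl) h rfl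
      exact (show q = p from h2) ▸ h1
    rw [e, List.mem_append, List.mem_map]
    exact or_congr_left ⟨fun ⟨o, h1, h2⟩ => ⟨o, List.mem_range.1 h1, h2.symm⟩,
      fun ⟨o, h1, h2⟩ => ⟨o, List.mem_range.2 h1, h2.symm⟩⟩

end Pool.Agent.MP_b0ee3d_lc.H

end

section
set_option autoImplicit false

namespace Pool.Agent.MP_b0ee3d_lc.H

theorem nu_le_Rig (I : In) (i t : ℕ) (ht : t < 3) : |nu I i t| ≤ 60 := by
  unfold nu sg nv
  interval_cases t <;> split_ifs <;> simp

theorem two_Rig (hG : SGen) {I : In} (h : WF I) {i j : ℕ} (hi : i < kk I) (hj : j < kk I)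
    (hij : i ≠ j) {u v : ℤ} (hu : |u| ≤ 2 * kk I) (hv : |v| ≤ 2 * kk I)
    (hs : (kk I : ℤ) ^ 3 * |u * ga I i + v * ga I j| < SS I) : v = 0 := by
  have hk := kk_ge I
  obtain ⟨c, hc, h1, h2⟩ : ∃ c, c < 3 ∧ c ≠ i ∧ c ≠ j := by
    by_cases a : 0 ≠ i ∧ 0 ≠ j
    · exact ⟨0, by omega, a.1, a.2⟩
    by_cases b : 1 ≠ i ∧ 1 ≠ j
    · exact ⟨1, by omega, b.1, b.2⟩
    · exact ⟨2, by omega, by omega, by omega⟩
  rcases hG I h i j c hi hj (by omega) hij h1 h2 u v 0 hu hv (by simp) (by simpa using hs) with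
    e | ⟨-, e1, e2⟩
  · exact e.2.1
  · have e3 : v * ((j : ℤ) - i) = 0 := by linear_combination e2 - (i : ℤ) * e1
    rcases mul_eq_zero.1 e3 with e | e
    · exact e
    · omega

theorem real_Rig {A B r d y1 y2 y3 n1 n2 n3 : ℝ} (b1 : |n1| ≤ 60) (b2 : |n2| ≤ 60) (b3 : |n3| ≤ 60)
    (h1 : |A * (n1 * r) + B - y1| < d) (h2 : |A * (n2 * r) + B - y2| < d)
    (h3 : |A * (n3 * r) + B - y3| < d) :
    |(n3 - n2) * y1 + (n1 - n3) * y2 + (n2 - n1) * y3| ≤ 360 * d := by
  have e : (n3 - n2) * y1 + (n1 - n3) * y2 + (n2 - n1) * y3 =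
      (n2 - n3) * (A * (n1 * r) + B - y1) + (n3 - n1) * (A * (n2 * r) + B - y2) +
        (n1 - n2) * (A * (n3 * r) + B - y3) := by ring
  have k : ∀ a b z : ℝ, |a| ≤ 60 → |b| ≤ 60 → |z| < d → |(a - b) * z| ≤ 120 * d := by
    intro a b z ha hb hz
    rw [abs_mul]
    exact mul_le_mul ((abs_sub _ _).trans (by linarith)) hz.le (abs_nonneg _) (by norm_num)
  rw [e]
  have := k _ _ _ b2 b3 h1
  have := k _ _ _ b3 b1 h2
  have := k _ _ _ b1 b2 h3
  refine (abs_add_three _ _ _).trans (by linarith)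

theorem int_Rig {k B d S r N G : ℤ} (hk : 63 ≤ k) (hB : 100000 * k ^ 5 ≤ B) (hd : 0 < d)
    (hS : d * B * B ≤ S) (hr : S * B ≤ r) (hG : |G| * B ≤ 360 * r) (hY : |r * N + G| ≤ 360 * d) :
    N = 0 ∧ k ^ 3 * |G| < S := by
  have k3 : 0 < k ^ 3 := by positivity
  have k5 : k ^ 3 ≤ k ^ 5 := pow_le_pow_right₀ (by omega) (by norm_num)
  have hB1 : 100000 ≤ B := by omega
  have a1 : d * B ≤ S := le_trans (le_mul_of_one_le_right (by positivity) (by omega)) hS
  have a0 : 0 < d * B := by positivity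
  have a2 : S ≤ r := le_trans (le_mul_of_one_le_right (by omega) (by omega)) hr
  have hN : N = 0 := by
    by_contra hN
    have n1 : 1 ≤ |N| := Int.one_le_abs hN
    have n2 : r ≤ |r * N| := by
      rw [abs_mul, abs_of_pos (by omega : 0 < r)]
      exact le_mul_of_one_le_right (by omega) n1
    have n3 : |r * N| ≤ |r * N + G| + |G| := by
      have := abs_sub (r * N + G) G
      rwa [add_sub_cancel_right] at this
    have n4 : r * B ≤ (360 * d + |G|) * B := mul_le_mul_of_nonneg_right (by omega) (by omega)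
    have n5 : r * 100000 ≤ r * B := mul_le_mul_of_nonneg_left hB1 (by omega)
    have n6 : (360 * d + |G|) * B = 360 * (d * B) + |G| * B := by ring
    omega
  refine ⟨hN, ?_⟩
  rw [hN, mul_zero, zero_add] at hY
  have m1 : k ^ 3 * |G| ≤ k ^ 3 * (360 * d) := mul_le_mul_of_nonneg_left hY k3.le
  have m2 : (360 * k ^ 3) * d < B * d := mul_lt_mul_of_pos_right (by omega) hd
  have m3 : k ^ 3 * (360 * d) = (360 * k ^ 3) * d := by ring
  have m4 : B * d = d * B := mul_comm _ _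
  omega

theorem sRig (hG : SGen) : SRig := by
  intro I h i j l ti tj tl A B hi hj hl hti htj htl n12 n13 n23 h1 h2 h3
  have b1 := nu_le_Rig I i ti hti
  have b2 := nu_le_Rig I j tj htj
  have b3 := nu_le_Rig I l tl htl
  have hY := real_Rig (by exact_mod_cast b1) (by exact_mod_cast b2) (by exact_mod_cast b3) h1 h2 h3
  generalize nu I i ti = n1 at *
  generalize nu I j tj = n2 at *
  generalize nu I l tl = n3 at *
  have hY' : |(n3 - n2) * (i * (n1 * rho I) + cc I i) + (n1 - n3) * (j * (n2 * rho I) + cc I j) +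
      (n2 - n1) * (l * (n3 * rho I) + cc I l)| ≤ 360 * del I := by exact_mod_cast hY
  clear hY h1 h2 h3
  have hc : ∀ m : ℕ, ∃ e : ℤ, cc I m = ga I m - e * rho I ∧ (m % 2 = 0 → e = 0) := fun m => by
    unfold cc
    split_ifs with c
    · exact ⟨240, rfl, by omega⟩
    · exact ⟨0, by rw [zero_mul], fun _ => rfl⟩
  obtain ⟨e1, c1, d1⟩ := hc i
  obtain ⟨e2, c2, d2⟩ := hc j
  obtain ⟨e3, c3, d3⟩ := hc l
  have hk := kk_ge I
  have hs := scales I
  have u1 : |n3 - n2| ≤ 120 := (abs_sub _ _).trans (by omega)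
  have u2 : |n1 - n3| ≤ 120 := (abs_sub _ _).trans (by omega)
  have u3 : |n2 - n1| ≤ 120 := (abs_sub _ _).trans (by omega)
  have hB := BB_one I
  have g : ∀ (u : ℤ) (m : ℕ), m < kk I → |u| ≤ 120 → |u * ga I m| * BB I ≤ 120 * rho I :=
    fun u m hm hu => by
      rw [abs_mul, mul_assoc]
      exact mul_le_mul hu (ga_le h hm).1 (mul_nonneg (abs_nonneg _) (by omega)) (by norm_num)
  have hG' : |(n3 - n2) * ga I i + (n1 - n3) * ga I j + (n2 - n1) * ga I l| * BB I ≤
      360 * rho I := by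
    have := g _ _ hi u1
    have := g _ _ hj u2
    have := g _ _ hl u3
    have := mul_le_mul_of_nonneg_right
      (abs_add_three ((n3 - n2) * ga I i) ((n1 - n3) * ga I j) ((n2 - n1) * ga I l))
      (by omega : 0 ≤ BB I)
    rw [add_mul, add_mul] at this
    omega
  obtain ⟨hN, hsm⟩ := int_Rig (N := (n3 - n2) * (i * n1 - e1) + (n1 - n3) * (j * n2 - e2) +
      (n2 - n1) * (l * n3 - e3)) (by omega : (63 : ℤ) ≤ kk I) (BB_ge I) hs.2.2.2.2.1
    (by rw [hs.2.1]; exact hs.2.2.1) hs.2.2.2.1 hG' (by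
      rw [c1, c2, c3] at hY'
      refine le_of_eq_of_le (congrArg abs ?_) hY'
      ring)
  by_cases ij : i = j
  · refine ⟨ij, ?_⟩
    by_contra jl
    subst ij
    have := two_Rig hG h hi hl jl (u := n1 - n2) (v := n2 - n1) (by rw [abs_sub_comm]; omega)
      (by omega) (lt_of_eq_of_lt (by congr 2; ring) hsm)
    omega
  exfalso
  by_cases il : l = i
  · subst il
    have := two_Rig hG h hi hj ij (u := n3 - n1) (v := n1 - n3) (by rw [abs_sub_comm]; omega)
      (by omega) (lt_of_eq_of_lt (by congr 2; ring) hsm)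
    omega
  by_cases jl : l = j
  · subst jl
    have := two_Rig hG h hj hi il (u := n2 - n3) (v := n3 - n2) (by rw [abs_sub_comm]; omega)
      (by omega) (lt_of_eq_of_lt (by congr 2; ring) hsm)
    omega
  rcases hG I h i j l hi hj hl ij il jl _ _ _ (by omega) (by omega) (by omega) hsm with
    e | ⟨⟨o, ho, o1, o2, o3⟩, -, e⟩
  · omega
  · rw [d1 (o1.lt h ho).2.2, d2 (o2.lt h ho).2.2, d3 (o3.lt h ho).2.2] at hN
    have e4 : (n3 - n2) * (n1 - n3) * ((i : ℤ) - j) = 0 := by linear_combination hN - n3 * e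
    rcases mul_eq_zero.1 e4 with e5 | e5
    · rcases mul_eq_zero.1 e5 with e6 | e6 <;> omega
    · omega

end Pool.Agent.MP_b0ee3d_lc.H

end

section
set_option autoImplicit false

namespace Pool.Agent.MP_b0ee3d_lc.H

/-- the segment between two dots meets a side of the polygon -/
theorem hit_Lines {P q : List ℂ} (h : Sep P q) {p p' : ℂ} (hp : p ∈ P) (hp' : p' ∈ P)
    (hne : p ≠ p') : ∃ m < q.length, ∃ x ∈ openSegment ℝ p p', x ∈ link q m := by
  by_contra hc
  have hsub : segment ℝ p p' ⊆ off q := by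
    intro x hx
    rw [← insert_endpoints_openSegment] at hx
    rcases hx with rfl | rfl | hx
    · exact (h _ hp).1
    · exact (h _ hp').1
    · exact fun m hm hl => hc ⟨m, hm, x, hx, hl⟩
  exact hne ((h p hp).2 p' hp' ((convex_segment p p').isPreconnected.subset_connectedComponentIn
    (left_mem_segment ℝ p p') hsub (right_mem_segment ℝ p p'))).symm

theorem vert_Lines {S : Set ℂ} (hS : Convex ℝ S) {X y z y' : ℝ} (h1 : (⟨X, y⟩ : ℂ) ∈ S)
    (h2 : (⟨X, y'⟩ : ℂ) ∈ S) (l1 : y < z) (l2 : z < y') : (⟨X, z⟩ : ℂ) ∈ S := by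
  have d : 0 < y' - y := by linarith
  have e := hS h1 h2 (a := (y' - z) / (y' - y)) (b := (z - y) / (y' - y))
    (div_nonneg (by linarith) d.le) (div_nonneg (by linarith) d.le) (by field_simp; ring)
  convert e using 1
  refine Complex.ext ?_ ?_
  · simp only [Complex.add_re, Complex.smul_re, smul_eq_mul]; field_simp; ring
  · simp only [Complex.add_im, Complex.smul_im, smul_eq_mul]; field_simp; ring

theorem open_Lines {X c w : ℝ} (hw : 0 < w) {x : ℂ}
    (hx : x ∈ openSegment ℝ (⟨X, c + w⟩ : ℂ) ⟨X, c + -w⟩) : ∃ y, x = ⟨X, y⟩ ∧ |y - c| < w := by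
  obtain ⟨s, u, hs, hu, e, rfl⟩ := hx
  refine ⟨c + (s - u) * w, Complex.ext ?_ ?_, ?_⟩
  · simp only [Complex.add_re, Complex.smul_re, smul_eq_mul]
    rw [← add_mul, e, one_mul]
  · simp only [Complex.add_im, Complex.smul_im, smul_eq_mul]
    linear_combination c * e
  · rw [abs_lt]; constructor <;> nlinarith

/-- slope of a side -/
noncomputable def slp_Lines (q : List ℂ) (m : ℕ) : ℝ :=
  ((vtx q (m + 1)).im - (vtx q m).im) / ((vtx q (m + 1)).re - (vtx q m).re)

/-- intercept of a side -/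
noncomputable def icp_Lines (q : List ℂ) (m : ℕ) : ℝ := (vtx q m).im - slp_Lines q m * (vtx q m).re

theorem line_Lines {q : List ℂ} {m : ℕ} {x x' : ℂ} (hx : x ∈ link q m) (hx' : x' ∈ link q m)
    (hne : x.re ≠ x'.re) : ∀ z ∈ link q m, z.im = slp_Lines q m * z.re + icp_Lines q m := by
  unfold icp_Lines slp_Lines link at *
  generalize vtx q m = u at *
  generalize vtx q (m + 1) = v at *
  have d : v.re - u.re ≠ 0 := by
    intro d
    obtain ⟨s, r, -, -, e, rfl⟩ := hx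
    obtain ⟨s', r', -, -, e', rfl⟩ := hx'
    apply hne
    simp only [Complex.add_re, Complex.smul_re, smul_eq_mul]
    linear_combination (r - r') * d + u.re * e - u.re * e'
  rintro z ⟨s, r, -, -, e, rfl⟩
  obtain rfl : s = 1 - r := by linarith
  simp only [Complex.add_re, Complex.smul_re, Complex.add_im, Complex.smul_im, smul_eq_mul]
  field_simp
  ring

/-- the counting step -/
theorem count_Lines {k n : ℕ} (hn : n ≤ k) (φ : ℕ × ℕ → ℕ)
    (h1 : ∀ x ∈ Finset.range k ×ˢ Finset.range 3, φ x < n)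
    (h2 : ∀ x ∈ Finset.range k ×ˢ Finset.range 3, ∀ y ∈ Finset.range k ×ˢ Finset.range 3,
      ∀ z ∈ Finset.range k ×ˢ Finset.range 3, x ≠ y → x ≠ z → y ≠ z → φ x = φ y → φ x = φ z →
        x.1 = y.1) :
    ∀ m < n, ∃ i < k, ∀ x ∈ Finset.range k ×ˢ Finset.range 3, (φ x = m ↔ x.1 = i) := by
  have c3 : ∀ i : ℕ, (({i} : Finset ℕ) ×ˢ Finset.range 3).card = 3 := fun i => by simp
  have key : ∀ m, 2 < ((Finset.range k ×ˢ Finset.range 3).filter fun x => φ x = m).card →
      ∃ i < k, ((Finset.range k ×ˢ Finset.range 3).filter fun x => φ x = m) =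
        {i} ×ˢ Finset.range 3 := by
    intro m hm
    obtain ⟨a, ha, b, hb, c, hc, ab, ac, bc⟩ := Finset.two_lt_card.1 hm
    rw [Finset.mem_filter] at ha hb hc
    refine ⟨a.1, Finset.mem_range.1 (Finset.mem_product.1 ha.1).1,
      Finset.eq_of_subset_of_card_le (fun w hw => ?_) (by rw [c3]; exact hm)⟩
    rw [Finset.mem_filter] at hw
    refine Finset.mem_product.2 ⟨Finset.mem_singleton.2 ?_, (Finset.mem_product.1 hw.1).2⟩
    by_cases e1 : a = w
    · rw [e1]
    by_cases e2 : w = b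
    · rw [e2]
      exact (h2 a ha.1 b hb.1 c hc.1 ab ac bc (ha.2.trans hb.2.symm) (ha.2.trans hc.2.symm)).symm
    · exact (h2 a ha.1 w hw.1 b hb.1 e1 ab e2 (ha.2.trans hw.2.symm) (ha.2.trans hb.2.symm)).symm
  have le3 : ∀ m, ((Finset.range k ×ˢ Finset.range 3).filter fun x => φ x = m).card ≤ 3 := by
    intro m
    by_contra hc
    obtain ⟨i, -, e⟩ := key m (by omega)
    rw [e, c3] at hc
    exact hc le_rfl
  have hs : (Finset.range k ×ˢ Finset.range 3).card = ∑ m ∈ Finset.range n,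
      ((Finset.range k ×ˢ Finset.range 3).filter fun x => φ x = m).card :=
    Finset.card_eq_sum_card_fiberwise fun x hx => Finset.mem_coe.2 (Finset.mem_range.2 (h1 x hx))
  intro m hm
  have h3 : 2 < ((Finset.range k ×ˢ Finset.range 3).filter fun x => φ x = m).card := by
    by_contra hc
    have lt := Finset.sum_lt_sum (s := Finset.range n) (g := fun _ => 3) (fun j _ => le3 j)
      ⟨m, Finset.mem_range.2 hm, by omega⟩
    rw [← hs, Finset.card_product, Finset.card_range, Finset.card_range, Finset.sum_const,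
      Finset.card_range, smul_eq_mul] at lt
    omega
  obtain ⟨i, hi, e⟩ := key m h3
  refine ⟨i, hi, fun x hx => ⟨fun hφ => ?_, fun hφ => ?_⟩⟩
  · have : x ∈ ({i} : Finset ℕ) ×ˢ Finset.range 3 := e ▸ Finset.mem_filter.2 ⟨hx, hφ⟩
    exact Finset.mem_singleton.1 (Finset.mem_product.1 this).1
  · have : x ∈ ({i} : Finset ℕ) ×ˢ Finset.range 3 :=
      Finset.mem_product.2 ⟨Finset.mem_singleton.2 hφ, (Finset.mem_product.1 hx).2⟩
    rw [← e] at this
    exact (Finset.mem_filter.1 this).2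

theorem up_Lines (I : In) (i t : ℕ) : tz (gap I i t true) =
    ⟨nu I i t * rho I, i * (nu I i t * rho I) + cc I i + wd I i⟩ := by
  simp only [tz, gap, cond_true]; push_cast; rfl

theorem down_Lines (I : In) (i t : ℕ) : tz (gap I i t false) =
    ⟨nu I i t * rho I, i * (nu I i t * rho I) + cc I i + -wd I i⟩ := by
  simp only [tz, gap, cond_false]; push_cast; rfl

theorem nu_inj_Lines (I : In) (i : ℕ) {t t' : ℕ} (ht : t < 3) (ht' : t' < 3)
    (h : nu I i t = nu I i t') : t = t' := by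
  have s : sg I i ≠ 0 := by unfold sg; split_ifs <;> omega
  have e : nv i t = nv i t' := mul_left_cancel₀ s h
  unfold nv at e
  split_ifs at e <;> interval_cases t <;> interval_cases t' <;> first | rfl | simp at e

theorem sLines (hA : SGapA) (hR : SRig) : SLines := by
  intro I hI P q hP hS hq
  have wp : ∀ i, (0 : ℝ) < wd I i ∧ (wd I i : ℝ) ≤ del I := fun i =>
    ⟨by exact_mod_cast (wd_pos I i).1, by exact_mod_cast (wd_pos I i).2⟩
  have rp : (0 : ℝ) < rho I := by exact_mod_cast (scales I).2.2.2.2.2.2.2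
  have r3 : 3 * (del I : ℝ) ≤ rr I := by
    have a1 := scales I
    have a2 := BB_ge' I
    have a3 := kk_ge I
    have a4 : 3 * del I ≤ rr I := by
      rw [← a1.2.1, mul_comm]
      exact mul_le_mul_of_nonneg_left (by omega) a1.2.2.2.2.1.le
    exact_mod_cast a4
  have ex : ∀ x : ℕ × ℕ, ∃ m : ℕ, ∃ y : ℝ, x ∈ Finset.range (kk I) ×ˢ Finset.range 3 →
      m < q.length ∧ (⟨nu I x.1 x.2 * rho I, y⟩ : ℂ) ∈ link q m ∧
        |y - (x.1 * (nu I x.1 x.2 * rho I) + cc I x.1)| < wd I x.1 := by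
    rintro ⟨i, t⟩
    by_cases hx : (i, t) ∈ Finset.range (kk I) ×ˢ Finset.range 3
    · obtain ⟨hi, ht⟩ : i < kk I ∧ t < 3 := by simpa using hx
      obtain ⟨m, hm, z, hz, hl⟩ := hit_Lines hS (hP i t true hi ht) (hP i t false hi ht) (by
        rw [up_Lines, down_Lines]
        intro e
        have e2 := congrArg Complex.im e
        have := (wp i).1
        dsimp only at e2
        linarith)
      rw [up_Lines, down_Lines] at hz
      obtain ⟨y, rfl, hy⟩ := open_Lines (wp i).1 hz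
      exact ⟨m, y, fun _ => ⟨hm, hl, hy⟩⟩
    · exact ⟨0, 0, fun h => absurd h hx⟩
  choose φ y hφ using ex
  have inj : ∀ x ∈ Finset.range (kk I) ×ˢ Finset.range 3,
      ∀ x' ∈ Finset.range (kk I) ×ˢ Finset.range 3, x ≠ x' → φ x = φ x' →
        nu I x.1 x.2 ≠ nu I x'.1 x'.2 := by
    rintro ⟨i, t⟩ hx ⟨i', t'⟩ hx' hne e en
    obtain ⟨m1, l1, b1⟩ := hφ _ hx
    obtain ⟨-, l2, b2⟩ := hφ _ hx'
    obtain ⟨hi, ht⟩ : i < kk I ∧ t < 3 := by simpa using hx
    obtain ⟨hi', ht'⟩ : i' < kk I ∧ t' < 3 := by simpa using hx'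
    dsimp only at en l1 l2 b1 b2
    by_cases ei : i' = i
    · subst ei
      exact hne (by rw [nu_inj_Lines I _ ht ht' en])
    have g := ((hA I hI i t true hi ht).2.2 i' hi' ei).1
    rw [up_Lines] at g
    simp only [f0, fv, a0, b0] at g
    rw [← e, ← en] at l2
    rw [← en] at b2
    have o1 := (hS _ (hP i t true hi ht)).1 _ m1
    have o2 := (hS _ (hP i t false hi ht)).1 _ m1
    rw [up_Lines] at o1
    rw [down_Lines] at o2
    rw [abs_lt] at b1 b2
    have w1 := wp i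
    have w2 := wp i'
    rcases le_abs.1 g with g | g
    · exact o2 (vert_Lines (convex_segment _ _) l2 l1 (by linarith) (by linarith))
    · exact o1 (vert_Lines (convex_segment _ _) l1 l2 (by linarith) (by linarith))
  have lin : ∀ x ∈ Finset.range (kk I) ×ˢ Finset.range 3,
      ∀ x' ∈ Finset.range (kk I) ×ˢ Finset.range 3, x ≠ x' → φ x = φ x' →
        ∀ z ∈ link q (φ x), z.im = slp_Lines q (φ x) * z.re + icp_Lines q (φ x) := by
    intro x hx x' hx' hne e
    refine line_Lines (hφ x hx).2.1 (e ▸ (hφ x' hx').2.1) fun er => inj x hx x' hx' hne e ?_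
    exact_mod_cast mul_right_cancel₀ rp.ne' er
  have cnt := count_Lines hq φ (fun x hx => (hφ x hx).1) (by
    intro x hx x' hx' z hz n1 n2 n3 e1 e2
    have L := lin x hx x' hx' n1 e1
    have y1 := L _ (hφ x hx).2.1
    have y2 := L _ (e1 ▸ (hφ x' hx').2.1)
    have y3 := L _ (e2 ▸ (hφ z hz).2.1)
    dsimp only at y1 y2 y3
    have p1 := Finset.mem_product.1 hx
    have p2 := Finset.mem_product.1 hx'
    have p3 := Finset.mem_product.1 hz
    rw [Finset.mem_range, Finset.mem_range] at p1 p2 p3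
    exact (hR I hI x.1 x'.1 z.1 x.2 x'.2 z.2 (slp_Lines q (φ x)) (icp_Lines q (φ x)) p1.1 p2.1 p3.1
      p1.2 p2.2 p3.2 (inj x hx x' hx' n1 e1) (inj x hx z hz n2 e2)
      (inj x' hx' z hz n3 (e1.symm.trans e2)) (y1 ▸ (hφ x hx).2.2.trans_le (wp _).2)
      (y2 ▸ (hφ x' hx').2.2.trans_le (wp _).2) (y3 ▸ (hφ z hz).2.2.trans_le (wp _).2)).1)
  have mem : ∀ i t, i < kk I → t < 3 → (i, t) ∈ Finset.range (kk I) ×ˢ Finset.range 3 :=
    fun i t hi ht => Finset.mem_product.2 ⟨Finset.mem_range.2 hi, Finset.mem_range.2 ht⟩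
  have same : ∀ i t, i < kk I → t < 3 → φ (i, 0) = φ (i, t) := by
    intro i t hi ht
    obtain ⟨j, -, hj⟩ := cnt _ (hφ _ (mem i 0 hi (by omega))).1
    exact ((hj _ (mem i t hi ht)).2 ((hj _ (mem i 0 hi (by omega))).1 rfl)).symm
  have lin0 : ∀ i < kk I, ∀ z ∈ link q (φ (i, 0)),
      z.im = slp_Lines q (φ (i, 0)) * z.re + icp_Lines q (φ (i, 0)) := fun i hi =>
    lin _ (mem i 0 hi (by omega)) _ (mem i 1 hi (by omega)) (by simp) (same i 1 hi (by omega))
  refine ⟨fun i => slp_Lines q (φ (i, 0)), fun i => icp_Lines q (φ (i, 0)), fun i t hi ht => ?_,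
    fun p hp p' hp' hne => ?_⟩
  · have y1 := lin0 i hi _ (same i t hi ht ▸ (hφ _ (mem i t hi ht)).2.1)
    dsimp only at y1 ⊢
    rw [← y1]
    exact (hφ _ (mem i t hi ht)).2.2
  · obtain ⟨m, hm, x, hx, hl⟩ := hit_Lines hS hp hp' hne
    obtain ⟨i, hi, hj⟩ := cnt m hm
    obtain rfl : φ (i, 0) = m := (hj _ (mem i 0 hi (by omega))).2 rfl
    exact ⟨i, hi, x, hx, sub_eq_zero.2 (lin0 i hi x hl)⟩

end Pool.Agent.MP_b0ee3d_lc.H

end

section
set_option autoImplicit false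

namespace Pool.Agent.MP_b0ee3d_lc.H

theorem sgn_Keep {f d : ℝ} (h : |d| < |f|) : 0 < (f - d) * f := by
  have h1 : d * f ≤ |d| * |f| := by rw [← abs_mul]; exact le_abs_self _
  have h2 : |f| * |f| = f * f := abs_mul_abs_self f
  have h3 : |d| * |f| < |f| * |f| := mul_lt_mul_of_pos_right h ((abs_nonneg d).trans_lt h)
  linarith

theorem tr_Keep {x y z : ℝ} (h1 : 0 < x * y) (h2 : 0 < y * z) : 0 < x * z := by
  have h := mul_pos h1 h2
  rw [show x * y * (y * z) = x * z * y ^ 2 by ring] at h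
  exact lt_of_not_ge fun hn => absurd h (not_lt.2 (mul_nonpos_of_nonpos_of_nonneg hn (sq_nonneg y)))

theorem fv_Keep (I : In) (a b : ℕ → ℝ) (l : ℕ) (p : ℂ) :
    fv a b l p = f0 I l p - (a l * p.re + b l - (l * p.re + cc I l)) := by
  simp only [fv, f0, a0, b0]
  ring

theorem sc_Keep (I : In) : 2200 * (del I : ℝ) ≤ rr I ∧ (fac I : ℝ) < rr I ∧ (0 : ℝ) < del I ∧
    (0 : ℝ) < rho I ∧ (0 : ℝ) < fac I := by
  obtain ⟨h1, h2, -, -, h3, -, -, h4⟩ := scales I
  have h5 := BB_ge' I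
  have h6 := kk_ge I
  have h7 := fac_pos I
  have h8 : 2200 ≤ BB I := by omega
  have h9 : 2200 * del I ≤ rr I := by
    rw [← h2, mul_comm]
    exact mul_le_mul_of_nonneg_left h8 h3.le
  have h10 : fac I * 1 ≤ fac I * BB I := mul_le_mul_of_nonneg_left (by omega) (by omega)
  have h11 : fac I < rr I := by omega
  have h12 : 0 < fac I := by omega
  exact ⟨by exact_mod_cast h9, by exact_mod_cast h11, by exact_mod_cast h3, by exact_mod_cast h4,
    by exact_mod_cast h12⟩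

theorem sKeep (hC : SCand) (hA : SGapA) (hZ : SZ) (hK : SKept) : SKeep := by
  intro I hI a b hcl hg
  obtain ⟨s1, s2, s3, s4, s5⟩ := sc_Keep I
  have far : ∀ (p : ℂ) (l : ℕ), l < kk I → |p.re| ≤ 1000 * rho I → (rr I : ℝ) ≤ |f0 I l p| →
      (rr I : ℝ) / 2 ≤ |fv a b l p| ∧ 0 < fv a b l p * f0 I l p := by
    intro p l hl hp hf
    have h1 : |a l * p.re + b l - (l * p.re + cc I l)| < 1100 * del I := hcl l hl p.re hp
    rw [fv_Keep I]
    have h2 := abs_sub_abs_le_abs_sub (f0 I l p) (a l * p.re + b l - (l * p.re + cc I l))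
    exact ⟨by linarith, sgn_Keep (by linarith)⟩
  refine ⟨fun p hp l hl => ?_, fun o ho l hl hn => ?_, fun o ho hm => ?_⟩
  · rcases ((hK I hI).1 p hp).2 with ⟨i, t, up, hi, ht, rfl⟩ | ⟨i, j, m, s, hij, hj, hm, rfl⟩
    · obtain ⟨g1, g2, g3⟩ := hA I hI i t up hi ht
      by_cases e : l = i
      · subst e
        have e1 : (tz (gap I l t up)).re = nu I l t * rho I := by
          simp only [tz, gap, Int.cast_mul]
        have e2 : |f0 I l (tz (gap I l t up))| = wd I l := by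
          have : (0 : ℝ) < wd I l := by exact_mod_cast (wd_pos I l).1
          rw [g2]
          cases up
          · simp only [cond_false, Int.cast_neg, abs_neg, abs_of_pos this]
          · simp only [cond_true, abs_of_pos this]
        rw [fv_Keep I]
        refine sgn_Keep ?_
        rw [e2, e1]
        exact hg l t hl ht
      · exact (far _ l hl g1 (g3 l hl e).1).2
    · obtain ⟨c1, c2⟩ := hC I hI i j m s hij hj hm
      exact (far _ l hl c1 (c2 l hl).1).2
  · obtain ⟨z1, -, -, -, z2, -⟩ := hZ I hI o ho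
    obtain ⟨z3, z4⟩ := z2 l hl hn
    obtain ⟨f1, f2⟩ := far (tz (zz I o)) l hl (by linarith) z3
    exact ⟨f1, tr_Keep f2 z4⟩
  · obtain ⟨-, z1, z2, -⟩ := hZ I hI o ho
    have x1 : |f0 I (xI I o) (tz (zz I o))| < rr I := by
      rw [z1, al]
      cases (lit I o).2
      · simp only [cond_false, abs_of_pos s5, s2]
      · simp only [cond_true, Int.cast_neg, abs_neg, abs_of_pos s5, s2]
    have x2 : |f0 I (cI I o) (tz (zz I o))| < rr I := by
      rw [z2, be]
      split_ifs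
      · rw [abs_of_pos s5]
        exact s2
      · rw [Int.cast_zero, abs_zero]
        linarith
    have l1 : xI I o < kk I := by
      have := On.lt hI ho (Or.inl rfl)
      omega
    have l2 : cI I o < kk I := by
      have := On.lt hI ho (Or.inr (Or.inl rfl))
      omega
    rcases ((hK I hI).1 _ hm).2 with ⟨i, t, up, hi, ht, e⟩ | ⟨i, j, m, s, hij, hj, hm', e⟩
    · obtain ⟨-, -, g3⟩ := hA I hI i t up hi ht
      rw [← e] at g3
      by_cases e1 : xI I o = i
      · exact absurd (g3 _ l2 fun e2 => (kinds hI ho ho).1 (e1.trans e2.symm)).1 (not_le.2 x2)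
      · exact absurd (g3 _ l1 e1).1 (not_le.2 x1)
    · obtain ⟨-, c2⟩ := hC I hI i j m s hij hj hm'
      rw [← e] at c2
      exact absurd (c2 _ l1).1 (not_le.2 x1)

end Pool.Agent.MP_b0ee3d_lc.H

end

section
set_option autoImplicit false

namespace Pool.Agent.MP_b0ee3d_lc.H

theorem aff_SoundA {A B ρ δ x n0 n1 : ℝ} (hρ : 0 < ρ) (h0 : |A * (n0 * ρ) + B| < δ)
    (h1 : |A * (n1 * ρ) + B| < δ) (h2 : 3 ≤ |n0 - n1|) (h3 : |n0| ≤ 60) (hx : |x| ≤ 1000 * ρ) :
    |A * x + B| < 1100 * δ := by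
  have a1 : |A| * ρ * |n0 - n1| < 2 * δ := by
    have e : A * ρ * (n0 - n1) = (A * (n0 * ρ) + B) - (A * (n1 * ρ) + B) := by ring
    have := abs_sub (A * (n0 * ρ) + B) (A * (n1 * ρ) + B)
    rw [← e, abs_mul, abs_mul, abs_of_pos hρ] at this
    linarith
  have a0 : 0 ≤ |A| * ρ := by positivity
  have a2 : |A| * ρ * 3 ≤ |A| * ρ * |n0 - n1| := mul_le_mul_of_nonneg_left h2 a0
  have a3 : |x - n0 * ρ| ≤ 1060 * ρ := by
    have := abs_sub x (n0 * ρ)
    rw [abs_mul, abs_of_pos hρ] at this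
    nlinarith
  have a4 : |A * x + B| ≤ |A * (n0 * ρ) + B| + |A| * |x - n0 * ρ| := by
    rw [← abs_mul, show A * x + B = (A * (n0 * ρ) + B) + A * (x - n0 * ρ) by ring]
    exact abs_add_le _ _
  have a5 := mul_le_mul_of_nonneg_left a3 (abs_nonneg A)
  have a6 := abs_nonneg (A * (n0 * ρ) + B)
  linarith

theorem nu_SoundA (I : In) (i : ℕ) : (nu I i 0 = 60 ∧ nu I i 1 = 30) ∨
    (nu I i 0 = -60 ∧ nu I i 1 = -30) ∨ (nu I i 0 = 15 ∧ nu I i 1 = 12) ∨
    (nu I i 0 = -15 ∧ nu I i 1 = -12) := by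
  unfold nu sg nv
  split_ifs <;> simp

theorem close_SoundA {I : In} {a b : ℕ → ℝ} (h : ∀ i t, i < kk I → t < 3 →
    |a i * (nu I i t * rho I) + b i - (i * (nu I i t * rho I) + cc I i)| < wd I i) :
    Close I a b (fun _ => 1100 * del I) := by
  intro i hi x hx
  have hρ : (0 : ℝ) < rho I := by exact_mod_cast (scales I).2.2.2.2.2.2.2
  have hw : (wd I i : ℝ) ≤ del I := by exact_mod_cast (wd_pos I i).2
  have h0 := (h i 0 hi (by norm_num)).trans_le hw
  have h1 := (h i 1 hi (by norm_num)).trans_le hw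
  have e : ∀ y : ℝ, a i * y + b i - (i * y + cc I i) = (a i - i) * y + (b i - cc I i) :=
    fun y => by ring
  rw [e] at h0 h1 ⊢
  refine aff_SoundA hρ h0 h1 ?_ ?_ hx
  · rcases nu_SoundA I i with ⟨p, q⟩ | ⟨p, q⟩ | ⟨p, q⟩ | ⟨p, q⟩ <;> rw [p, q] <;> norm_num
  · rcases nu_SoundA I i with ⟨p, -⟩ | ⟨p, -⟩ | ⟨p, -⟩ | ⟨p, -⟩ <;> rw [p] <;> norm_num

theorem pick_SoundA {k x c f : ℕ} (A : ℕ → Prop) (hc : c < k) (hxc : x < c)
    (h : (x < f ∧ f < c ∧ ¬ (A x ↔ A c)) ∨ (f < x ∧ (A x ↔ A c))) :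
    ∃ (s : Bool) (m : ℕ), m ≤ k ∧ ∀ l, (l = x ∨ l = c ∨ l = f) → (A l ↔ (s = true ↔ l < m)) := by
  rcases h with ⟨h1, h2, h3⟩ | ⟨h1, h3⟩ <;> by_cases hx : A x <;> by_cases hf : A f
  · have hc' : ¬ A c := by tauto
    exact ⟨true, f + 1, by omega, by rintro l (rfl | rfl | rfl) <;> simp [*] <;> omega⟩
  · have hc' : ¬ A c := by tauto
    exact ⟨true, x + 1, by omega, by rintro l (rfl | rfl | rfl) <;> simp [*] <;> omega⟩
  · have hc' : A c := by tauto
    exact ⟨false, x + 1, by omega, by rintro l (rfl | rfl | rfl) <;> simp [*] <;> omega⟩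
  · have hc' : A c := by tauto
    exact ⟨false, f + 1, by omega, by rintro l (rfl | rfl | rfl) <;> simp [*] <;> omega⟩
  · have hc' : A c := by tauto
    exact ⟨true, k, by omega, by rintro l (rfl | rfl | rfl) <;> simp [*] <;> omega⟩
  · have hc' : A c := by tauto
    exact ⟨false, f + 1, by omega, by rintro l (rfl | rfl | rfl) <;> simp [*] <;> omega⟩
  · have hc' : ¬ A c := by tauto
    exact ⟨true, f + 1, by omega, by rintro l (rfl | rfl | rfl) <;> simp [*] <;> omega⟩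
  · have hc' : ¬ A c := by tauto
    exact ⟨true, 0, by omega, by rintro l (rfl | rfl | rfl) <;> simp [*]⟩

theorem sign_SoundA {u v : ℝ} (h : 0 < u * v) : 0 < u ↔ 0 < v :=
  ⟨fun q => (pos_iff_pos_of_mul_pos h).1 q, fun q => (pos_iff_pos_of_mul_pos h).2 q⟩

theorem seg_SoundA {a b : ℕ → ℝ} {l : ℕ} {p q x : ℂ} (hx : x ∈ openSegment ℝ p q)
    (h0 : fv a b l x = 0) (h1 : fv a b l p ≠ 0) (h2 : 0 < fv a b l p ↔ 0 < fv a b l q) : False := by
  obtain ⟨s, t, hs, ht, hst, rfl⟩ := hx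
  have e : fv a b l (s • p + t • q) = s * fv a b l p + t * fv a b l q := by
    simp only [fv, Complex.add_im, Complex.add_re, Complex.smul_im, Complex.smul_re, smul_eq_mul]
    linear_combination (b l) * hst
  rw [e] at h0
  rcases lt_or_gt_of_ne h1 with h | h
  · have := mul_nonneg ht.le (neg_nonneg.2 (not_lt.1 fun q => absurd (h2.2 q) h.not_gt))
    have := mul_pos hs (neg_pos.2 h)
    linarith
  · have := mul_pos ht (h2.1 h)
    have := mul_pos hs h
    linarith

theorem sSoundA (hB : SBase) (hR : SCorn) (hC : SCand) (hK : SKept) (hE : SKeep) : SSoundA := by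
  intro I wf a b hcut o ho
  obtain ⟨e1, e2, e3⟩ := hE I wf a b (close_SoundA hcut.1) hcut.1
  obtain ⟨i1, i2, -, i3, i4, -, -, i5⟩ := idx wf ho
  have hk := kk_ge I
  have hxc : xI I o < cI I o := by omega
  have hck : cI I o < kk I := by omega
  by_contra hP
  obtain ⟨s, m, hm, hA⟩ := pick_SoundA (f := fI I o) (fun l => 0 < fv a b l (tz (zz I o))) hck hxc (by
    unfold Pat at hP
    rcases i5 with ⟨q1, q2, q3⟩ | ⟨q1, -, q3⟩
    · exact Or.inl ⟨q2, q3, fun q => hP ⟨fun _ => q1, fun _ => q⟩⟩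
    · refine Or.inr ⟨q3, ?_⟩
      by_contra q
      exact hP ⟨fun r => absurd r q, fun r => by rw [q1] at r; exact absurd r (by simp)⟩)
  obtain ⟨-, c1⟩ := hC I wf _ _ m s hxc hck hm
  obtain ⟨r0, r1, r2⟩ := (hR I wf).2.2 o ho
  have s0 := sign_SoundA ((c1 0 (by omega)).2.2 r0.ne)
  have s1 := sign_SoundA ((c1 1 (by omega)).2.2 r1.ne')
  have s2 := sign_SoundA ((c1 (kk I - 1) (by omega)).2.2 r2.ne)
  have hb : bnd I (cand I (xI I o) (cI I o) m s) = true := by
    rw [bnd_iff]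
    exact ⟨⟨0, 1, by omega, by omega, fun q => r0.not_gt (s0.1 ((ab_iff I _ _).1 q)),
      (ab_iff I _ _).2 (s1.2 r1)⟩, ⟨1, kk I - 1, by omega, by omega, (ab_iff I _ _).2 (s1.2 r1),
      fun q => r2.not_gt (s2.1 ((ab_iff I _ _).1 q))⟩⟩
  obtain ⟨-, -, k3, -, k5, -⟩ := hK I wf
  obtain ⟨q, hq, hsv⟩ := k3 _ _ m s hxc hck hm hb
  obtain ⟨l, hl, x, hx, h0⟩ := hcut.2 (tz q) (List.mem_map_of_mem ((k5 q).2 (Or.inr hq)))
    (tz (zz I o)) (List.mem_map_of_mem ((k5 _).2 (Or.inl ⟨o, ho, rfl⟩)))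
    (fun e => e3 o ho (tz_inj e ▸ hq))
  have t1 := e1 q hq l hl
  have t2 : 0 < f0 I l (tz q) ↔ 0 < f0 I l (tz (cand I (xI I o) (cI I o) m s)) := by
    rw [← ab_iff, ← ab_iff, (sv_eq_iff I _ _).1 hsv l hl]
  refine seg_SoundA hx h0 (left_ne_zero_of_mul t1.ne') (((sign_SoundA t1).trans t2).trans ?_)
  by_cases hon : On I o l
  · exact ((c1 l hl).2.1 (((hB I wf).2.2 o ho).2.1 l hon)).trans (hA l hon).symm
  · have t3 := (e2 o ho l hl hon).2
    exact (sign_SoundA ((c1 l hl).2.2 (right_ne_zero_of_mul t3.ne'))).trans (sign_SoundA t3).symm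

end Pool.Agent.MP_b0ee3d_lc.H

end

section
set_option autoImplicit false

namespace Pool.Agent.MP_b0ee3d_lc.H

theorem slope_SoundB {F r m c x s : ℝ} (hs : s = 1 ∨ s = -1) (h1 : |m * (s * 60 * r) + c| < 3 * F)
    (h2 : |m * (s * 30 * r) + c| < 3 * F) (hx : |x| ≤ r) : |m * x| ≤ F / 5 := by
  have h0 : 0 ≤ r := (abs_nonneg x).trans hx
  have h3 : |m * r| ≤ F / 5 := by
    rw [abs_lt] at h1 h2
    rcases hs with rfl | rfl <;>
      exact abs_le.2 ⟨by linarith [h1.1, h1.2, h2.1, h2.2], by linarith [h1.1, h1.2, h2.1, h2.2]⟩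
  rw [abs_mul, abs_of_nonneg h0] at h3
  rw [abs_mul]
  exact (mul_le_mul_of_nonneg_left hx (abs_nonneg m)).trans h3

theorem fv_SoundB (I : In) (a b : ℕ → ℝ) (l : ℕ) (p : ℂ) :
    fv a b l p = f0 I l p - ((a l - l) * p.re + (b l - cc I l)) := by
  simp only [f0, fv, a0, b0]
  ring

theorem var_SoundB (hZ : SZ) {I : In} (h : WF I) {P : List ℂ} {a b : ℕ → ℝ} (hc : Cut I P a b)
    {o : ℕ} (ho : o < MM I) (hp : 0 < fv a b (xI I o) (tz (zz I o)) ↔ (lit I o).2 = true) :
    decide (b (xI I o) - cc I (xI I o) < 0) = (lit I o).2 := by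
  obtain ⟨z1, z2, -⟩ := hZ I h o ho
  have a1 := idx h ho
  have hX : xI I o < kk I := by omega
  have hw : wd I (xI I o) = 3 * fac I := by rw [wd, isX_xI h ho, cond_true]
  have hs : (sg I (xI I o) : ℝ) = 1 ∨ (sg I (xI I o) : ℝ) = -1 := by
    unfold sg
    split_ifs <;> simp
  have n0 : nu I (xI I o) 0 = sg I (xI I o) * 60 := by simp [nu, nv, a1.2.2.1]
  have n1 : nu I (xI I o) 1 = sg I (xI I o) * 30 := by simp [nu, nv, a1.2.2.1]
  have c0 := hc.1 _ 0 hX (by norm_num)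
  have c1 := hc.1 _ 1 hX (by norm_num)
  rw [hw, n0] at c0
  rw [hw, n1] at c1
  push_cast at c0 c1
  have hF : (1 : ℝ) ≤ fac I := by exact_mod_cast fac_pos I
  have k := abs_le.1 (slope_SoundB (m := a (xI I o) - xI I o) (c := b (xI I o) - cc I (xI I o)) hs
    (by convert c0 using 2; ring) (by convert c1 using 2; ring) z1)
  rw [fv_SoundB I, z2, al] at hp
  cases e : (lit I o).2
  · rw [e, cond_false] at hp
    have h1 := fun h => Bool.false_ne_true (hp.1 h)
    rw [decide_eq_false_iff_not]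
    exact fun h2 => h1 (by linarith [k.2])
  · rw [e, cond_true] at hp
    have h1 := hp.2 rfl
    push_cast at h1
    rw [decide_eq_true_eq]
    linarith [k.1]

theorem sSoundB (hZ : SZ) : SSoundB := by
  intro I h P a b hc hP
  refine ⟨fun v => decide (b (2 * (MM I + 1 + v)) - cc I (2 * (MM I + 1 + v)) < 0), fun j hj => ?_⟩
  have hd := h.dvd
  have h0 : 3 * j + 0 < MM I := hj
  have h1 : 3 * j + 1 < MM I := by omega
  have h2 : 3 * j + 2 < MM I := by omega
  have side : ∀ p, 3 * j + p < MM I →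
      (0 < fv a b (cI I (3 * j + p)) (tz (zz I (3 * j + p))) ↔ (3 * j + p) % 3 = 1) →
      decide (b (xI I (3 * j + p)) - cc I (xI I (3 * j + p)) < 0) = (lit I (3 * j + p)).2 := by
    intro p hp e
    refine var_SoundB hZ h hc hp ?_
    have k := hP _ hp
    rw [Pat, e, mid, decide_eq_true_eq] at k
    generalize (3 * j + p) % 3 = r at k
    by_cases e1 : r = 1 <;> cases e2 : (lit I (3 * j + p)).2 <;> simpa [e1, e2] using k
  by_contra hn
  have k0 : 0 < fv a b (cI I (3 * j + 0)) (tz (zz I (3 * j + 0))) := by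
    by_contra e
    exact hn ⟨0, by norm_num, side 0 h0 (iff_of_false e (by omega))⟩
  have k1 : ¬ 0 < fv a b (cI I (3 * j + 1)) (tz (zz I (3 * j + 1))) := fun e =>
    hn ⟨1, by norm_num, side 1 h1 (iff_of_true e (by omega))⟩
  have k2 : 0 < fv a b (cI I (3 * j + 2)) (tz (zz I (3 * j + 2))) := by
    by_contra e
    exact hn ⟨2, by norm_num, side 2 h2 (iff_of_false e (by omega))⟩
  obtain ⟨-, -, y0, -, -, w0⟩ := hZ I h _ h0
  obtain ⟨-, -, y1, -, -, w1⟩ := hZ I h _ h1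
  obtain ⟨-, -, y2, -, -, -⟩ := hZ I h _ h2
  have v0 := w0 _ h1 (by omega) (by omega)
  have v1 := w1 _ h2 (by omega) (by omega)
  rw [fv_SoundB I, y0, be, if_neg (by omega)] at k0
  rw [fv_SoundB I, y1, be, if_pos (by omega)] at k1
  rw [fv_SoundB I, y2, be, if_neg (by omega)] at k2
  have e1 : cI I (3 * j + 1) = cI I (3 * j + 0) := by unfold cI; omega
  have e2 : cI I (3 * j + 2) = cI I (3 * j + 0) := by unfold cI; omega
  rw [e1] at k1
  rw [e2] at k2
  have hF : (1 : ℝ) ≤ fac I := by exact_mod_cast fac_pos I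
  have hS : (0 : ℝ) < SS I := by exact_mod_cast (scales I).2.2.2.2.2.2.1
  push_cast at k0 k2
  generalize a (cI I (3 * j + 0)) - (cI I (3 * j + 0) : ℝ) = m at k0 k1 k2
  rcases le_total 0 m with hm | hm
  · have := mul_le_mul_of_nonneg_left
      (show (tz (zz I (3 * j + 1))).re ≤ (tz (zz I (3 * j + 0))).re by linarith) hm
    exact k1 (by linarith)
  · have := mul_le_mul_of_nonpos_left
      (show (tz (zz I (3 * j + 2))).re ≤ (tz (zz I (3 * j + 1))).re by linarith) hm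
    exact k1 (by linarith)

end Pool.Agent.MP_b0ee3d_lc.H

end

section
set_option autoImplicit false

namespace Pool.Agent.MP_b0ee3d_lc.H

/-- the sign of `y` is given by `w` -/
def Sg_Pert (w : Bool) (y : ℝ) : Prop := (w = true ∧ 0 < y) ∨ (w = false ∧ y < 0)

theorem bound_Pert {r h t σ y v : ℝ} (hσ : |σ| ≤ t) (hy : |y| ≤ r) (hv : |v| ≤ 2 * h) (x : ℝ)
    (hx : |x| ≤ 1000 * r) : |σ * x + (v - σ * y)| ≤ 2 * h + 1001 * (t * r) := by
  have h1 : |x - y| ≤ 1001 * r := (abs_sub _ _).trans (by linarith)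
  have h2 : |σ * (x - y)| ≤ t * (1001 * r) := by
    rw [abs_mul]
    exact mul_le_mul hσ h1 (abs_nonneg _) ((abs_nonneg _).trans hσ)
  rw [show σ * x + (v - σ * y) = σ * (x - y) + v by ring]
  exact (abs_add_le _ _).trans (by linarith)

theorem clause_Pert {x0 x1 x2 c r h t : ℝ} (h1 : x2 + c ≤ x1) (h2 : x1 + c ≤ x0) (r0 : |x0| ≤ r)
    (r1 : |x1| ≤ r) (r2 : |x2| ≤ r) (hh : 0 < h) (ht : 0 < t) (htc : 2 * h ≤ t * c)
    (w0 w1 w2 : Bool) (hw : w0 = false ∨ w1 = true ∨ w2 = false) :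
    ∃ u v : ℝ, (∀ x, |x| ≤ 1000 * r → |u * x + v| ≤ 2 * h + 1001 * (t * r)) ∧
      Sg_Pert w0 (0 - (u * x0 + v)) ∧ Sg_Pert w1 (h - (u * x1 + v)) ∧
      Sg_Pert w2 (0 - (u * x2 + v)) := by
  have a1 := mul_le_mul_of_nonneg_left h1 ht.le
  have a2 := mul_le_mul_of_nonneg_left h2 ht.le
  have z : |(0 : ℝ)| ≤ t := by rw [abs_zero]; exact ht.le
  have p : |t| ≤ t := (abs_of_pos ht).le
  have n : |-t| ≤ t := by rw [abs_neg]; exact p
  have v : ∀ a : ℝ, -(2 * h) ≤ a → a ≤ 2 * h → |a| ≤ 2 * h := fun a b c => abs_le.2 ⟨b, c⟩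
  cases w0 <;> cases w1 <;> cases w2
  · exact ⟨_, _, bound_Pert z r0 (v (2 * h) (by linarith) (by linarith)),
      .inr ⟨rfl, by linarith⟩, .inr ⟨rfl, by linarith⟩, .inr ⟨rfl, by linarith⟩⟩
  · exact ⟨_, _, bound_Pert p r2 (v (-(h / 2)) (by linarith) (by linarith)),
      .inr ⟨rfl, by linarith⟩, .inr ⟨rfl, by linarith⟩, .inl ⟨rfl, by linarith⟩⟩
  · exact ⟨_, _, bound_Pert z r0 (v (h / 2) (by linarith) (by linarith)),
      .inr ⟨rfl, by linarith⟩, .inl ⟨rfl, by linarith⟩, .inr ⟨rfl, by linarith⟩⟩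
  · exact ⟨_, _, bound_Pert p r1 (v 0 (by linarith) (by linarith)),
      .inr ⟨rfl, by linarith⟩, .inl ⟨rfl, by linarith⟩, .inl ⟨rfl, by linarith⟩⟩
  · exact ⟨_, _, bound_Pert n r0 (v (-(h / 2)) (by linarith) (by linarith)),
      .inl ⟨rfl, by linarith⟩, .inr ⟨rfl, by linarith⟩, .inr ⟨rfl, by linarith⟩⟩
  · simp at hw
  · exact ⟨_, _, bound_Pert n r1 (v 0 (by linarith) (by linarith)),
      .inl ⟨rfl, by linarith⟩, .inl ⟨rfl, by linarith⟩, .inr ⟨rfl, by linarith⟩⟩
  · exact ⟨_, _, bound_Pert z r0 (v (-(h / 2)) (by linarith) (by linarith)),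
      .inl ⟨rfl, by linarith⟩, .inl ⟨rfl, by linarith⟩, .inl ⟨rfl, by linarith⟩⟩

theorem const_Pert {F G W : ℝ} (hG : 0 < G) (hW : G < W) (hFG : F < G) (w : Bool) :
    ∃ v : ℝ, |v| < W ∧ ∀ y, |y| ≤ F → Sg_Pert w (y - v) := by
  cases w
  · exact ⟨G, by rwa [abs_of_pos hG], fun y hy => .inr ⟨rfl, by linarith [(abs_le.1 hy).2]⟩⟩
  · exact ⟨-G, by rwa [abs_neg, abs_of_pos hG],
      fun y hy => .inl ⟨rfl, by linarith [(abs_le.1 hy).1]⟩⟩

theorem size_Pert (I : In) : ∃ t : ℝ, 0 < t ∧ 2 * (fac I : ℝ) ≤ t * (SS I / 2) ∧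
    2 * (fac I : ℝ) + 1001 * (t * rho I) < del I := by
  have h1 : (1 : ℝ) ≤ fac I := by exact_mod_cast fac_pos I
  have h2 : (0 : ℝ) < SS I := by exact_mod_cast (scales I).2.2.2.2.2.2.1
  have h3 : (100000 : ℝ) ≤ BB I := by
    have := BB_ge' I
    have := kk_ge I
    exact_mod_cast (show (100000 : ℤ) ≤ BB I by omega)
  have h4 : (rho I : ℝ) = SS I * (BB I : ℝ) ^ (kk I + 1) := by exact_mod_cast rho_eq I
  have h5 : (del I : ℝ) = fac I * (BB I : ℝ) ^ (2 * kk I + 8) := by exact_mod_cast del_eq I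
  rw [h4, h5]
  generalize (fac I : ℝ) = F at *
  generalize (SS I : ℝ) = S at *
  generalize (BB I : ℝ) = B at *
  have h6 : 1 ≤ B ^ (kk I + 1) := one_le_pow₀ (by linarith)
  have h7 : B ^ (kk I + 1) * B ≤ B ^ (2 * kk I + 8) := by
    rw [← pow_succ]
    exact pow_le_pow_right₀ (by linarith) (by omega)
  refine ⟨4 * F / S, by positivity, le_of_eq (by field_simp; norm_num), ?_⟩
  rw [show 4 * F / S * (S * B ^ (kk I + 1)) = 4 * F * B ^ (kk I + 1) by field_simp]
  have h8 : 2 + 4004 * B ^ (kk I + 1) < B ^ (2 * kk I + 8) := by nlinarith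
  nlinarith

theorem line_Pert (hZ : SZ) {I : In} (h : WF I) (s : ℕ → Bool) (hs : ∀ j, 3 * j < MM I →
    ∃ p < 3, s (lit I (3 * j + p)).1 = (lit I (3 * j + p)).2) (i : ℕ) :
    ∃ u v : ℝ, (∀ x : ℝ, |x| ≤ 1000 * rho I → |u * x + v| < wd I i) ∧ ∀ o < MM I,
      (xI I o = i → Sg_Pert (s (lit I o).1) (f0 I i (tz (zz I o)) - (u * (tz (zz I o)).re + v))) ∧
      (fI I o = i →
        Sg_Pert (!s (lit I o).1) (f0 I i (tz (zz I o)) - (u * (tz (zz I o)).re + v))) ∧
      (cI I o = i → Sg_Pert (bif mid I o then s (lit I o).1 else !s (lit I o).1)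
        (f0 I i (tz (zz I o)) - (u * (tz (zz I o)).re + v))) := by
  have h1 : (1 : ℝ) ≤ fac I := by exact_mod_cast fac_pos I
  by_cases c1 : ∃ o < MM I, xI I o = i
  · obtain ⟨o, ho, rfl⟩ := c1
    have hw : (wd I (xI I o) : ℝ) = 3 * fac I := by rw [wd, isX_xI h ho, cond_true]; push_cast; rfl
    obtain ⟨v, hv, hv'⟩ := const_Pert (F := fac I) (G := 2 * fac I) (W := wd I (xI I o))
      (by linarith) (by linarith) (by linarith) (s (lit I o).1)
    refine ⟨0, v, fun x _ => by simpa using hv, fun o' ho' => ⟨fun e => ?_,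
      fun e => absurd e.symm (kinds h ho ho').2.1, fun e => absurd e.symm (kinds h ho ho').1⟩⟩
    have e3 : (lit I o').1 = (lit I o).1 := by unfold xI at e; omega
    rw [e3, zero_mul, zero_add, ← e, (hZ I h o' ho').2.1]
    refine hv' _ ?_
    unfold al
    cases (lit I o').2 <;> simp [abs_of_pos (show (0 : ℝ) < fac I by linarith)]
  by_cases c2 : ∃ o < MM I, fI I o = i
  · obtain ⟨o, ho, rfl⟩ := c2
    have hw : (wd I (fI I o) : ℝ) = del I := by rw [wd, isX_fI ho, cond_false]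
    have a1 : (fac I : ℝ) * BB I ≤ del I := by exact_mod_cast (scales I).1
    have a2 : 100000 * (kk I : ℝ) ≤ BB I := by exact_mod_cast BB_ge' I
    have a3 : (63 : ℝ) ≤ kk I := by exact_mod_cast kk_ge I
    obtain ⟨v, hv, hv'⟩ := const_Pert (F := 2 * kk I * (fac I : ℝ))
      (G := (2 * kk I + 1) * (fac I : ℝ)) (W := wd I (fI I o))
      (by nlinarith) (by rw [hw]; nlinarith) (by linarith) (!s (lit I o).1)
    refine ⟨0, v, fun x _ => by simpa using hv, fun o' ho' =>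
      ⟨fun e => absurd e (kinds h ho' ho).2.1, fun e => ?_,
        fun e => absurd e (kinds h ho' ho).2.2.1⟩⟩
    obtain rfl := (kinds h ho' ho).2.2.2.1 e
    rw [zero_mul, zero_add]
    exact hv' _ (hZ I h o' ho').2.2.2.1
  by_cases c3 : ∃ o < MM I, cI I o = i
  · obtain ⟨o, ho, rfl⟩ := c3
    have hw : (wd I (cI I o) : ℝ) = del I := by rw [wd, isX_cI h ho, cond_false]
    obtain ⟨t, t1, t2, t3⟩ := size_Pert I
    obtain ⟨M, hM⟩ := h.dvd
    obtain ⟨j, hj⟩ : ∃ j, j = o / 3 := ⟨_, rfl⟩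
    have z0 := hZ I h (3 * j) (by omega)
    have z1 := hZ I h (3 * j + 1) (by omega)
    have z2 := hZ I h (3 * j + 2) (by omega)
    have m0 : (3 * j) % 3 ≠ 1 := by omega
    have m1 : (3 * j + 1) % 3 = 1 := by omega
    have m2 : (3 * j + 2) % 3 ≠ 1 := by omega
    obtain ⟨u, v, k0, k1, k2, k3⟩ := clause_Pert (x0 := (tz (zz I (3 * j))).re)
      (x1 := (tz (zz I (3 * j + 1))).re) (x2 := (tz (zz I (3 * j + 2))).re) (c := SS I / 2)
      (by linarith [z1.2.2.2.2.2 (3 * j + 2) (by omega) (by omega) (by omega)])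
      (by linarith [z0.2.2.2.2.2 (3 * j + 1) (by omega) (by omega) (by omega)])
      z0.1 z1.1 z2.1 (show (0 : ℝ) < fac I by linarith) t1 t2
      (bif mid I (3 * j) then s (lit I (3 * j)).1 else !s (lit I (3 * j)).1)
      (bif mid I (3 * j + 1) then s (lit I (3 * j + 1)).1 else !s (lit I (3 * j + 1)).1)
      (bif mid I (3 * j + 2) then s (lit I (3 * j + 2)).1 else !s (lit I (3 * j + 2)).1) (by
        obtain ⟨p, hp, e⟩ := hs j (by omega)
        have : p = 0 ∨ p = 1 ∨ p = 2 := by omega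
        rcases this with rfl | rfl | rfl
        · left
          rw [add_zero] at e
          rw [e, mid, decide_eq_false m0]
          cases (lit I (3 * j)).2 <;> rfl
        · right; left
          rw [e, mid, decide_eq_true m1]
          cases (lit I (3 * j + 1)).2 <;> rfl
        · right; right
          rw [e, mid, decide_eq_false m2]
          cases (lit I (3 * j + 2)).2 <;> rfl)
    refine ⟨u, v, fun x hx => by rw [hw]; exact (k0 x hx).trans_lt t3, fun o' ho' =>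
      ⟨fun e => absurd e (kinds h ho' ho).1, fun e => absurd e.symm (kinds h ho ho').2.2.1,
        fun e => ?_⟩⟩
    have e4 : o' = 3 * j ∨ o' = 3 * j + 1 ∨ o' = 3 * j + 2 := by unfold cI at e; omega
    rw [← e, (hZ I h o' ho').2.2.1, be]
    rcases e4 with rfl | rfl | rfl
    · rwa [if_neg m0, Int.cast_zero]
    · rwa [if_pos m1]
    · rwa [if_neg m2, Int.cast_zero]
  · refine ⟨0, 0, fun x _ => ?_, fun o ho => ⟨fun e => absurd ⟨o, ho, e⟩ c1,
      fun e => absurd ⟨o, ho, e⟩ c2, fun e => absurd ⟨o, ho, e⟩ c3⟩⟩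
    rw [zero_mul, add_zero, abs_zero]
    exact_mod_cast (wd_pos I i).1

theorem sPert (hZ : SZ) : SPert := by
  rintro I h ⟨s, hs⟩
  choose u v h1 h2 using line_Pert hZ h s hs
  refine ⟨fun i => i + u i, fun i => cc I i + v i, fun i _ x hx => ?_, fun o ho => ?_⟩
  · convert h1 i x hx using 2
    ring
  · have e : ∀ i p, fv (fun i => i + u i) (fun i => cc I i + v i) i p =
        f0 I i p - (u i * p.re + v i) := fun i p => by simp only [fv, f0, a0, b0]; ring
    have a1 := (h2 _ o ho).1 rfl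
    have a2 := (h2 _ o ho).2.1 rfl
    have a3 := (h2 _ o ho).2.2 rfl
    rw [← e] at a1 a2 a3
    revert a1 a2 a3
    cases s (lit I o).1 <;> cases mid I o <;>
      simp only [Sg_Pert, cond_true, cond_false, Bool.not_true, Bool.not_false, true_and,
        Bool.false_eq_true, Bool.true_eq_false, false_and, false_or, or_false] <;>
      intro a1 a2 a3
    · exact ⟨mul_neg_of_neg_of_pos a1 a2, mul_neg_of_neg_of_pos a1 a3⟩
    · exact ⟨mul_neg_of_neg_of_pos a1 a2, mul_pos_of_neg_of_neg a1 a3⟩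
    · exact ⟨mul_neg_of_pos_of_neg a1 a2, mul_neg_of_pos_of_neg a1 a3⟩
    · exact ⟨mul_neg_of_pos_of_neg a1 a2, mul_pos a1 a3⟩

end Pool.Agent.MP_b0ee3d_lc.H

end

section
set_option autoImplicit false

namespace Pool.Agent.MP_b0ee3d_lc.H

/-- the triangle pattern of three heights -/
def Pt_CompA (m : Bool) (u v w : ℝ) : Prop := u * w < 0 ∧ bif m then 0 < u * v else u * v < 0

theorem neg_tr_CompA {u u' w w' : ℝ} (h1 : 0 < u * u') (h2 : 0 < w * w') (h : u * w < 0) :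
    u' * w' < 0 := by
  by_contra hc
  have h3 : 0 < u * u' * (w * w') := mul_pos h1 h2
  have h4 : u * w * (u' * w') ≤ 0 := mul_nonpos_of_nonpos_of_nonneg h.le (not_lt.1 hc)
  linarith [show u * u' * (w * w') = u * w * (u' * w') by ring]

theorem pos_tr_CompA {u u' w w' : ℝ} (h1 : 0 < u * u') (h2 : 0 < w * w') (h : 0 < u * w) :
    0 < u' * w' := by
  by_contra hc
  have h3 : 0 < u * u' * (w * w') := mul_pos h1 h2
  have h4 : u * w * (u' * w') ≤ 0 := mul_nonpos_of_nonneg_of_nonpos h.le (not_lt.1 hc)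
  linarith [show u * u' * (w * w') = u * w * (u' * w') by ring]

theorem pt_tr_CompA {m : Bool} {u v w u' v' w' : ℝ} (h : Pt_CompA m u v w) (h1 : 0 < u * u')
    (h2 : 0 < v * v') (h3 : 0 < w * w') : Pt_CompA m u' v' w' := by
  refine ⟨neg_tr_CompA h1 h3 h.1, ?_⟩
  cases m
  · exact neg_tr_CompA h1 h2 h.2
  · exact pos_tr_CompA h1 h2 h.2

theorem pt_ne_CompA {m : Bool} {u v w : ℝ} (h : Pt_CompA m u v w) : u ≠ 0 ∧ v ≠ 0 ∧ w ≠ 0 := by
  refine ⟨left_ne_zero_of_mul h.1.ne, ?_, right_ne_zero_of_mul h.1.ne⟩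
  cases m
  · exact right_ne_zero_of_mul (ne_of_lt h.2)
  · exact right_ne_zero_of_mul (ne_of_gt h.2)

theorem iff_CompA {u v : ℝ} (h : 0 < u * v) : 0 < u ↔ 0 < v :=
  ⟨fun h1 => (pos_iff_pos_of_mul_pos h).1 h1, fun h1 => (pos_iff_pos_of_mul_pos h).2 h1⟩

theorem key0_CompA {A C F u v w : ℝ} (hw : u * w < 0)
    (h : (A < F ∧ F < C ∧ 0 < u * v) ∨ (F < A ∧ A < C ∧ u * v < 0)) :
    (C - A) * |w| ≤ |(F - C) * u + (A - F) * v + (C - A) * w| := by
  rcases mul_neg_iff.1 hw with ⟨hu, hw'⟩ | ⟨hu, hw'⟩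
  · rw [abs_of_neg hw']
    refine le_trans ?_ (neg_le_abs _)
    rcases h with ⟨h1, h2, h3⟩ | ⟨h1, h2, h3⟩
    · have hv : 0 < v := (iff_CompA h3).1 hu
      nlinarith [mul_pos (sub_pos.2 h2) hu, mul_pos (sub_pos.2 h1) hv]
    · have hv : 0 < -v := (iff_CompA (by linarith : 0 < u * -v)).1 hu
      nlinarith [mul_pos (sub_pos.2 (h1.trans h2)) hu, mul_pos (sub_pos.2 h1) hv]
  · rw [abs_of_pos hw']
    refine le_trans ?_ (le_abs_self _)
    have hu' : 0 < -u := neg_pos.2 hu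
    rcases h with ⟨h1, h2, h3⟩ | ⟨h1, h2, h3⟩
    · have hv : 0 < -v := (iff_CompA (by linarith : 0 < -u * -v)).1 hu'
      nlinarith [mul_pos (sub_pos.2 h2) hu', mul_pos (sub_pos.2 h1) hv]
    · have hv : 0 < v := (iff_CompA (by linarith : 0 < -u * v)).1 hu'
      nlinarith [mul_pos (sub_pos.2 (h1.trans h2)) hu', mul_pos (sub_pos.2 h1) hv]

theorem key_CompA {I : In} (h : WF I) {o : ℕ} (ho : o < MM I) {s : ℕ → ℝ}
    (hs : ∀ i j, i < j → j < kk I → s i < s j) {u v w : ℝ} (hp : Pt_CompA (mid I o) u v w) :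
    (s (cI I o) - s (xI I o)) * |w| ≤ |(s (fI I o) - s (cI I o)) * u +
      (s (xI I o) - s (fI I o)) * v + (s (cI I o) - s (xI I o)) * w| := by
  obtain ⟨a1, a2, -, a3, a4, -, -, a5⟩ := idx h ho
  refine key0_CompA hp.1 ?_
  rcases a5 with ⟨e, b1, b2⟩ | ⟨e, b1, b2⟩
  · have := hp.2
    rw [e] at this
    exact Or.inl ⟨hs _ _ b1 (by omega), hs _ _ b2 (by omega), this⟩
  · have := hp.2
    rw [e] at this
    exact Or.inr ⟨hs _ _ b2 (by omega), hs _ _ (by omega) (by omega), this⟩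

/-- a point with the pattern excludes a common point of the three lines -/
theorem not_conc_CompA {I : In} (h : WF I) {o : ℕ} (ho : o < MM I) {a b : ℕ → ℝ}
    (hs : ∀ i j, i < j → j < kk I → a i < a j) {p q : ℂ}
    (hp : Pt_CompA (mid I o) (fv a b (xI I o) p) (fv a b (cI I o) p) (fv a b (fI I o) p))
    (h1 : fv a b (xI I o) q = 0) (h2 : fv a b (cI I o) q = 0) (h3 : fv a b (fI I o) q = 0) :
    False := by
  have k := key_CompA h ho hs hp
  rw [tri_const a b _ _ _ p q, h1, h2, h3] at k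
  obtain ⟨a1, a2, -, a3, a4, -⟩ := idx h ho
  have k1 := mul_pos (sub_pos.2 (hs (xI I o) (cI I o) (by omega) (by omega)))
    (abs_pos.2 (pt_ne_CompA hp).2.2)
  simp only [mul_zero, add_zero, abs_zero] at k
  linarith

theorem three_CompA {x c f i j l : ℕ} (hi : i = x ∨ i = c ∨ i = f) (hj : j = x ∨ j = c ∨ j = f)
    (hl : l = x ∨ l = c ∨ l = f) (h1 : i ≠ j) (h2 : l ≠ i) (h3 : l ≠ j) :
    (x = i ∨ x = j ∨ x = l) ∧ (c = i ∨ c = j ∨ c = l) ∧ (f = i ∨ f = j ∨ f = l) := by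
  rcases hi with rfl | rfl | rfl <;> rcases hj with rfl | rfl | rfl <;>
    rcases hl with rfl | rfl | rfl <;> simp_all

theorem nu_le_CompA (I : In) (i : ℕ) {t : ℕ} (ht : t < 3) : |nu I i t| ≤ 60 := by
  unfold nu sg nv
  split_ifs <;> interval_cases t <;> simp

theorem sc_CompA (I : In) : 2 * (kk I : ℝ) * (fac I : ℝ) ≤ (del I : ℝ) ∧
    100000 * (kk I : ℝ) * (del I : ℝ) ≤ (rr I : ℝ) ∧ (0 : ℝ) < del I ∧ (1 : ℝ) ≤ fac I ∧
    (0 : ℝ) < rho I ∧ (63 : ℝ) ≤ kk I := by
  obtain ⟨s1, s2, -, -, s3, -, -, s4⟩ := scales I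
  have s5 := fac_pos I
  have s6 := BB_ge' I
  have s7 := kk_ge I
  have t1 : 2 * (kk I : ℤ) * fac I ≤ del I := by
    refine le_trans ?_ s1
    rw [mul_comm (fac I)]
    exact mul_le_mul_of_nonneg_right (by omega) (by omega)
  have t2 : 100000 * (kk I : ℤ) * del I ≤ rr I := by
    rw [← s2, mul_comm (del I)]
    exact mul_le_mul_of_nonneg_right s6 s3.le
  exact ⟨by exact_mod_cast t1, by exact_mod_cast t2, by exact_mod_cast s3, by exact_mod_cast s5,
    by exact_mod_cast s4, by exact_mod_cast s7⟩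

theorem bnd_tr_CompA {k : ℕ} {s s' : ℕ → Prop} (h : Bnd k s) (e : ∀ l < k, s l ↔ s' l) :
    Bnd k s' := by
  obtain ⟨⟨i, j, h1, h2, h3, h4⟩, i', j', g1, g2, g3, g4⟩ := h
  exact ⟨⟨i, j, h1, h2, fun c => h3 ((e i (h1.trans h2)).2 c), (e j h2).1 h4⟩,
    i', j', g1, g2, (e i' (g1.trans g2)).1 g3, fun c => g4 ((e j' g2).2 c)⟩

theorem sum3_CompA {A B C u v w K D : ℝ} (h1 : |A| ≤ K) (h2 : |B| ≤ K) (h3 : |C| ≤ K)
    (g1 : |u| ≤ D) (g2 : |v| ≤ D) (g3 : |w| ≤ D) : |A * u + B * v + C * w| ≤ 3 * (K * D) := by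
  have hK : 0 ≤ K := (abs_nonneg _).trans h1
  have e1 : |A * u| ≤ K * D := by rw [abs_mul]; exact mul_le_mul h1 g1 (abs_nonneg _) hK
  have e2 : |B * v| ≤ K * D := by rw [abs_mul]; exact mul_le_mul h2 g2 (abs_nonneg _) hK
  have e3 : |C * w| ≤ K * D := by rw [abs_mul]; exact mul_le_mul h3 g3 (abs_nonneg _) hK
  linarith [abs_add_three (A * u) (B * v) (C * w)]

theorem sCompA (hB : SBase) (hR : SCorn) (hN : SNear) (hZ : SZ) (hK : SKept) (hE : SKeep) :
    SCompA := by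
  intro I h a b hG
  obtain ⟨c1, c2, c3, c4, c5, c6⟩ := sc_CompA I
  have hk := kk_ge I
  have hwd : ∀ i, (wd I i : ℝ) ≤ del I := fun i => by exact_mod_cast (wd_pos I i).2
  have cl1 : Close I a b (fun _ => del I) := fun i hi x hx => (hG.1 i hi x hx).trans_le (hwd i)
  have cl2 : Close I a b (fun _ => 1100 * del I) := fun i hi x hx =>
    (cl1 i hi x hx).trans_le (by linarith)
  obtain ⟨n1, n2, n3⟩ := hN I h a b cl1
  obtain ⟨e1, e2, -⟩ := hE I h a b cl2 (fun i t hi ht => hG.1 i hi _ (by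
    have : |(nu I i t : ℝ)| ≤ 60 := by exact_mod_cast nu_le_CompA I i ht
    rw [abs_mul, abs_of_pos c5]
    exact mul_le_mul_of_nonneg_right (by linarith) c5.le))
  obtain ⟨k1, -, -, k4, k5, -⟩ := hK I h
  have mono : ∀ i j, i < j → j < kk I → a i < a j := fun i j h1 h2 => by
    linarith [(n1 i j h1 h2).1]
  have gapk : ∀ i j, i < kk I → j < kk I → |a i - a j| ≤ kk I := fun i j hi hj => by
    rw [abs_le]
    rcases lt_trichotomy i j with l | l | l
    · constructor <;> linarith [(n1 i j l hj).1, (n1 i j l hj).2]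
    · rw [l]; constructor <;> linarith
    · constructor <;> linarith [(n1 j i l hi).1, (n1 j i l hi).2]
  have pat : ∀ o < MM I, Pt_CompA (mid I o) (fv a b (xI I o) (tz (zz I o)))
      (fv a b (cI I o) (tz (zz I o))) (fv a b (fI I o) (tz (zz I o))) := hG.2
  have lt : ∀ o < MM I, xI I o < kk I ∧ cI I o < kk I ∧ fI I o < kk I := fun o ho => by
    have a1 := On.lt h ho (Or.inl rfl)
    have a2 := On.lt h ho (Or.inr (Or.inl rfl))
    have a3 := On.lt h ho (Or.inr (Or.inr rfl))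
    omega
  have zk : ∀ o < MM I, ∀ p ∈ kept I,
      ¬ ∀ l < kk I, 0 < fv a b l (tz (zz I o)) * fv a b l (tz p) := by
    intro o ho p hp H
    obtain ⟨l1, l2, l3⟩ := lt o ho
    have z0 := ((hB I h).2.2 o ho).2.1
    exact not_conc_CompA h ho (a := a0) (b := b0 I)
      (fun i j h1 _ => by unfold a0; exact_mod_cast h1)
      (pt_tr_CompA (pt_tr_CompA (pat o ho) (H _ l1) (H _ l2) (H _ l3))
        (e1 p hp _ l1) (e1 p hp _ l2) (e1 p hp _ l3))
      (z0 _ (Or.inl rfl)) (z0 _ (Or.inr (Or.inl rfl))) (z0 _ (Or.inr (Or.inr rfl)))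
  refine ⟨⟨by omega, mono, fun i j l hi hj hl h1 h2 h3 hz => ?_, n3⟩, fun p hp => ?_,
    fun p hp p' hp' H => ?_⟩
  · by_cases ht : Tri I i j l
    · obtain ⟨o, ho, o1, o2, o3⟩ := ht
      have hij : a i ≠ a j := by
        rcases lt_or_gt_of_ne h1 with l1 | l1
        · exact (mono _ _ l1 hj).ne
        · exact (mono _ _ l1 hi).ne'
      have hv : ∀ m, m = i ∨ m = j ∨ m = l → fv a b m (VV a b i j) = 0 := by
        rintro m (rfl | rfl | rfl)
        exacts [fv_VV _ _ _ _, fv_VV' b hij, hz]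
      obtain ⟨t1, t2, t3⟩ := three_CompA o1 o2 o3 h1 h2 h3
      exact not_conc_CompA h ho mono (pat o ho) (hv _ t1) (hv _ t2) (hv _ t3)
    · have := n2 i j l hi hj hl h1 h2 h3 ht
      rw [hz, zero_mul] at this
      exact lt_irrefl _ this
  · rcases (k5 p).1 hp with ⟨o, ho, rfl⟩ | hp
    · obtain ⟨r1, r2, r3⟩ := (hR I h).2.2 o ho
      have s0 := (e2 o ho 0 (by omega) fun c => by have := On.lt h ho c; omega).2
      have s1 := (e2 o ho 1 (by omega) fun c => by have := On.lt h ho c; omega).2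
      have s2 := (e2 o ho (kk I - 1) (by omega) fun c => by have := On.lt h ho c; omega).2
      refine ⟨fun l hl => ?_, ⟨0, 1, by omega, by omega, fun c => ?_, (iff_CompA s1).2 r2⟩,
        1, kk I - 1, by omega, by omega, (iff_CompA s1).2 r2, fun c => ?_⟩
      · by_cases hon : On I o l
        · obtain ⟨z1, z2, z3⟩ := pt_ne_CompA (pat o ho)
          rcases hon with rfl | rfl | rfl
          exacts [z1, z2, z3]
        · exact left_ne_zero_of_mul (e2 o ho l hl hon).2.ne'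
      · exact lt_asymm r1 ((iff_CompA s0).1 c)
      · exact lt_asymm r3 ((iff_CompA s2).1 c)
    · exact ⟨fun l hl => left_ne_zero_of_mul (e1 p hp l hl).ne',
        bnd_tr_CompA ((bnd_iff I p).1 (k1 p hp).1) fun l hl =>
          (ab_iff I l p).trans (iff_CompA (e1 p hp l hl)).symm⟩
  · rcases (k5 p).1 hp with ⟨o, ho, rfl⟩ | hp <;> rcases (k5 p').1 hp' with ⟨o', ho', rfl⟩ | hp'
    · by_cases hoo : o = o'
      · rw [hoo]
      exfalso
      obtain ⟨l1, l2, l3⟩ := lt o ho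
      have non : ¬ On I o' (fI I o) := by
        obtain ⟨-, q1, q2, q3, -⟩ := kinds h ho' ho
        rintro (c | c | c)
        exacts [q1 c.symm, q2 c.symm, hoo (q3 c.symm).symm]
      have b1 := (e2 o' ho' _ l3 non).1
      have b2 := key_CompA h ho mono (pt_tr_CompA (pat o ho) (H _ l1) (H _ l2) (H _ l3))
      rw [tri_const a b _ _ _ _ (tz (zz I o))] at b2
      obtain ⟨z1, z2, z3, z4, -⟩ := hZ I h o ho
      have near : ∀ l < kk I, |f0 I l (tz (zz I o))| ≤ 2 * kk I * (fac I : ℝ) →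
          |fv a b l (tz (zz I o))| ≤ 2 * del I := by
        intro l hl hf
        have := abs_lt.1 (cl1 l hl (tz (zz I o)).re (z1.trans (by linarith)))
        rw [abs_le] at hf ⊢
        simp only [f0, fv, a0, b0] at hf ⊢
        constructor <;> linarith [this.1, this.2, hf.1, hf.2]
      have hf : (fac I : ℝ) ≤ 2 * kk I * (fac I : ℝ) := by nlinarith
      have b3 := sum3_CompA (gapk _ _ l3 l2) (gapk _ _ l1 l3) (gapk _ _ l2 l1)
        (near _ l1 (by
          rw [z2, al]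
          cases (lit I o).2
          · rw [cond_false, abs_of_pos (by linarith)]; exact hf
          · rw [cond_true, Int.cast_neg, abs_neg, abs_of_pos (by linarith)]; exact hf))
        (near _ l2 (by
          rw [z3, be]
          split_ifs
          · rw [abs_of_pos (by linarith)]; exact hf
          · rw [Int.cast_zero, abs_zero]; linarith))
        (near _ l3 z4)
      obtain ⟨a1, a2, -, a3, a4, -⟩ := idx h ho
      have b4 := (n1 (xI I o) (cI I o) (by omega) l2).1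
      have b5 : 1 / 2 * |fv a b (fI I o) (tz (zz I o'))| ≤
          (a (cI I o) - a (xI I o)) * |fv a b (fI I o) (tz (zz I o'))| :=
        mul_le_mul_of_nonneg_right (by linarith) (abs_nonneg _)
      have b6 : 0 < (kk I : ℝ) * del I := mul_pos (by linarith) c3
      linarith
    · exact absurd H (zk o ho p' hp')
    · exact absurd (fun l hl => by rw [mul_comm]; exact H l hl) (zk o' ho' p hp)
    · refine k4 p hp p' hp' ((sv_eq_iff I p p').2 fun l hl => Bool.eq_iff_iff.2 ?_)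
      rw [ab_iff, ab_iff, ← iff_CompA (e1 p hp l hl), ← iff_CompA (e1 p' hp' l hl)]
      exact iff_CompA (H l hl)

end Pool.Agent.MP_b0ee3d_lc.H

end

section
/- Every bounded cell of a good arrangement holds a dot. -/

set_option autoImplicit false

namespace Pool.Agent.MP_b0ee3d_lc.H

theorem sm_CompB {u v : ℝ} : 0 < u * v ↔ u ≠ 0 ∧ v ≠ 0 ∧ (0 < u ↔ 0 < v) := by
  rw [mul_pos_iff]
  constructor
  · rintro (⟨a, b⟩ | ⟨a, b⟩)
    · exact ⟨a.ne', b.ne', iff_of_true a b⟩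
    · exact ⟨a.ne, b.ne, iff_of_false a.not_gt b.not_gt⟩
  · rintro ⟨a, b, c⟩
    rcases a.lt_or_gt with a | a
    · exact Or.inr ⟨a, b.lt_or_gt.resolve_right fun k => a.not_gt (c.2 k)⟩
    · exact Or.inl ⟨a, c.1 a⟩

theorem tr_CompB {u v w : ℝ} (h : 0 < u * v) (h' : 0 < w * v) : 0 < u * w := by
  rw [sm_CompB] at h h' ⊢
  exact ⟨h.1, h'.1, h.2.2.trans h'.2.2.symm⟩

/-- Alternating patterns on three lines agree. -/
theorem alt_CompB {a b : ℕ → ℝ} {u v w : ℕ} {p q : ℂ} (h1 : a u < a v) (h2 : a v < a w)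
    (p1 : fv a b u p * fv a b v p < 0) (p2 : fv a b v p * fv a b w p < 0)
    (q1 : fv a b u q * fv a b v q < 0) (q2 : fv a b v q * fv a b w q < 0) :
    0 < fv a b u p * fv a b u q ∧ 0 < fv a b v p * fv a b v q ∧ 0 < fv a b w p * fv a b w q := by
  have e := tri_const a b u v w p q
  have key : ∀ {x y z : ℝ}, x * y < 0 → y * z < 0 →
      (0 < x ∧ y < 0 ∧ 0 < z ∧ 0 < (a w - a v) * x + (a u - a w) * y + (a v - a u) * z) ∨
      (x < 0 ∧ 0 < y ∧ z < 0 ∧ (a w - a v) * x + (a u - a w) * y + (a v - a u) * z < 0) := by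
    intro x y z k1 k2
    rcases mul_neg_iff.1 k1 with ⟨s1, s2⟩ | ⟨s1, s2⟩ <;>
      rcases mul_neg_iff.1 k2 with ⟨s3, s4⟩ | ⟨s3, s4⟩
    · exact absurd s2 s3.not_gt
    · refine Or.inl ⟨s1, s2, s4, ?_⟩
      have := mul_pos (sub_pos.2 h2) s1
      have := mul_pos_of_neg_of_neg (sub_neg.2 (h1.trans h2)) s2
      have := mul_pos (sub_pos.2 h1) s4
      linarith
    · refine Or.inr ⟨s1, s2, s4, ?_⟩
      have := mul_neg_of_pos_of_neg (sub_pos.2 h2) s1
      have := mul_neg_of_neg_of_pos (sub_neg.2 (h1.trans h2)) s2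
      have := mul_neg_of_pos_of_neg (sub_pos.2 h1) s4
      linarith
    · exact absurd s3 s2.not_gt
  rcases key p1 p2 with ⟨s1, s2, s3, s4⟩ | ⟨s1, s2, s3, s4⟩ <;>
    rcases key q1 q2 with ⟨t1, t2, t3, t4⟩ | ⟨t1, t2, t3, t4⟩
  · exact ⟨mul_pos s1 t1, mul_pos_of_neg_of_neg s2 t2, mul_pos s3 t3⟩
  · linarith
  · linarith
  · exact ⟨mul_pos_of_neg_of_neg s1 t1, mul_pos s2 t2, mul_pos_of_neg_of_neg s3 t3⟩

theorem close_CompB {I : In} {a b : ℕ → ℝ} (h : Close I a b fun i => wd I i) :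
    Close I a b (fun _ => del I) ∧ Close I a b (fun _ => 1100 * del I) ∧
    ∀ i t, i < kk I → t < 3 →
      |a i * (nu I i t * rho I) + b i - (i * (nu I i t * rho I) + cc I i)| < wd I i := by
  have d : (0 : ℝ) < del I := by exact_mod_cast (scales I).2.2.2.2.1
  have r : (0 : ℝ) < rho I := by exact_mod_cast (scales I).2.2.2.2.2.2.2
  have w : ∀ i, (wd I i : ℝ) ≤ del I := fun i => by exact_mod_cast (wd_pos I i).2
  refine ⟨fun i hi x hx => (h i hi x hx).trans_le (w i),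
    fun i hi x hx => (h i hi x hx).trans_le ((w i).trans (by linarith)), fun i t hi ht => ?_⟩
  refine h i hi _ ?_
  have n1 : |nu I i t| ≤ 1000 := by
    unfold nu sg nv
    obtain rfl | rfl | rfl : t = 0 ∨ t = 1 ∨ t = 2 := by omega
    all_goals split_ifs <;> simp
  have n2 : |(nu I i t : ℝ)| ≤ 1000 := by exact_mod_cast n1
  rw [abs_mul, abs_of_pos r]
  exact mul_le_mul_of_nonneg_right n2 r.le

/-- The three lines of an occurrence in increasing order. -/
theorem sorted_CompB {I : In} (hI : WF I) {a b : ℕ → ℝ} (hG : Good I a b) {o : ℕ} (ho : o < MM I) :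
    ∃ u v w, u < v ∧ v < w ∧ w < kk I ∧ (∀ l, On I o l ↔ l = u ∨ l = v ∨ l = w) ∧
      fv a b u (tz (zz I o)) * fv a b v (tz (zz I o)) < 0 ∧
      fv a b v (tz (zz I o)) * fv a b w (tz (zz I o)) < 0 := by
  obtain ⟨g1, g2⟩ := hG.2 o ho
  obtain ⟨a1, a2, -, a3, a4, -, -, ⟨e, a5, a6⟩ | ⟨e, a5, a6⟩⟩ := idx hI ho
  · rw [e, cond_true] at g2
    refine ⟨xI I o, fI I o, cI I o, a5, a6, by omega, fun l => ?_, g1, ?_⟩
    · unfold On; tauto
    · have := tr_CompB (u := -fv a b (fI I o) (tz (zz I o))) (w := fv a b (cI I o) (tz (zz I o)))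
        (v := fv a b (xI I o) (tz (zz I o))) (by linarith) (by linarith)
      linarith
  · rw [e, cond_false] at g2
    refine ⟨fI I o, xI I o, cI I o, a6, by omega, by omega, fun l => ?_, by linarith, g2⟩
    unfold On; tauto

theorem cand_CompB (hC : SCand) (hK : SKept) {I : In} (hI : WF I) {a b : ℕ → ℝ}
    (hE : ∀ p ∈ kept I, ∀ l < kk I, 0 < fv a b l (tz p) * f0 I l (tz p)) {x : ℂ} {i j m : ℕ}
    (h0 : ∀ l < kk I, fv a b l x ≠ 0) (hb : Bnd (kk I) fun l => 0 < fv a b l x) (hij : i < j)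
    (hj : j < kk I) (hm : m ≤ kk I)
    (h : ∀ l < kk I, (f0 I l (V0 I i j) = 0 ∧ (0 < fv a b l x ↔ l < m)) ∨
      0 < fv a b l x * f0 I l (V0 I i j)) :
    ∃ p ∈ dots I, ∀ l < kk I, 0 < fv a b l x * fv a b l (tz p) := by
  have r : (0 : ℝ) < rr I := by exact_mod_cast (scales I).2.2.2.2.2.1
  have k1 : ∀ l < kk I, 0 < fv a b l x ↔ ab I l (cand I i j m true) = true := fun l hl => by
    obtain ⟨-, c2, c3⟩ := (hC I hI i j m true hij hj hm).2 l hl
    rw [ab_iff]
    rcases h l hl with ⟨e1, e2⟩ | e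
    · rw [c2 e1, e2]; simp
    · exact (sm_CompB.1 (tr_CompB e (c3 (sm_CompB.1 e).2.1))).2.2
  have k2 : bnd I (cand I i j m true) = true := by
    obtain ⟨⟨u, v, b1, b2, b3, b4⟩, u', v', b5, b6, b7, b8⟩ := hb
    exact (bnd_iff I _).2 ⟨⟨u, v, b1, b2, fun k => b3 ((k1 u (b1.trans b2)).2 k), (k1 v b2).1 b4⟩,
      u', v', b5, b6, (k1 u' (b5.trans b6)).1 b7, fun k => b8 ((k1 v' b6).2 k)⟩
  obtain ⟨-, -, t3, -, t5, -⟩ := hK I hI
  obtain ⟨q, q1, q2⟩ := t3 i j m true hij hj hm k2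
  refine ⟨q, (t5 q).2 (Or.inr q1), fun l hl => ?_⟩
  obtain ⟨e1, -, e2⟩ := sm_CompB.1 (hE q q1 l hl)
  refine sm_CompB.2 ⟨h0 l hl, e1, ?_⟩
  rw [k1 l hl, e2, ← ab_iff, (sv_eq_iff I _ _).1 q2 l hl]

theorem sCompB (hB : SBase) (hN : SNear) (hC : SCand) (hK : SKept) (hE : SKeep) : SCompB := by
  intro I hI a b hG x i j h0 hb hij hj hxi hxj h
  obtain ⟨c1, c2, c3⟩ := close_CompB hG.1
  obtain ⟨n1, n2, -⟩ := hN I hI a b c1
  obtain ⟨e1, e2, -⟩ := hE I hI a b c2 c3
  have hi : i < kk I := hij.trans hj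
  have g : ∀ l < kk I, l ≠ i → l ≠ j → ¬ Tri I i j l → 0 < fv a b l x * f0 I l (V0 I i j) :=
    fun l hl a1 a2 a3 => tr_CompB (h l hl a1 a2)
      (by rw [mul_comm]; exact n2 i j l hi hj hl hij.ne a1 a2 a3)
  have zi : f0 I i (V0 I i j) = 0 := fv_VV _ _ _ _
  have zj : f0 I j (V0 I i j) = 0 := fv_VV' _ (by unfold a0; exact_mod_cast hij.ne)
  by_cases hT : ∃ l, l ≠ i ∧ l ≠ j ∧ Tri I i j l
  swap
  · refine cand_CompB hC hK hI e1 h0 hb hij hj (m := i + 1) hi fun l hl => ?_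
    by_cases a1 : l = i
    · rw [a1]; exact Or.inl ⟨zi, iff_of_true hxi (by omega)⟩
    by_cases a2 : l = j
    · rw [a2]; exact Or.inl ⟨zj, iff_of_false hxj.not_gt (by omega)⟩
    exact Or.inr (g l hl a1 a2 fun k => hT ⟨l, a1, a2, k⟩)
  obtain ⟨l0, l1, l2, o, ho, o1, o2, o3⟩ := hT
  obtain ⟨-, b1, b2⟩ := (hB I hI).2.2 o ho
  have eV := b2 i j hij.ne o1 o2
  have z0 : f0 I l0 (V0 I i j) = 0 := by rw [eV]; exact b1 l0 o3
  obtain ⟨u, v, w, s1, s2, s3, s4, s5, s6⟩ := sorted_CompB hI hG ho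
  have p1 := (s4 i).1 o1
  have p2 := (s4 j).1 o2
  have p3 := (s4 l0).1 o3
  have hl0 : l0 < kk I := by omega
  have g' : ∀ l < kk I, ¬ On I o l → 0 < fv a b l x * f0 I l (V0 I i j) := fun l hl k =>
    g l hl (fun e => k (e ▸ o1)) (fun e => k (e ▸ o2)) fun ⟨o', ho', t1, t2, t3⟩ =>
      k (On.uniq hI ho ho' hij.ne o1 o2 t1 t2 ▸ t3)
  have use : ∀ m, i < m → m ≤ j → (0 < fv a b l0 x ↔ l0 < m) →
      ∃ p ∈ dots I, ∀ l < kk I, 0 < fv a b l x * fv a b l (tz p) := fun m m1 m2 m3 => by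
    refine cand_CompB hC hK hI e1 h0 hb hij hj (m := m) (by omega) fun l hl => ?_
    by_cases k : On I o l
    · have := (s4 l).1 k
      obtain rfl | rfl | rfl : l = i ∨ l = j ∨ l = l0 := by omega
      · exact Or.inl ⟨zi, iff_of_true hxi m1⟩
      · exact Or.inl ⟨zj, iff_of_false hxj.not_gt (by omega)⟩
      · exact Or.inl ⟨z0, m3⟩
    · exact Or.inr (g' l hl k)
  have tri : fv a b u x * fv a b v x < 0 → fv a b v x * fv a b w x < 0 →
      ∃ p ∈ dots I, ∀ l < kk I, 0 < fv a b l x * fv a b l (tz p) := fun t1 t2 => by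
    have a1 := (n1 u v s1 (s2.trans s3)).1
    have a2 := (n1 v w s2 s3).1
    obtain ⟨r1, r2, r3⟩ := alt_CompB (by linarith) (by linarith) t1 t2 s5 s6
    refine ⟨zz I o, ((hK I hI).2.2.2.2.1 _).2 (Or.inl ⟨o, ho, rfl⟩), fun l hl => ?_⟩
    by_cases k : On I o l
    · obtain rfl | rfl | rfl := (s4 l).1 k
      exacts [r1, r2, r3]
    · exact tr_CompB (g' l hl k) (eV ▸ (e2 o ho l hl k).2)
  rcases (h0 l0 hl0).lt_or_gt with t | t
  · by_cases k : l0 < i
    · obtain ⟨rfl, rfl, rfl⟩ : u = l0 ∧ v = i ∧ w = j := by omega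
      exact tri (mul_neg_of_neg_of_pos t hxi) (mul_neg_of_pos_of_neg hxi hxj)
    · exact use (i + 1) (by omega) (by omega) (iff_of_false t.not_gt (by omega))
  · by_cases k : j < l0
    · obtain ⟨rfl, rfl, rfl⟩ : u = i ∧ v = j ∧ w = l0 := by omega
      exact tri (mul_neg_of_pos_of_neg hxi hxj) (mul_neg_of_neg_of_pos hxj t)
    · exact use j hij le_rfl (iff_of_true t (by omega))

end Pool.Agent.MP_b0ee3d_lc.H

end

section
set_option autoImplicit false

namespace Pool.Agent.MP_b0ee3d_lc.H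

open Pool.Agent.MP_2e8011_lc

section

attribute [local irreducible] MM nn kk lit xI cI mid fI occ isF isX fac pw del rr SS rho gb xi ga
  cc wd sg nv nu gap cx cand al be zx zz ab sv bnd gaps cands kept

variable {α : Type} [Enc α] {I : α → In} {i j l m o t e : α → ℕ} {s : α → Bool} {p : α → ℤ × ℤ}

@[fun_prop] theorem pt_MM_PT (hI : PT I) :
    PT (fun x => MM (I x)) := by
  unfold MM
  fun_prop

@[fun_prop] theorem pt_nn_PT (hI : PT I) :
    PT (fun x => nn (I x)) := by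
  unfold nn
  fun_prop

@[fun_prop] theorem pt_kk_PT (hI : PT I) :
    PT (fun x => kk (I x)) := by
  unfold kk
  fun_prop

@[fun_prop] theorem pt_lit_PT (hI : PT I) (ho : PT o) :
    PT (fun x => lit (I x) (o x)) := by
  unfold lit
  fun_prop

@[fun_prop] theorem pt_xI_PT (hI : PT I) (ho : PT o) :
    PT (fun x => xI (I x) (o x)) := by
  unfold xI
  fun_prop

@[fun_prop] theorem pt_cI_PT (hI : PT I) (ho : PT o) :
    PT (fun x => cI (I x) (o x)) := by
  unfold cI
  fun_prop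

@[fun_prop] theorem pt_mid_PT (hI : PT I) (ho : PT o) :
    PT (fun x => mid (I x) (o x)) := by
  unfold mid
  fun_prop

@[fun_prop] theorem pt_fI_PT (hI : PT I) (ho : PT o) :
    PT (fun x => fI (I x) (o x)) := by
  unfold fI
  fun_prop

@[fun_prop] theorem pt_occ_PT (hI : PT I) (hi : PT i) :
    PT (fun x => occ (I x) (i x)) := by
  unfold occ
  fun_prop

@[fun_prop] theorem pt_isF_PT (hI : PT I) (hi : PT i) :
    PT (fun x => isF (I x) (i x)) := by
  unfold isF
  fun_prop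

@[fun_prop] theorem pt_isX_PT (hI : PT I) (hi : PT i) :
    PT (fun x => isX (I x) (i x)) := by
  unfold isX
  fun_prop

@[fun_prop] theorem pt_fac_PT (hI : PT I) :
    PT (fun x => fac (I x)) := by
  unfold fac
  fun_prop

@[fun_prop] theorem pt_BB_PT (hI : PT I) :
    PT (fun x => BB (I x)) :=
  pt_natCast ((pt_kk_PT hI).pow 8)

attribute [local irreducible] BB

@[fun_prop] theorem pt_pw_PT (hI : PT I) (he : PT e) :
    PT (fun x => pw (I x) (e x)) := by
  unfold pw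
  fun_prop

@[fun_prop] theorem pt_del_PT (hI : PT I) :
    PT (fun x => del (I x)) := by
  unfold del
  fun_prop

@[fun_prop] theorem pt_rr_PT (hI : PT I) :
    PT (fun x => rr (I x)) := by
  unfold rr
  fun_prop

@[fun_prop] theorem pt_SS_PT (hI : PT I) :
    PT (fun x => SS (I x)) := by
  unfold SS
  fun_prop

@[fun_prop] theorem pt_rho_PT (hI : PT I) :
    PT (fun x => rho (I x)) := by
  unfold rho
  fun_prop

@[fun_prop] theorem pt_gb_PT (hI : PT I) (hi : PT i) :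
    PT (fun x => gb (I x) (i x)) := by
  unfold gb
  fun_prop

@[fun_prop] theorem pt_xi_PT (hI : PT I) (ho : PT o) :
    PT (fun x => xi (I x) (o x)) := by
  unfold xi
  fun_prop

@[fun_prop] theorem pt_ga_PT (hI : PT I) (hi : PT i) :
    PT (fun x => ga (I x) (i x)) := by
  unfold ga
  fun_prop

@[fun_prop] theorem pt_cc_PT (hI : PT I) (hi : PT i) :
    PT (fun x => cc (I x) (i x)) := by
  unfold cc
  fun_prop

@[fun_prop] theorem pt_wd_PT (hI : PT I) (hi : PT i) :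
    PT (fun x => wd (I x) (i x)) := by
  unfold wd
  fun_prop

@[fun_prop] theorem pt_sg_PT (hI : PT I) (hi : PT i) :
    PT (fun x => sg (I x) (i x)) := by
  unfold sg
  fun_prop

@[fun_prop] theorem pt_nv_PT (hi : PT i) (ht : PT t) :
    PT (fun x => nv (i x) (t x)) := by
  unfold nv
  fun_prop

@[fun_prop] theorem pt_nu_PT (hI : PT I) (hi : PT i) (ht : PT t) :
    PT (fun x => nu (I x) (i x) (t x)) := by
  unfold nu
  fun_prop

@[fun_prop] theorem pt_gap_PT (hI : PT I) (hi : PT i) (ht : PT t) (hs : PT s) :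
    PT (fun x => gap (I x) (i x) (t x) (s x)) := by
  unfold gap
  fun_prop

@[fun_prop] theorem pt_cx_PT (hI : PT I) (hi : PT i) (hj : PT j) :
    PT (fun x => cx (I x) (i x) (j x)) := by
  unfold cx
  fun_prop

@[fun_prop] theorem pt_cand_PT (hI : PT I) (hi : PT i) (hj : PT j) (hm : PT m) (hs : PT s) :
    PT (fun x => cand (I x) (i x) (j x) (m x) (s x)) := by
  unfold cand
  fun_prop

@[fun_prop] theorem pt_al_PT (hI : PT I) (ho : PT o) :
    PT (fun x => al (I x) (o x)) := by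
  unfold al
  fun_prop

@[fun_prop] theorem pt_be_PT (hI : PT I) (ho : PT o) :
    PT (fun x => be (I x) (o x)) := by
  unfold be
  fun_prop

@[fun_prop] theorem pt_zx_PT (hI : PT I) (ho : PT o) :
    PT (fun x => zx (I x) (o x)) := by
  unfold zx
  fun_prop

@[fun_prop] theorem pt_zz_PT (hI : PT I) (ho : PT o) :
    PT (fun x => zz (I x) (o x)) := by
  unfold zz
  fun_prop

@[fun_prop] theorem pt_ab_PT (hI : PT I) (hl : PT l) (hp : PT p) :
    PT (fun x => ab (I x) (l x) (p x)) := by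
  unfold ab
  fun_prop

@[fun_prop] theorem pt_sv_PT (hI : PT I) (hp : PT p) :
    PT (fun x => sv (I x) (p x)) := by
  unfold sv
  fun_prop

@[fun_prop] theorem pt_bnd_PT (hI : PT I) (hp : PT p) :
    PT (fun x => bnd (I x) (p x)) := by
  unfold bnd
  fun_prop

@[fun_prop] theorem pt_gaps_PT (hI : PT I) :
    PT (fun x => gaps (I x)) := by
  unfold gaps
  fun_prop

@[fun_prop] theorem pt_cands_PT (hI : PT I) :
    PT (fun x => cands (I x)) := by
  unfold cands
  fun_prop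

@[fun_prop] theorem pt_kept_PT (hI : PT I) : PT (fun x => kept (I x)) := by
  unfold kept ded
  fun_prop

@[fun_prop] theorem pt_dots_PT (hI : PT I) : PT (fun x => dots (I x)) := by
  unfold dots ded id
  fun_prop

end

theorem sPT : SPT := ⟨pt_dots_PT PT.id, pt_kk_PT PT.id⟩

end Pool.Agent.MP_b0ee3d_lc.H

end

section
set_option autoImplicit false

namespace Pool.Agent.MP_b0ee3d_lc.H

open Pool.Agent.MP_2e8011_lc

/-- three literals -/
abbrev Tr_Sat : Type := (ℕ × Bool) × (ℕ × Bool) × (ℕ × Bool)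

def flat_Sat (T : List Tr_Sat) : List (ℕ × Bool) := T.flatMap fun t => [t.1, t.2.1, t.2.2]

theorem len_Sat (T : List Tr_Sat) : (flat_Sat T).length = 3 * T.length := by
  induction T with
  | nil => rfl
  | cons t T ih =>
    simp only [flat_Sat, List.flatMap_cons, List.length_append, List.length_cons,
      List.length_nil] at ih ⊢
    omega

theorem get_Sat (T : List Tr_Sat) (n : ℕ) : ∀ (j : ℕ) (h : j < T.length),
    lit (flat_Sat T, n) (3 * j) = T[j].1 ∧ lit (flat_Sat T, n) (3 * j + 1) = T[j].2.1 ∧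
      lit (flat_Sat T, n) (3 * j + 2) = T[j].2.2 := by
  induction T with
  | nil => intro j h; simp at h
  | cons t T ih =>
    intro j h
    cases j with
    | zero => exact ⟨rfl, rfl, rfl⟩
    | succ j => exact ih j (by simpa using h)

theorem wf_Sat (T : List Tr_Sat) (n : ℕ)
    (h : ∀ t ∈ T, t.1.1 < t.2.1.1 ∧ t.2.1.1 < t.2.2.1 ∧ t.2.2.1 < n) : WF (flat_Sat T, n) := by
  have hM : MM (flat_Sat T, n) = 3 * T.length := len_Sat T
  refine ⟨⟨_, hM⟩, fun o ho => ?_, fun o o' h1 h2 h3 => ?_⟩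
  · have hj : o / 3 < T.length := by omega
    obtain ⟨a, b, c⟩ := get_Sat T n _ hj
    obtain ⟨d, e, f⟩ := h _ (List.getElem_mem hj)
    show _ < n
    rcases (by omega : o = 3 * (o / 3) ∨ o = 3 * (o / 3) + 1 ∨ o = 3 * (o / 3) + 2) with
      q | q | q <;> rw [q]
    · rw [a]; omega
    · rw [b]; omega
    · rw [c]; omega
  · obtain ⟨j, hj'⟩ : ∃ j, j = o / 3 := ⟨_, rfl⟩
    have hj : j < T.length := by omega
    obtain ⟨a, b, c⟩ := get_Sat T n _ hj
    obtain ⟨d, e, f⟩ := h _ (List.getElem_mem hj)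
    rcases (by omega : o = 3 * j ∧ o' = 3 * j + 1 ∨ o = 3 * j ∧ o' = 3 * j + 2 ∨
      o = 3 * j + 1 ∧ o' = 3 * j + 2) with ⟨q, r⟩ | ⟨q, r⟩ | ⟨q, r⟩ <;> rw [r, q]
    · rw [a, b]; omega
    · rw [a, c]; omega
    · rw [b, c]; omega

theorem sat3_Sat (T : List Tr_Sat) (n : ℕ) : Sat3 (flat_Sat T, n) ↔ ∃ s : ℕ → Bool, ∀ t ∈ T,
    s t.1.1 = t.1.2 ∨ s t.2.1.1 = t.2.1.2 ∨ s t.2.2.1 = t.2.2.2 := by
  have hM : MM (flat_Sat T, n) = 3 * T.length := len_Sat T
  refine exists_congr fun s => ⟨fun h t ht => ?_, fun h j hj => ?_⟩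
  · obtain ⟨j, hj, rfl⟩ := List.getElem_of_mem ht
    obtain ⟨a, b, c⟩ := get_Sat T n _ hj
    obtain ⟨p, hp, h1⟩ := h j (by omega)
    rcases (by omega : p = 0 ∨ p = 1 ∨ p = 2) with rfl | rfl | rfl
    · rw [add_zero, a] at h1; exact Or.inl h1
    · rw [b] at h1; exact Or.inr (Or.inl h1)
    · rw [c] at h1; exact Or.inr (Or.inr h1)
  · have hj' : j < T.length := by omega
    obtain ⟨a, b, c⟩ := get_Sat T n _ hj'
    rcases h _ (List.getElem_mem hj') with h1 | h1 | h1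
    · exact ⟨0, by omega, by rw [add_zero, a]; exact h1⟩
    · exact ⟨1, by omega, by rw [b]; exact h1⟩
    · exact ⟨2, by omega, by rw [c]; exact h1⟩

def fix_Sat : List Tr_Sat :=
  [((0, false), (1, false), (2, false)), ((0, false), (1, true), (2, false)),
    ((0, true), (1, false), (2, false)), ((0, true), (1, true), (2, false)),
    ((0, false), (1, false), (3, false)), ((0, false), (1, true), (3, false)),
    ((0, true), (1, false), (3, false)), ((0, true), (1, true), (3, false))]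

def y_Sat (φ : CNF) (j i : ℕ) : ℕ := sz φ + 5 + Nat.pair j i

def cl_Sat (φ : CNF) (j : ℕ) : List Tr_Sat :=
  ((2, true), (3, true), (y_Sat φ j 0, false)) ::
    ((2, true), (3, true), (y_Sat φ j (φ.getD j []).length, true)) ::
    (List.range (φ.getD j []).length).map fun i =>
      ((((φ.getD j []).getD i (0, false)).1 + 4, ((φ.getD j []).getD i (0, false)).2),
        (y_Sat φ j i, true), (y_Sat φ j (i + 1), false))

def all_Sat (φ : CNF) : List Tr_Sat := fix_Sat ++ (List.range φ.length).flatMap (cl_Sat φ)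

theorem var_Sat {φ : CNF} {j i : ℕ} (hj : j < φ.length) (hi : i < (φ.getD j []).length) :
    ((φ.getD j []).getD i (0, false)).1 ≤ sz φ := by
  rw [List.getD_eq_getElem _ _ hi]
  have h1 := sz_le_of_mem (List.getElem_mem hi)
  have h2 : φ.getD j [] ∈ φ := by
    rw [List.getD_eq_getElem _ _ hj]
    exact List.getElem_mem hj
  have h3 := sz_le_of_mem h2
  generalize (φ.getD j [])[i] = l at h1 ⊢
  obtain ⟨v, b⟩ := l
  simp only [sz_prod, sz_nat] at h1
  omega

theorem y_lt_Sat {φ : CNF} {j i : ℕ} (hj : j < φ.length) (hi : i ≤ (φ.getD j []).length) :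
    y_Sat φ j i < sz φ + 5 + (sz φ + 1) ^ 2 := by
  have h2 : φ.getD j [] ∈ φ := by
    rw [List.getD_eq_getElem _ _ hj]
    exact List.getElem_mem hj
  have h3 := (length_le_sz _).trans (sz_le_of_mem h2)
  have h4 := length_le_sz φ
  have h5 := (Nat.pair_lt_max_add_one_sq j i).trans_le
    (Nat.pow_le_pow_left (show max j i + 1 ≤ sz φ + 1 by omega) 2)
  unfold y_Sat
  omega

theorem sSat : SSat := by
  refine ⟨fun φ => (flat_Sat (all_Sat φ), sz φ + 5 + (sz φ + 1) ^ 2), ?_, fun φ =>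
    ⟨wf_Sat _ _ fun t ht => ?_, ?_⟩⟩
  · unfold flat_Sat all_Sat cl_Sat y_Sat
    fun_prop
  · rcases List.mem_append.1 ht with h | h
    · simp only [fix_Sat, List.mem_cons, List.not_mem_nil, or_false] at h
      rcases h with rfl | rfl | rfl | rfl | rfl | rfl | rfl | rfl <;> dsimp only <;> omega
    · obtain ⟨j, hj, h⟩ := List.mem_flatMap.1 h
      rw [List.mem_range] at hj
      simp only [cl_Sat, List.mem_cons, List.mem_map, List.mem_range] at h
      rcases h with rfl | rfl | ⟨i, hi, rfl⟩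
      · exact ⟨by simp, by simp only [y_Sat]; omega, y_lt_Sat hj (Nat.zero_le _)⟩
      · exact ⟨by simp, by simp only [y_Sat]; omega, y_lt_Sat hj le_rfl⟩
      · have h1 := var_Sat hj hi
        have h2 := Nat.pair_lt_pair_right j (Nat.lt_add_one i)
        exact ⟨by simp only [y_Sat]; omega, by simp only [y_Sat]; omega, y_lt_Sat hj hi⟩
  · rw [sat3_Sat]
    constructor
    · rintro ⟨s, hs⟩
      obtain ⟨u, u0, u1, u2⟩ : ∃ u : ℕ → Bool, (∀ v < 4, u v = false) ∧
          (∀ v ≤ sz φ, u (v + 4) = s v) ∧ ∀ j i, (u (y_Sat φ j i) = true ↔ ∃ e < i,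
            s ((φ.getD j []).getD e (0, false)).1 = ((φ.getD j []).getD e (0, false)).2) := by
        refine ⟨fun v => if v < 4 then false else if v < sz φ + 5 then s (v - 4) else
          decide (∃ e < (Nat.unpair (v - (sz φ + 5))).2,
            s ((φ.getD (Nat.unpair (v - (sz φ + 5))).1 []).getD e (0, false)).1
              = ((φ.getD (Nat.unpair (v - (sz φ + 5))).1 []).getD e (0, false)).2),
          fun v hv => if_pos hv, fun v hv => ?_, fun j i => ?_⟩
        · dsimp only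
          rw [if_neg (by omega), if_pos (by omega), Nat.add_sub_cancel]
        · dsimp only [y_Sat]
          rw [if_neg (by omega), if_neg (by omega), Nat.add_sub_cancel_left, Nat.unpair_pair,
            decide_eq_true_iff]
      refine ⟨u, fun t ht => ?_⟩
      rcases List.mem_append.1 ht with h | h
      · simp only [fix_Sat, List.mem_cons, List.not_mem_nil, or_false] at h
        rcases h with rfl | rfl | rfl | rfl | rfl | rfl | rfl | rfl <;>
          exact Or.inr (Or.inr (u0 _ (by decide)))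
      · obtain ⟨j, hj, h⟩ := List.mem_flatMap.1 h
        rw [List.mem_range] at hj
        simp only [cl_Sat, List.mem_cons, List.mem_map, List.mem_range] at h
        rcases h with rfl | rfl | ⟨i, hi, rfl⟩
        · refine Or.inr (Or.inr (Bool.eq_false_iff.2 fun h => ?_))
          obtain ⟨e, he, _⟩ := (u2 j 0).1 h
          omega
        · refine Or.inr (Or.inr ((u2 j _).2 ?_))
          obtain ⟨l, hl, h⟩ := hs (φ.getD j []) (by
            rw [List.getD_eq_getElem _ _ hj]; exact List.getElem_mem hj)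
          obtain ⟨e, he, rfl⟩ := List.getElem_of_mem hl
          exact ⟨e, he, by rw [List.getD_eq_getElem _ _ he]; exact h⟩
        · dsimp only
          rw [u1 _ (var_Sat hj hi)]
          by_cases h : u (y_Sat φ j (i + 1)) = true
          · obtain ⟨e, he, h3⟩ := (u2 j _).1 h
            rcases Nat.lt_succ_iff_lt_or_eq.1 he with he | he
            · exact Or.inr (Or.inl ((u2 j _).2 ⟨e, he, h3⟩))
            · exact Or.inl (he ▸ h3)
          · exact Or.inr (Or.inr (Bool.eq_false_iff.2 h))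
    · rintro ⟨u, hu⟩
      have f : u 2 = false ∧ u 3 = false := by
        have h := fun t ht => hu t (List.mem_append_left _ ht)
        simp only [fix_Sat, List.forall_mem_cons] at h
        revert h
        cases u 0 <;> cases u 1 <;> cases u 2 <;> cases u 3 <;> simp
      refine ⟨fun v => u (v + 4), fun c hc => ?_⟩
      obtain ⟨j, hj, rfl⟩ := List.getElem_of_mem hc
      rw [← List.getD_eq_getElem φ [] hj]
      have h := fun t ht => hu t (List.mem_append_right _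
        (List.mem_flatMap.2 ⟨j, List.mem_range.2 hj, ht⟩))
      simp only [cl_Sat, List.forall_mem_cons, List.forall_mem_map, List.mem_range, f.1, f.2,
        Bool.false_eq_true, false_or] at h
      obtain ⟨h0, h1, h2⟩ := h
      by_contra hn
      have key : ∀ i ≤ (φ.getD j []).length, u (y_Sat φ j i) = false := by
        intro i
        induction i with
        | zero => exact fun _ => h0
        | succ i ih =>
          intro hi
          rcases h2 i hi with h | h | h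
          · refine absurd ⟨_, ?_, h⟩ hn
            rw [List.getD_eq_getElem _ _ hi]
            exact List.getElem_mem hi
          · rw [ih (by omega)] at h
            exact absurd h (by decide)
          · exact h
      rw [key _ le_rfl] at h1
      exact absurd h1 (by decide)

end Pool.Agent.MP_b0ee3d_lc.H

end

section
/- Counting crossings and faces. -/

set_option autoImplicit false

namespace Pool.Agent.MP_b0ee3d_lc.H

open Set

theorem cov_mono {U : Set ℂ} {m n : ℕ} (h : Cov U m) (e : m ≤ n) : Cov U n :=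
  h.imp fun _ h => ⟨h.1.trans e, h.2⟩

theorem cov_par {s t : ℂ} (hst : s ≠ t) (n : ℕ) : ∀ (c : ℝ) (U : Set ℂ) (m : ℕ) (F : Finset ℝ),
    c < 1 → IsOpen U → AffineMap.lineMap s t c ∉ U → Cov U m → F.card ≤ n →
    (∀ τ ∈ Ioc c 1, AffineMap.lineMap s t τ ∉ U → τ ∈ F) →
    Cov (U \ (AffineMap.lineMap s t : ℝ →ᵃ[ℝ] ℂ) '' Icc c 1) (m + n) := by
  classical
  have inj : Function.Injective (AffineMap.lineMap s t : ℝ →ᵃ[ℝ] ℂ) :=
    AffineMap.lineMap_injective ℝ hst
  have sg : ∀ c d : ℝ, c ≤ d → segment ℝ (AffineMap.lineMap s t c) (AffineMap.lineMap s t d) =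
      (AffineMap.lineMap s t : ℝ →ᵃ[ℝ] ℂ) '' Icc c d := fun c d h => by
    rw [← image_segment, segment_eq_Icc h]
  have og : ∀ c d : ℝ, c < d → openSegment ℝ (AffineMap.lineMap s t c) (AffineMap.lineMap s t d) =
      (AffineMap.lineMap s t : ℝ →ᵃ[ℝ] ℂ) '' Ioo c d := fun c d h => by
    rw [← image_openSegment, openSegment_eq_Ioo h]
  induction n with
  | zero =>
    intro c U m F hc hU h0 hm hF hτ
    have e : F = ∅ := Finset.card_eq_zero.1 (by omega)
    have all : ∀ τ ∈ Ioc c 1, AffineMap.lineMap s t τ ∈ U := fun τ h => by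
      by_contra h'
      simpa [e] using hτ τ h h'
    rw [← sg c 1 hc.le]
    refine hm.step hU (inj.ne hc.ne) h0 ?_ (Or.inl (all 1 ⟨hc, le_rfl⟩))
    rw [og c 1 hc]
    rintro _ ⟨τ, h, rfl⟩
    exact all τ ⟨h.1, h.2.le⟩
  | succ n ih =>
    intro c U m F hc hU h0 hm hF hτ
    by_cases hG : (F.filter fun τ => τ ∈ Ioo c 1 ∧ AffineMap.lineMap s t τ ∉ U).Nonempty
    · obtain ⟨d, hd, hmin⟩ := Finset.exists_min_image _ id hG
      rw [Finset.mem_filter] at hd
      have st : Cov (U \ segment ℝ (AffineMap.lineMap s t c) (AffineMap.lineMap s t d)) (m + 1) := by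
        refine hm.step hU (inj.ne hd.2.1.1.ne) h0 ?_ (Or.inr rfl)
        rw [og c d hd.2.1.1]
        rintro _ ⟨τ, h, rfl⟩
        by_contra h'
        have h2 : τ < 1 := h.2.trans hd.2.1.2
        exact absurd (hmin τ (Finset.mem_filter.2 ⟨hτ τ ⟨h.1, h2.le⟩ h', ⟨h.1, h2⟩, h'⟩))
          (not_le.2 h.2)
      have := ih d _ (m + 1) (F.erase d) hd.2.1.2 (hU.sdiff (isClosed_seg _ _))
        (fun h => hd.2.2 h.1) st (by rw [Finset.card_erase_of_mem hd.1]; omega) (fun τ h h' => by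
          refine Finset.mem_erase.2 ⟨h.1.ne', hτ τ ⟨hd.2.1.1.trans h.1, h.2⟩ fun h2 => h' ⟨h2, ?_⟩⟩
          rw [sg c d hd.2.1.1.le]
          rintro ⟨σ, h3, h4⟩
          exact absurd (inj h4 ▸ h3.2) (not_le.2 h.1))
      rw [sg c d hd.2.1.1.le, sdiff_sdiff, ← image_union,
        Icc_union_Icc_eq_Icc hd.2.1.1.le hd.2.1.2.le] at this
      exact cov_mono this (by omega)
    · rw [← sg c 1 hc.le]
      refine cov_mono (hm.step hU (inj.ne hc.ne) h0 ?_ (Or.inr rfl)) (by omega)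
      rw [og c 1 hc]
      rintro _ ⟨τ, h, rfl⟩
      by_contra h'
      exact hG ⟨τ, Finset.mem_filter.2 ⟨hτ τ ⟨h.1, h.2.le⟩ h', h, h'⟩⟩

theorem cov_seg {s t : ℂ} (hst : s ≠ t) {U : Set ℂ} {m : ℕ} (F : Finset ℂ) (hU : IsOpen U)
    (h0 : s ∉ U) (hm : Cov U m) (hF : ∀ x ∈ segment ℝ s t, x ≠ s → x ∉ U → x ∈ F) :
    Cov (U \ segment ℝ s t) (m + F.card) := by
  classical
  have inj : Function.Injective (AffineMap.lineMap s t : ℝ →ᵃ[ℝ] ℂ) :=
    AffineMap.lineMap_injective ℝ hst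
  rw [segment_eq_image_lineMap]
  refine cov_par hst _ 0 U m (F.preimage _ inj.injOn) one_pos hU (by simpa using h0) hm
    (by rw [Finset.card_preimage]; exact Finset.card_filter_le _ _) fun τ h h' => ?_
  refine Finset.mem_preimage.2 (hF _ ?_ (fun e => h.1.ne' (inj (by simpa using e))) h')
  rw [segment_eq_image_lineMap]
  exact ⟨τ, ⟨h.1.le, h.2⟩, rfl⟩

theorem link_len (q : List ℂ) : link q q.length = link q 0 ∧ vtx q q.length = vtx q 0 := by
  have h1 : vtx q q.length = vtx q 0 := by simp [vtx]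
  have h2 : vtx q (q.length + 1) = vtx q (0 + 1) := by simp [vtx]
  exact ⟨by rw [link, link, h1, h2], h1⟩

/-- what a side shares with an earlier one -/
theorem meet {P q : List ℂ} (h : IsStraight P q) {i j : ℕ} (hi : i < q.length) (hj : j < i) {x : ℂ}
    (h1 : x ∈ link q i) (h2 : x ∈ link q j) : x = vtx q i ∨ (i + 1 = q.length ∧ x = vtx q 0) ∨
      ((link q i ∩ link q j).Subsingleton ∧ x ∈ olink q i ∧ x ∈ olink q j) := by
  by_cases e1 : j + 1 = i
  · subst e1
    exact Or.inl (((h.2.1 j (by omega)).2.subset ⟨h2, h1⟩))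
  by_cases e2 : i + 1 = q.length ∧ j = 0
  · have := (h.2.1 i hi).2
    rw [e2.1, (link_len q).1, (link_len q).2] at this
    exact Or.inr (Or.inl ⟨e2.1, this.subset ⟨h1, e2.2 ▸ h2⟩⟩)
  have := h.2.2.1 i hi j (by omega) (by omega) (by
      by_cases e : i + 1 = q.length
      · rw [e, Nat.mod_self]; omega
      · rw [Nat.mod_eq_of_lt (by omega)]; omega) (by rw [Nat.mod_eq_of_lt (by omega)]; omega)
  exact Or.inr (Or.inr ⟨this.1, this.2 ⟨h1, h2⟩⟩)

theorem olink_sub (q : List ℂ) (i : ℕ) : olink q i ⊆ link q i := openSegment_subset_segment _ _ _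

theorem cross_finite {P q : List ℂ} (h : IsStraight P q) : (cross q).Finite := by
  have : cross q ⊆ {vtx q 0} ∪ ⋃ i ∈ Iio q.length, ({vtx q i} ∪ ⋃ j ∈ Iio i,
      {x | (link q i ∩ link q j).Subsingleton ∧ x ∈ link q i ∩ link q j}) := by
    rintro x ⟨i, hi, j, hj, h1, h2⟩
    rcases meet h hi hj (olink_sub _ _ h1) (olink_sub _ _ h2) with e | e | e
    · exact Or.inr (mem_biUnion hi (Or.inl e))
    · exact Or.inl e.2
    · exact Or.inr (mem_biUnion hi (Or.inr (mem_biUnion hj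
        ⟨e.1, olink_sub _ _ h1, olink_sub _ _ h2⟩)))
  refine ((finite_singleton _).union ((finite_Iio _).biUnion fun i _ => (finite_singleton _).union
    ((finite_Iio _).biUnion fun j _ => Subsingleton.finite ?_))).subset this
  exact fun x hx y hy => hx.1 hx.2 hy.2

theorem cov_straight {P q : List ℂ} (h : IsStraight P q) : Cov (off q) ((cross q).ncard + 2) := by
  classical
  have hf := cross_finite h
  let F : ℕ → Finset ℂ := fun i => hf.toFinset.filter fun x => x ∈ olink q i ∧ ∃ j < i, x ∈ olink q j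
  have key : ∀ L ≤ q.length, Cov {x | x ≠ vtx q 0 ∧ ∀ i < L, x ∉ link q i}
      (1 + ∑ i ∈ Finset.range L, (F i).card + if L = q.length then 1 else 0) := by
    intro L
    induction L with
    | zero =>
      intro _
      exact cov_mono (cov_path (vtx q) 0 (by simp) (by simp)) (by simp)
    | succ L ih =>
      intro hL
      have ih' := ih (by omega)
      rw [if_neg (by omega)] at ih'
      set U := {x | x ≠ vtx q 0 ∧ ∀ i < L, x ∉ link q i} with hU
      have hUo : IsOpen U := by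
        have : U = ({vtx q 0} : Set ℂ)ᶜ ∩ ⋂ i ∈ Finset.range L, (link q i)ᶜ := by
          ext x; simp [hU]
        rw [this]
        exact isOpen_compl_singleton.inter
          (isOpen_biInter_finset fun i _ => (isClosed_seg _ _).isOpen_compl)
      have e : {x | x ≠ vtx q 0 ∧ ∀ i < L + 1, x ∉ link q i} = U \ link q L := by
        ext x
        simp only [hU, mem_ofPred_eq, mem_sdiff, Nat.lt_succ_iff_lt_or_eq]
        constructor
        · exact fun h => ⟨⟨h.1, fun i hi => h.2 i (Or.inl hi)⟩, h.2 L (Or.inr rfl)⟩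
        · rintro ⟨h, h'⟩
          exact ⟨h.1, fun i hi => hi.elim (h.2 i) (fun e => e ▸ h')⟩
      have := cov_seg (h.2.1 L (by omega)).1
        (F L ∪ if L + 1 = q.length then {vtx q 0} else ∅) hUo (fun hx => by
          rcases L with _ | L
          · exact hx.1 rfl
          · exact hx.2 L (by omega) (right_mem_segment _ _ _)) ih' (fun x hx h1 h2 => by
          have : ∃ j < L, x ∈ link q j := by
            by_contra hc
            push Not at hc
            refine h2 ⟨fun e' => ?_, hc⟩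
            rcases L with _ | L
            · exact h1 e'
            · exact hc 0 (by omega) (e' ▸ left_mem_segment _ _ _)
          obtain ⟨j, hj, h3⟩ := this
          rcases meet h (show L < q.length by omega) hj hx h3 with e | e | e
          · exact absurd e h1
          · rw [if_pos e.1]; simp [e.2]
          · exact Finset.mem_union_left _ (Finset.mem_filter.2
              ⟨hf.mem_toFinset.2 ⟨L, by omega, j, hj, e.2⟩, e.2.1, j, hj, e.2.2⟩))
      rw [e]
      refine cov_mono this ?_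
      rw [Finset.sum_range_succ]
      have := Finset.card_union_le (F L) (if L + 1 = q.length then {vtx q 0} else ∅)
      split_ifs at this ⊢ <;> simp at this ⊢ <;> omega
  have k1 := key _ le_rfl
  have e : {x | x ≠ vtx q 0 ∧ ∀ i < q.length, x ∉ link q i} = off q := by
    ext x
    exact ⟨fun h => h.2, fun h' => ⟨fun e => h' 0 (by have := h.1; omega)
      (e ▸ left_mem_segment _ _ _), h'⟩⟩
  rw [e, if_pos rfl] at k1
  refine cov_mono k1 ?_
  have : ∑ i ∈ Finset.range q.length, (F i).card ≤ (cross q).ncard := by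
    have dj : ∀ i < q.length, ∀ i' < i, Disjoint (F i) (F i') := fun i hi i' hi' =>
      Finset.disjoint_left.2 fun x h1 h2 => by
        obtain ⟨-, a1, -⟩ := Finset.mem_filter.1 h1
        obtain ⟨-, a2, j, hj, a3⟩ := Finset.mem_filter.1 h2
        exact h.2.2.2.1 x i hi i' hi' j hj ⟨olink_sub _ _ a3, olink_sub _ _ a2, olink_sub _ _ a1⟩
    rw [← Finset.card_biUnion, ncard_eq_toFinset_card _ hf]
    · exact Finset.card_le_card (Finset.biUnion_subset.2 fun i _ => Finset.filter_subset _ _)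
    · intro i hi j hj hij
      rcases lt_or_gt_of_ne hij with l | l
      · exact (dj j (by simpa using hj) i l).symm
      · exact dj i (by simpa using hi) j l
  omega

/-- Euler's inequality -/
theorem length_le_cross {P q : List ℂ} (h : IsStraight P q) (hP : P.Nodup) :
    P.length ≤ (cross q).ncard + 1 := by
  classical
  obtain ⟨x, hx, hx'⟩ := exists_unbounded q
  have hxP : x ∉ P.toFinset := fun hp => hx' (h.2.2.2.2.1 x (List.mem_toFinset.mp hp)).2
  have := (cov_straight h).card_le (insert x P.toFinset) (fun y hy => by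
      rcases Finset.mem_insert.mp hy with rfl | hy
      · exact hx
      · exact (h.2.2.2.2.1 y (List.mem_toFinset.mp hy)).1) (fun y hy z hz hyz => by
      rw [Finset.mem_insert] at hy hz
      rcases hy with rfl | hy <;> rcases hz with rfl | hz
      · rfl
      · exact absurd (connectedComponentIn_eq hyz ▸ (h.2.2.2.2.1 z (List.mem_toFinset.mp hz)).2) hx'
      · exact absurd (connectedComponentIn_eq hyz ▸ (h.2.2.2.2.1 y (List.mem_toFinset.mp hy)).2) hx'
      · have hy' := h.2.2.2.2.1 y (List.mem_toFinset.mp hy)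
        exact (h.2.2.2.2.2 y hy'.1 hy'.2).unique
          ⟨List.mem_toFinset.mp hy, mem_connectedComponentIn hy'.1⟩ ⟨List.mem_toFinset.mp hz, hyz⟩)
  rw [Finset.card_insert_of_notMem hxP, List.toFinset_card_of_nodup hP] at this
  omega

/-! ### The star polygon -/

section
variable {k : ℕ} {a b : ℕ → ℝ}

theorem exists_wedge (hs : Star k a b) {i j : ℕ} (hij : i < j) (hj : j < k) : ∃ w : ℂ,
    0 < fv a b i w ∧ fv a b j w < 0 ∧
      ∀ l < k, l ≠ i → l ≠ j → 0 < fv a b l w * fv a b l (VV a b i j) := by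
  have hm := hs.mono i j hij hj
  let w : ℝ → ℂ := fun t => ⟨(VV a b i j).re + t, (VV a b i j).im + t * ((a i + a j) / 2)⟩
  have e : ∀ l t, fv a b l (w t) = fv a b l (VV a b i j) + t * ((a i + a j) / 2 - a l) :=
    fun l t => by simp only [fv, w]; ring
  have ev : ∀ᶠ t in nhds (0 : ℝ), ∀ l ∈ Finset.range k, l ≠ i → l ≠ j →
      0 < fv a b l (w t) * fv a b l (VV a b i j) := by
    refine (Filter.eventually_all_finset _).2 fun l hl => ?_
    by_cases h : l ≠ i ∧ l ≠ j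
    · have h0 := hs.simple i j l (by omega) hj (Finset.mem_range.1 hl) hij.ne h.1 h.2
      have c : Continuous fun t => fv a b l (w t) * fv a b l (VV a b i j) := by
        simp only [e]; fun_prop
      exact (c.continuousAt.eventually (lt_mem_nhds (by
        simpa [e] using mul_self_pos.2 h0))).mono fun t ht _ _ => ht
    · exact Filter.Eventually.of_forall fun t h1 h2 => absurd ⟨h1, h2⟩ h
  obtain ⟨t, ht, h0⟩ := ((ev.filter_mono nhdsWithin_le_nhds).and
    (self_mem_nhdsWithin (s := Ioi (0 : ℝ)) (a := 0))).exists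
  have h0' : 0 < t := h0
  refine ⟨w t, ?_, ?_, fun l hl => ht l (Finset.mem_range.2 hl)⟩
  · rw [e, fv_VV]; nlinarith
  · rw [e, fv_VV' b hm.ne]; nlinarith

/-- the wedge data -/
def Wd (k : ℕ) (a b : ℕ → ℝ) (i j : ℕ) (w : ℂ) : Prop := i < j ∧ j < k ∧ 0 < fv a b i w ∧
  fv a b j w < 0 ∧ ∀ l < k, l ≠ i → l ≠ j → 0 < fv a b l w * fv a b l (VV a b i j)

theorem Wd.ne {i j : ℕ} {w : ℂ} (h : Wd k a b i j w) : ∀ l < k, fv a b l w ≠ 0 := fun l hl e => by
  by_cases h1 : l = i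
  · exact h.2.2.1.ne' (h1 ▸ e)
  by_cases h2 : l = j
  · exact h.2.2.2.1.ne (h2 ▸ e)
  simpa [e] using h.2.2.2.2 l hl h1 h2

theorem Wd.weak (hs : Star k a b) {i j : ℕ} {w : ℂ} (h : Wd k a b i j w) {l : ℕ} (hl : l < k) :
    0 ≤ fv a b l w * fv a b l (VV a b i j) := by
  by_cases h1 : l = i
  · rw [h1, fv_VV, mul_zero]
  by_cases h2 : l = j
  · rw [h2, fv_VV' b (hs.mono i j h.1 h.2.1).ne, mul_zero]
  exact (h.2.2.2.2 l hl h1 h2).le

theorem Wd.inj (hs : Star k a b) {i j i' j' : ℕ} {w w' : ℂ} (h : Wd k a b i j w)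
    (h' : Wd k a b i' j' w') (e : ∀ l < k, 0 < fv a b l w ↔ 0 < fv a b l w') : i = i' ∧ j = j' := by
  have key : ∀ {i j i' j' : ℕ} {w w' : ℂ}, Wd k a b i j w → Wd k a b i' j' w' →
      (∀ l < k, 0 < fv a b l w ↔ 0 < fv a b l w') → 0 ≤ fv a b i' (VV a b i j) ∧
      fv a b j' (VV a b i j) ≤ 0 ∧ fv a b i' (VV a b i j) - fv a b j' (VV a b i j) =
        (a j' - a i') * (XX a b i j - XX a b i' j') := by
    intro i j i' j' w w' h h' e
    have m := hs.mono _ _ h'.1 h'.2.1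
    have hi : i' < k := h'.1.trans h'.2.1
    have p1 := (e i' hi).2 h'.2.2.1
    have p2 : fv a b j' w < 0 := lt_of_le_of_ne
      (not_lt.1 fun q => h'.2.2.2.1.not_gt ((e j' h'.2.1).1 q)) (h.ne j' h'.2.1)
    refine ⟨le_of_mul_le_mul_left (by simpa using h.weak hs hi) p1, ?_, ?_⟩
    · have := h.weak hs h'.2.1
      by_contra q
      nlinarith [mul_pos (neg_pos.2 p2) (not_le.1 q)]
    · have : a j' - a i' ≠ 0 := by linarith [sub_pos.2 m] |> fun (q : 0 < a j' - a i') => q.ne'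
      have e2 : (a j' - a i') * XX a b i' j' = b i' - b j' := by rw [XX]; field_simp
      simp only [fv, VV]
      linear_combination e2
  obtain ⟨a1, a2, a3⟩ := key h h' e
  obtain ⟨b1, b2, b3⟩ := key h' h fun l hl => (e l hl).symm
  have m := sub_pos.2 (hs.mono _ _ h.1 h.2.1)
  have m' := sub_pos.2 (hs.mono _ _ h'.1 h'.2.1)
  have c1 : 0 ≤ XX a b i j - XX a b i' j' := le_of_mul_le_mul_left (by linarith) m'
  have c2 : 0 ≤ XX a b i' j' - XX a b i j := le_of_mul_le_mul_left (by linarith) m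
  rw [show XX a b i j - XX a b i' j' = 0 by linarith, mul_zero] at a3
  have s := fun l hl => hs.simple i j l (h.1.trans h.2.1) h.2.1 hl h.1.ne
  have d1 : i' = i ∨ i' = j := by
    by_contra q
    exact s i' (h'.1.trans h'.2.1) (by omega) (by omega) (by linarith)
  have d2 : j' = i ∨ j' = j := by
    by_contra q
    exact s j' h'.2.1 (by omega) (by omega) (by linarith)
  have := h.1
  have := h'.1
  omega

theorem cross_lt_length (h1 : SGeo1) (h2 : SGeo2) (hs : Star k a b) {P : List ℂ}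
    (h : IsStraight P (poly k a b)) : (cross (poly k a b)).ncard + 1 ≤ P.length := by
  classical
  have hl : (poly k a b).length = k := by simp [poly]
  have k3 := hs.three
  let T : Finset (ℕ × ℕ) := (Finset.range k ×ˢ Finset.range k).filter fun p => p.1 < p.2
  have hT : ∀ p, p ∈ T ↔ p.1 < p.2 ∧ p.2 < k := fun p => by
    simp only [T, Finset.mem_filter, Finset.mem_product, Finset.mem_range]; omega
  -- crossings
  let A : Finset (ℕ × ℕ) :=
    (Finset.range k).image fun i => if i + 1 < k then (i, i + 1) else (0, k - 1)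
  have hA : A.card = k := by
    rw [Finset.card_image_of_injOn, Finset.card_range]
    intro i hi j hj e
    simp only [Finset.coe_range, mem_Iio] at hi hj
    dsimp only at e
    split_ifs at e <;> simp only [Prod.mk.injEq] at e <;> omega
  have hAT : A ⊆ T := fun p hp => by
    obtain ⟨i, hi, rfl⟩ := Finset.mem_image.1 hp
    rw [hT]; split_ifs <;> dsimp only <;> omega
  have c1 : (cross (poly k a b)).ncard ≤ (T \ A).card := by
    have ex : ∀ x ∈ cross (poly k a b), ∃ p ∈ T \ A, x ∈ link (poly k a b) p.2 ∧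
        x ∈ link (poly k a b) p.1 ∧ (link (poly k a b) p.2 ∩ link (poly k a b) p.1).Subsingleton := by
      rintro x ⟨i, hi, j, hj, x1, x2⟩
      have ne := (h.2.1 i hi).1
      have sub : (link (poly k a b) i ∩ link (poly k a b) j).Subsingleton ∧ x ≠ vtx (poly k a b) i ∧
          x ≠ vtx (poly k a b) (i + 1) := by
        have n1 : x ≠ vtx (poly k a b) i := fun e => ne (left_mem_openSegment_iff.1 (e ▸ x1))
        have n2 : x ≠ vtx (poly k a b) (i + 1) := fun e => ne (right_mem_openSegment_iff.1 (e ▸ x1))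
        refine ⟨?_, n1, n2⟩
        rcases meet h hi hj (olink_sub _ _ x1) (olink_sub _ _ x2) with e | e | e
        · exact absurd e n1
        · exact absurd (by rw [e.1, (link_len _).2]; exact e.2) n2
        · exact e.1
      refine ⟨(j, i), Finset.mem_sdiff.2 ⟨(hT _).2 ⟨hj, hl ▸ hi⟩, fun hp => ?_⟩,
        olink_sub _ _ x1, olink_sub _ _ x2, sub.1⟩
      obtain ⟨m, hm, e⟩ := Finset.mem_image.1 hp
      split_ifs at e with c <;> simp only [Prod.mk.injEq] at e
      · obtain ⟨rfl, rfl⟩ := e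
        exact sub.2.1 ((h.2.1 m (by omega)).2.subset ⟨olink_sub _ _ x2, olink_sub _ _ x1⟩)
      · have := (h.2.1 i hi).2
        have e3 : i + 1 = (poly k a b).length := by omega
        rw [e3, (link_len _).1, ← e3] at this
        exact sub.2.2 (this.subset ⟨olink_sub _ _ x1, e.1 ▸ olink_sub _ _ x2⟩)
    choose! f f1 f2 f3 f4 using ex
    rw [← ncard_coe_finset]
    refine ncard_le_ncard_of_injOn f f1 (fun x hx y hy e => ?_) (Finset.finite_toSet _)
    exact f4 x hx ⟨f2 x hx, f3 x hx⟩ ⟨e ▸ f2 y hy, e ▸ f3 y hy⟩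
  -- wedges
  have ex : ∀ p ∈ T, ∃ w, Wd k a b p.1 p.2 w := fun p hp =>
    (exists_wedge hs ((hT p).1 hp).1 ((hT p).1 hp).2).imp fun w hw =>
      ⟨((hT p).1 hp).1, ((hT p).1 hp).2, hw⟩
  choose! w hw using ex
  let B : Finset (ℕ × ℕ) := T.filter fun p => Bnd k fun l => 0 < fv a b l (w p)
  have c2 : (T \ B).card ≤ k - 1 := by
    have ex : ∀ p ∈ T \ B, ∃ t ∈ Finset.Ioo 0 k, ∀ l < k, 0 < fv a b l (w p) ↔ l < t := by
      intro p hp
      obtain ⟨p1, p2⟩ := Finset.mem_sdiff.1 hp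
      have W := hw p p1
      have nb : ∀ i j, i < j → j < k → ¬ 0 < fv a b i (w p) → ¬ 0 < fv a b j (w p) :=
        fun i j q1 q2 q3 q4 => p2 (Finset.mem_filter.2 ⟨p1, ⟨i, j, q1, q2, q3, q4⟩,
          p.1, p.2, W.1, W.2.1, W.2.2.1, W.2.2.2.1.not_gt⟩)
      have e : ∃ t, ¬ 0 < fv a b t (w p) := ⟨p.2, W.2.2.2.1.not_gt⟩
      have t1 : Nat.find e ≤ p.2 := Nat.find_min' e W.2.2.2.1.not_gt
      have t2 : ∀ l < k, 0 < fv a b l (w p) ↔ l < Nat.find e := fun l hl =>
        ⟨fun q => by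
          by_contra q'
          rcases (not_lt.1 q').eq_or_lt with r | r
          · exact Nat.find_spec e (r ▸ q)
          · exact nb _ l r hl (Nat.find_spec e) q, fun q => not_not.1 (Nat.find_min e q)⟩
      have t3 := (t2 p.1 (W.1.trans W.2.1)).1 W.2.2.1
      exact ⟨Nat.find e, Finset.mem_Ioo.2 ⟨by omega, t1.trans_lt W.2.1⟩, t2⟩
    choose! t t1 t2 using ex
    refine (Finset.card_le_card_of_injOn t t1 fun p hp p' hp' e => ?_).trans (by simp)
    have := Wd.inj hs (hw p (Finset.mem_sdiff.1 hp).1) (hw p' (Finset.mem_sdiff.1 hp').1)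
      fun l hl => by rw [t2 p hp l hl, t2 p' hp' l hl, e]
    exact Prod.ext this.1 this.2
  have c3 : B.card ≤ P.length := by
    have eo := (h1 k a b hs).1
    have ex : ∀ p ∈ B, ∃ d ∈ P.toFinset, ∀ l < k, 0 < fv a b l (w p) * fv a b l d := by
      intro p hp
      obtain ⟨p1, p2⟩ := Finset.mem_filter.1 hp
      obtain ⟨g1, g2⟩ := h2 k a b hs _ (hw p p1).ne p2
      obtain ⟨d, ⟨d1, d2⟩, -⟩ := h.2.2.2.2.2 (w p) (eo ▸ connectedComponentIn_subset _ _
        ((g2 _).2 fun l hl => mul_self_pos.2 ((hw p p1).ne l hl))) (eo ▸ g1)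
      exact ⟨d, List.mem_toFinset.2 d1, (g2 d).1 (eo ▸ d2)⟩
    choose! d d1 d2 using ex
    refine (Finset.card_le_card_of_injOn d d1 fun p hp p' hp' e => ?_).trans (List.toFinset_card_le _)
    have := Wd.inj hs (hw p (Finset.mem_filter.1 hp).1) (hw p' (Finset.mem_filter.1 hp').1)
      fun l hl => by
        have q1 := d2 p hp l hl
        have q2 := d2 p' hp' l hl
        rw [e] at q1
        rw [pos_iff_pos_of_mul_pos q1, pos_iff_pos_of_mul_pos q2]
    exact Prod.ext this.1 this.2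
  have c4 := Finset.card_sdiff_add_card_eq_card hAT
  have c5 := Finset.card_sdiff_add_card_eq_card (Finset.filter_subset
    (fun p => Bnd k fun l => 0 < fv a b l (w p)) T)
  change (T \ B).card + B.card = T.card at c5
  omega

end

end Pool.Agent.MP_b0ee3d_lc.H

end

section
set_option autoImplicit false

namespace Pool.Agent.MP_b0ee3d_lc.H

open Pool.Agent.MP_2e8011_lc Pool.Agent.MP_a6d740_lc

theorem sep_of_straight {P q : List ℂ} (h : IsStraight P q) : Sep P q := fun p hp => by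
  obtain ⟨-, -, -, -, h1, h2⟩ := h
  refine ⟨(h1 p hp).1, fun p' hp' hc => ?_⟩
  exact (h2 p (h1 p hp).1 (h1 p hp).2).unique ⟨hp', hc⟩ ⟨hp, mem_connectedComponentIn (h1 p hp).1⟩

theorem length_poly (k : ℕ) (a b : ℕ → ℝ) : (poly k a b).length = k := by simp [poly]

theorem straight_of (h1 : SGeo1) (h2 : SGeo2) (h3 : SGeo3) (hA : SCompA) (hB : SCompB) {I : In}
    (hI : WF I) {a b : ℕ → ℝ} (hG : Good I a b) :
    IsStraight ((dots I).map tz) (poly (kk I) a b) := by
  obtain ⟨hs, hd, hu⟩ := hA I hI a b hG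
  obtain ⟨e, g1, g2, g3⟩ := h1 _ a b hs
  unfold IsStraight
  rw [length_poly, e]
  refine ⟨hs.three, g1, g2, g3, fun p0 hp0 => ?_, fun x hx hb => ?_⟩
  · obtain ⟨p, hp, rfl⟩ := List.mem_map.1 hp0
    obtain ⟨c1, c2⟩ := h2 _ a b hs _ (hd p hp).1 (hd p hp).2
    exact ⟨connectedComponentIn_subset _ _ ((c2 _).2 fun l hl => mul_self_pos.2 ((hd p hp).1 l hl)),
      c1⟩
  · obtain ⟨n, bd, i, j, hij, hj, s1, s2, s3⟩ := h3 _ a b hs x hx hb
    obtain ⟨p, hp, s⟩ := hB I hI a b hG x i j n bd hij hj s1 s2 s3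
    have c2 := (h2 _ a b hs x n bd).2
    refine ⟨tz p, ⟨List.mem_map_of_mem hp, (c2 _).2 s⟩, ?_⟩
    rintro _ ⟨hp0, hc⟩
    obtain ⟨p', hp', rfl⟩ := List.mem_map.1 hp0
    rw [hu p' hp' p hp fun l hl => ?_]
    have t1 := (c2 _).1 hc l hl
    have t2 := s l hl
    have t3 := mul_pos t1 t2
    have t4 := mul_self_pos.2 (n l hl)
    by_contra t5
    nlinarith [mul_nonneg t4.le (neg_nonneg.2 (not_lt.1 t5))]

theorem sat_of_sep (hL : SLines) (hK : SKept) (hA : SSoundA) (hB : SSoundB) {I : In} (hI : WF I)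
    {q : List ℂ} (h : Sep ((dots I).map tz) q) (hq : q.length ≤ kk I) : Sat3 I := by
  obtain ⟨-, k2, -, -, k5, -⟩ := hK I hI
  obtain ⟨a, b, hc⟩ := hL I hI _ q (fun i t up hi ht =>
    List.mem_map_of_mem ((k5 _).2 (Or.inr (k2 i t up hi ht)))) h hq
  exact hB I hI _ a b hc (hA I hI a b hc)

/-- integer points as rational points -/
def toQ (L : List (ℤ × ℤ)) : List (ℚ × ℚ) := L.map fun p => ((p.1 : ℚ), (p.2 : ℚ))

theorem toC_toQ (L : List (ℤ × ℤ)) : toC (toQ L) = L.map tz := by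
  simp [toC, toQ, tz, Function.comp_def]

theorem pt_toQ : PT toQ := by
  have h : ∀ g : (List (ℤ × ℤ)) × (ℤ × ℤ) → ℤ, PT g → PT fun a => (g a : ℚ) := fun g hg =>
    (pt_addInt (PT.const 0) hg).congr fun a => zero_add _
  exact PT.map (f := fun (_ : List (ℤ × ℤ)) (p : ℤ × ℤ) => ((p.1 : ℚ), (p.2 : ℚ)))
    ((h _ PT.id.snd.fst).prodMk (h _ PT.id.snd.snd)) PT.id

theorem main_of (h1 : SGeo1) (h2 : SGeo2) (h3 : SGeo3) (hA : SCompA) (hB : SCompB) (hP : SPert)
    (hL : SLines) (hK : SKept) (sA : SSoundA) (sB : SSoundB) (hT : SPT) (hS : SSat) :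
    ∀ L ∈ N68a2faeb.NP, ∃ f : List Bool → List (ℚ × ℚ) × ℕ, N68a2faeb.IsPolyTime f ∧
      ∀ x, (f x).1.Nodup ∧ (f x).1 ≠ [] ∧
        (L x = true ↔ ∃ q : List ℂ, IsStraight (toC (f x).1) q ∧ links q ≤ (f x).2) ∧
        (L x = true ↔ ∃ q : List ℂ, Sep (toC (f x).1) q ∧
          q.length + 2 * (f x).1.length ≤ (f x).2 + 2) := by
  intro L hL'
  obtain ⟨c, hc, hx⟩ := cookLevin hL'
  obtain ⟨g, hg, hg'⟩ := hS
  refine ⟨fun x => (toQ (dots (g (c x))), kk (g (c x)) + 2 * ((dots (g (c x))).length - 1)), ?_,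
    fun x => ?_⟩
  · have hI : PT fun x => g (c x) := hg.comp hc
    exact isPolyTime_of_PT id (fun x : List (ℚ × ℚ) × ℕ => (x.1, Bin.mk x.2))
      (agree_list agree_bool)
      (bitEncode_prod (ι := id) (agree_list (agree_prod agree_rat agree_rat)) bitEncode_bin)
      ((pt_toQ.comp (hT.1.comp hI)).prodMk (pt_ofUnary ((hT.2.comp hI).add
        ((PT.const 2).mul ((hT.1.comp hI).length.sub (PT.const 1)))))) (fun _ => rfl)
  · obtain ⟨hI, hs⟩ := hg' (c x)
    have e : L x = true ↔ Sat3 (g (c x)) := (hx x).trans hs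
    dsimp only
    generalize g (c x) = I at hI e ⊢
    obtain ⟨-, k2, -, -, k5, k6⟩ := hK I hI
    have hne : 0 < (dots I).length := List.length_pos_of_mem
      ((k5 _).2 (Or.inr (k2 0 0 true (by have := kk_ge I; omega) (by omega))))
    have hl : (toQ (dots I)).length = (dots I).length := List.length_map _
    have hn : ((dots I).map tz).Nodup := k6.map tz_inj
    simp only [toC_toQ, hl]
    have up : L x = true → ∃ q : List ℂ, IsStraight ((dots I).map tz) q ∧ q.length = kk I ∧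
        (cross q).ncard + 1 ≤ (dots I).length := fun h => by
      obtain ⟨a, b, hG⟩ := hP _ hI (e.1 h)
      have st := straight_of h1 h2 h3 hA hB hI hG
      exact ⟨_, st, length_poly _ _ _, by simpa using cross_lt_length h1 h2 (hA I hI a b hG).1 st⟩
    have dn : ∀ q : List ℂ, Sep ((dots I).map tz) q → q.length ≤ kk I → L x = true :=
      fun q h hq => e.2 (sat_of_sep hL hK sA sB hI h hq)
    refine ⟨k6.map fun p q h => ?_, fun h => ?_,
      ⟨fun h => (up h).imp fun q hq => ⟨hq.1, by unfold links; omega⟩,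
        fun ⟨q, h, hq⟩ => dn q (sep_of_straight h) ?_⟩,
      ⟨fun h => (up h).imp fun q hq => ⟨sep_of_straight hq.1, by omega⟩,
        fun ⟨q, h, hq⟩ => dn q h (by omega)⟩⟩
    · simp only [Prod.mk.injEq, Int.cast_inj] at h
      exact Prod.ext h.1 h.2
    · rw [h] at hl
      simp at hl
      omega
    · have := length_le_cross h hn
      rw [List.length_map] at this
      unfold links at hq
      omega

end Pool.Agent.MP_b0ee3d_lc.H

end

set_option autoImplicit false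

namespace Pool.Agent.MP_b0ee3d_lc.H

theorem main : ∀ L ∈ N68a2faeb.NP, ∃ f : List Bool → List (ℚ × ℚ) × ℕ, N68a2faeb.IsPolyTime f ∧
      ∀ x, (f x).1.Nodup ∧ (f x).1 ≠ [] ∧
        (L x = true ↔ ∃ q : List ℂ, IsStraight (toC (f x).1) q ∧ links q ≤ (f x).2) ∧
        (L x = true ↔ ∃ q : List ℂ, Sep (toC (f x).1) q ∧
          q.length + 2 * (f x).1.length ≤ (f x).2 + 2) := by
  have hB := sBase sGen
  have hN := sNear hB sCorn
  have hC := sCand hB
  have hZ := sZ hB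
  have hK := sKept (sGapB sGapA)
  have hE := sKeep hC sGapA hZ hK
  exact main_of sGeo1 sGeo2 sGeo3 (sCompA hB sCorn hN hZ hK hE) (sCompB hB hN hC hK hE) (sPert hZ)
    (sLines sGapA (sRig sGen)) hK (sSoundA hB sCorn hC hK hE) (sSoundB hZ) sPT sSat

end Pool.Agent.MP_b0ee3d_lc.H
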