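import Pool.Agent.MP_b0ee3d_lc.Defs2
import Pool.Agent.Mg.F2e8011.G7e36c2
import Pool.Agent.Mg.F2e8011.G2c7daa

/- Straight sona polygons with few sides: definitions, basic facts and statements. -/

set_option autoImplicit false

namespace Pool.Agent.MP_b0ee3d_lc.H

open Pool.Agent.MP_2e8011_lc Bornology

/-! ### Arrangements of lines `y = a l * x + b l` -/

/-- height of `p` over the line `l` -/
def fv (a b : ℕ → ℝ) (l : ℕ) (p : ℂ) : ℝ := p.im - (a l * p.re + b l)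

/-- abscissa of the common point of two lines -/
noncomputable def XX (a b : ℕ → ℝ) (i j : ℕ) : ℝ := (b i - b j) / (a j - a i)

/-- the common point of two lines -/
noncomputable def VV (a b : ℕ → ℝ) (i j : ℕ) : ℂ := ⟨XX a b i j, a i * XX a b i j + b i⟩

theorem XX_comm (a b : ℕ → ℝ) (i j : ℕ) : XX a b i j = XX a b j i := by
  unfold XX; rw [← neg_sub (b j), ← neg_sub (a i), neg_div_neg_eq]

theorem fv_VV (a b : ℕ → ℝ) (i j : ℕ) : fv a b i (VV a b i j) = 0 := by simp [fv, VV]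

theorem fv_VV' {a : ℕ → ℝ} (b : ℕ → ℝ) {i j : ℕ} (h : a i ≠ a j) : fv a b j (VV a b i j) = 0 := by
  have : a j - a i ≠ 0 := sub_ne_zero.2 h.symm
  simp only [fv, VV, XX]; field_simp; ring

theorem VV_comm {a : ℕ → ℝ} (b : ℕ → ℝ) {i j : ℕ} (h : a i ≠ a j) : VV a b i j = VV a b j i := by
  have := fv_VV' b h
  simp only [fv, VV] at this
  refine Complex.ext (XX_comm a b i j) ?_
  simp only [VV]; rw [XX_comm a b j i]; linarith

/-- on the line `i` the height over `l` is a linear function of the abscissa -/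
theorem fv_on {a : ℕ → ℝ} (b : ℕ → ℝ) {i l : ℕ} (h : a i ≠ a l) {p : ℂ} (hp : fv a b i p = 0) :
    fv a b l p = (a i - a l) * (p.re - XX a b i l) := by
  have : a l - a i ≠ 0 := sub_ne_zero.2 h.symm
  simp only [fv] at hp ⊢
  have e : p.im = a i * p.re + b i := by linarith
  rw [e, XX]; field_simp; ring

/-- this combination of three heights does not depend on the point -/
theorem tri_const (a b : ℕ → ℝ) (i j l : ℕ) (p q : ℂ) :
    (a l - a j) * fv a b i p + (a i - a l) * fv a b j p + (a j - a i) * fv a b l p =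
    (a l - a j) * fv a b i q + (a i - a l) * fv a b j q + (a j - a i) * fv a b l q := by
  simp only [fv]; ring

/-- sign vectors (`s l` = above the line `l`) of bounded cells -/
def Bnd (k : ℕ) (s : ℕ → Prop) : Prop :=
  (∃ i j, i < j ∧ j < k ∧ ¬ s i ∧ s j) ∧ ∃ i j, i < j ∧ j < k ∧ s i ∧ ¬ s j

/-- simple arrangements in which every line meets its two cyclic neighbours first and last -/
structure Star (k : ℕ) (a b : ℕ → ℝ) : Prop where
  three : 3 ≤ k
  mono : ∀ i j, i < j → j < k → a i < a j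
  simple : ∀ i j l, i < k → j < k → l < k → i ≠ j → l ≠ i → l ≠ j → fv a b l (VV a b i j) ≠ 0
  btw : ∀ i l, i < k → l < k → l ≠ i → l ≠ (i + k - 1) % k → l ≠ (i + 1) % k →
    Btw (XX a b i ((i + k - 1) % k)) (XX a b i ((i + 1) % k)) (XX a b i l)

/-- the star polygon -/
noncomputable def poly (k : ℕ) (a b : ℕ → ℝ) : List ℂ :=
  (List.range k).map fun i => VV a b i ((i + k - 1) % k)

/-- the complement of the star polygon -/
def Off (k : ℕ) (a b : ℕ → ℝ) : Set ℂ := {x | ∀ i < k, ¬ (fv a b i x = 0 ∧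
  x.re ∈ Set.uIcc (XX a b i ((i + k - 1) % k)) (XX a b i ((i + 1) % k)))}

def SGeo1 : Prop := ∀ (k : ℕ) (a b : ℕ → ℝ), Star k a b → off (poly k a b) = Off k a b ∧
  (∀ i < k, vtx (poly k a b) i ≠ vtx (poly k a b) (i + 1) ∧
    link (poly k a b) i ∩ link (poly k a b) (i + 1) = {vtx (poly k a b) (i + 1)}) ∧
  (∀ i < k, ∀ j < k, i ≠ j → (i + 1) % k ≠ j → (j + 1) % k ≠ i →
    (link (poly k a b) i ∩ link (poly k a b) j).Subsingleton ∧
    link (poly k a b) i ∩ link (poly k a b) j ⊆ olink (poly k a b) i ∩ olink (poly k a b) j) ∧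
  ∀ x : ℂ, ∀ l < k, ∀ j < l, ∀ i < j,
    ¬ (x ∈ link (poly k a b) i ∧ x ∈ link (poly k a b) j ∧ x ∈ link (poly k a b) l)

def SGeo2 : Prop := ∀ (k : ℕ) (a b : ℕ → ℝ), Star k a b → ∀ w : ℂ, (∀ l < k, fv a b l w ≠ 0) →
  Bnd k (fun l => 0 < fv a b l w) → IsBounded (connectedComponentIn (Off k a b) w) ∧
    ∀ p, p ∈ connectedComponentIn (Off k a b) w ↔ ∀ l < k, 0 < fv a b l w * fv a b l p

def SGeo3 : Prop := ∀ (k : ℕ) (a b : ℕ → ℝ), Star k a b → ∀ x ∈ Off k a b,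
  IsBounded (connectedComponentIn (Off k a b) x) → (∀ l < k, fv a b l x ≠ 0) ∧
    Bnd k (fun l => 0 < fv a b l x) ∧ ∃ i j, i < j ∧ j < k ∧ 0 < fv a b i x ∧ fv a b j x < 0 ∧
      ∀ l < k, l ≠ i → l ≠ j → 0 < fv a b l x * fv a b l (VV a b i j)

/-! ### The instance built from a formula -/

/-- a flat list of literals (three per clause) and a bound for the variables -/
abbrev In : Type := List (ℕ × Bool) × ℕ

def MM (I : In) : ℕ := I.1.length
def nn (I : In) : ℕ := I.2 + 30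
/-- number of lines; the line `i` has slope `i` -/
def kk (I : In) : ℕ := 2 * (3 * MM I + nn I + 1) + 1
def lit (I : In) (o : ℕ) : ℕ × Bool := I.1.getD o (0, false)
/-- the variable line, the clause line and the free line of an occurrence -/
def xI (I : In) (o : ℕ) : ℕ := 2 * (MM I + 1 + (lit I o).1)
def cI (I : In) (o : ℕ) : ℕ := 2 * (2 * MM I + nn I + 1 + o / 3)
def mid (I : In) (o : ℕ) : Bool := decide (decide (o % 3 = 1) = (lit I o).2)
def fI (I : In) (o : ℕ) : ℕ := bif mid I o then 2 * (MM I + nn I + 1 + o) else 2 * (1 + o)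
def occ (I : In) (i : ℕ) : ℕ := if i / 2 ≤ MM I then i / 2 - 1 else i / 2 - (MM I + nn I + 1)
def isF (I : In) (i : ℕ) : Bool := decide (occ I i < MM I ∧ fI I (occ I i) = i)
def isX (I : In) (i : ℕ) : Bool := decide (i % 2 = 0 ∧ MM I + 1 ≤ i / 2 ∧ i / 2 ≤ MM I + nn I)
def fac (I : In) : ℤ := ((List.range (kk I)).map fun t => ((t + 1 : ℕ) : ℤ)).prod
def BB (I : In) : ℤ := ((kk I ^ 8 : ℕ) : ℤ)
def pw (I : In) (e : ℕ) : ℤ := (List.replicate e (BB I)).prod
def del (I : In) : ℤ := fac I * pw I (2 * kk I + 8)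
def rr (I : In) : ℤ := del I * BB I
def SS (I : In) : ℤ := fac I * rr I * BB I
def rho (I : In) : ℤ := SS I * pw I (kk I + 1)
def gb (I : In) (i : ℕ) : ℤ := SS I * pw I (if i = 0 then kk I else i)
def xi (I : In) (o : ℕ) : ℤ := (gb I (xI I o) - gb I (cI I o)) / ((cI I o : ℤ) - (xI I o : ℤ))
def ga (I : In) (i : ℕ) : ℤ :=
  bif isF I i then gb I (xI I (occ I i)) - ((i : ℤ) - (xI I (occ I i) : ℤ)) * xi I (occ I i)
  else gb I i
/-- intercept of the line `i` -/
def cc (I : In) (i : ℕ) : ℤ := ga I i - if i % 2 = 1 then 240 * rho I else 0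
def wd (I : In) (i : ℕ) : ℤ := bif isX I i then 3 * fac I else del I
def sg (I : In) (i : ℕ) : ℤ := if decide (i % 2 = 0) = decide (2 * i < kk I) then 1 else -1
def nv (i t : ℕ) : ℤ := (if i % 2 = 0 then [60, 30, 20] else [15, 12, 10]).getD t 0
def nu (I : In) (i t : ℕ) : ℤ := sg I i * nv i t
def gap (I : In) (i t : ℕ) (up : Bool) : ℤ × ℤ :=
  (nu I i t * rho I, (i : ℤ) * (nu I i t * rho I) + cc I i + bif up then wd I i else -wd I i)
def cx (I : In) (i j : ℕ) : ℤ := (cc I i - cc I j) / ((j : ℤ) - (i : ℤ))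
def cand (I : In) (i j m : ℕ) (s : Bool) : ℤ × ℤ :=
  (cx I i j + 2 * (bif s then rr I else -rr I),
    (i : ℤ) * cx I i j + cc I i + (bif s then rr I else -rr I) * (2 * (m : ℤ) - 1))
def al (I : In) (o : ℕ) : ℤ := bif (lit I o).2 then -fac I else fac I
def be (I : In) (o : ℕ) : ℤ := if o % 3 = 1 then fac I else 0
def zx (I : In) (o : ℕ) : ℤ := xi I o + (al I o - be I o) / ((cI I o : ℤ) - (xI I o : ℤ))
def zz (I : In) (o : ℕ) : ℤ × ℤ := (zx I o, (xI I o : ℤ) * zx I o + cc I (xI I o) + al I o)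
def ab (I : In) (l : ℕ) (p : ℤ × ℤ) : Bool := decide ((l : ℤ) * p.1 + cc I l < p.2)
def sv (I : In) (p : ℤ × ℤ) : List Bool := (List.range (kk I)).map fun l => ab I l p
def bnd (I : In) (p : ℤ × ℤ) : Bool :=
  ((List.range (kk I)).any fun j => (List.range j).any fun i => !ab I i p && ab I j p) &&
    (List.range (kk I)).any fun j => (List.range j).any fun i => ab I i p && !ab I j p
def gaps (I : In) : List (ℤ × ℤ) := (List.range (kk I)).flatMap fun i =>
  (List.range 3).flatMap fun t => [gap I i t true, gap I i t false]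
def cands (I : In) : List (ℤ × ℤ) := (List.range (kk I)).flatMap fun j =>
  (List.range j).flatMap fun i => (List.range (kk I + 1)).flatMap fun m =>
    [cand I i j m true, cand I i j m false]
/-- keep the first member of each class -/
def ded {β : Type} [DecidableEq β] (key : ℤ × ℤ → β) (ok : ℤ × ℤ → Bool) (L : List (ℤ × ℤ)) :
    List (ℤ × ℤ) :=
  ((List.range L.length).filter fun j => ok (L.getD j (0, 0)) &&
    (List.range j).all fun i => decide (key (L.getD i (0, 0)) ≠ key (L.getD j (0, 0)))).map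
      fun j => L.getD j (0, 0)
def kept (I : In) : List (ℤ × ℤ) := ded (sv I) (bnd I) (gaps I ++ cands I)
def dots (I : In) : List (ℤ × ℤ) :=
  ded id (fun _ => true) ((List.range (MM I)).map (zz I) ++ kept I)

structure WF (I : In) : Prop where
  dvd : 3 ∣ MM I
  lt : ∀ o < MM I, (lit I o).1 < I.2
  srt : ∀ o o', o < o' → o' < MM I → o / 3 = o' / 3 → (lit I o).1 < (lit I o').1

def Sat3 (I : In) : Prop := ∃ s : ℕ → Bool, ∀ j, 3 * j < MM I →
  ∃ p < 3, s (lit I (3 * j + p)).1 = (lit I (3 * j + p)).2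

def On (I : In) (o l : ℕ) : Prop := l = xI I o ∨ l = cI I o ∨ l = fI I o
def Tri (I : In) (i j l : ℕ) : Prop := ∃ o < MM I, On I o i ∧ On I o j ∧ On I o l

def tz (p : ℤ × ℤ) : ℂ := ⟨p.1, p.2⟩
def a0 (l : ℕ) : ℝ := l
def b0 (I : In) (l : ℕ) : ℝ := cc I l
/-- height over the base line `l` -/
def f0 (I : In) (l : ℕ) (p : ℂ) : ℝ := fv a0 (b0 I) l p
/-- base vertices -/
noncomputable def V0 (I : In) (i j : ℕ) : ℂ := VV a0 (b0 I) i j
/-- the lines `a`, `b` are `κ i`-close to the base lines -/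
def Close (I : In) (a b : ℕ → ℝ) (κ : ℕ → ℝ) : Prop := ∀ i < kk I, ∀ x : ℝ,
  |x| ≤ 1000 * rho I → |a i * x + b i - (i * x + cc I i)| < κ i
/-- height of the line `l`, in units, over the abscissa of the gaps `(i, t)` -/
def HH (I : In) (i t l : ℕ) : ℤ := sg I i * l - if l % 2 = 1 then 240 / nv i t else 0

def SGen : Prop := ∀ I : In, WF I → ∀ i j l, i < kk I → j < kk I → l < kk I → i ≠ j → l ≠ i →
  l ≠ j → ∀ u v w : ℤ, |u| ≤ 2 * kk I → |v| ≤ 2 * kk I → |w| ≤ 2 * kk I →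
    (kk I : ℤ) ^ 3 * |u * ga I i + v * ga I j + w * ga I l| < SS I →
    (u = 0 ∧ v = 0 ∧ w = 0) ∨ (Tri I i j l ∧ u + v + w = 0 ∧ u * i + v * j + w * l = 0)

def SBase : Prop := ∀ I : In, WF I →
  (∀ i j, i < kk I → j < kk I → i ≠ j →
    XX a0 (b0 I) i j = cx I i j ∧ |XX a0 (b0 I) i j| ≤ 241 * rho I) ∧
  (∀ i j l, i < kk I → j < kk I → l < kk I → i ≠ j → l ≠ i → l ≠ j → ¬ Tri I i j l →
    4 * kk I * (rr I : ℝ) ≤ |f0 I l (V0 I i j)|) ∧
  (∀ o < MM I, XX a0 (b0 I) (xI I o) (cI I o) = xi I o ∧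
    (∀ l, On I o l → f0 I l (V0 I (xI I o) (cI I o)) = 0) ∧
    ∀ i j, i ≠ j → On I o i → On I o j → V0 I i j = V0 I (xI I o) (cI I o))

def SCorn : Prop := ∀ I : In, WF I →
  (∀ i l, i + 1 < kk I → l < kk I → l ≠ i → l ≠ i + 1 →
    (0 < f0 I l (V0 I i (i + 1)) ↔ (l < i ↔ i % 2 = 0))) ∧
  (∀ l, 0 < l → l + 1 < kk I → 0 < f0 I l (V0 I 0 (kk I - 1))) ∧
  ∀ o < MM I, f0 I 0 (V0 I (xI I o) (cI I o)) < 0 ∧ 0 < f0 I 1 (V0 I (xI I o) (cI I o)) ∧
    f0 I (kk I - 1) (V0 I (xI I o) (cI I o)) < 0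

def SNear : Prop := ∀ I : In, WF I → ∀ a b : ℕ → ℝ, Close I a b (fun _ => del I) →
  (∀ i j, i < j → j < kk I → a i + 1 / 2 < a j ∧ a j < a i + kk I) ∧
  (∀ i j l, i < kk I → j < kk I → l < kk I → i ≠ j → l ≠ i → l ≠ j → ¬ Tri I i j l →
    0 < fv a b l (VV a b i j) * f0 I l (V0 I i j)) ∧
  ∀ i l, i < kk I → l < kk I → l ≠ i → l ≠ (i + kk I - 1) % kk I → l ≠ (i + 1) % kk I →
    Btw (XX a b i ((i + kk I - 1) % kk I)) (XX a b i ((i + 1) % kk I)) (XX a b i l)

def SCand : Prop := ∀ I : In, WF I → ∀ i j m s, i < j → j < kk I → m ≤ kk I →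
  |(tz (cand I i j m s)).re| ≤ 1000 * rho I ∧ ∀ l < kk I,
    (rr I : ℝ) ≤ |f0 I l (tz (cand I i j m s))| ∧
    (f0 I l (V0 I i j) = 0 → (0 < f0 I l (tz (cand I i j m s)) ↔ (s = true ↔ l < m))) ∧
    (f0 I l (V0 I i j) ≠ 0 → 0 < f0 I l (tz (cand I i j m s)) * f0 I l (V0 I i j))

def SGapA : Prop := ∀ I : In, WF I → ∀ i t up, i < kk I → t < 3 →
  |(tz (gap I i t up)).re| ≤ 1000 * rho I ∧
  f0 I i (tz (gap I i t up)) = (bif up then wd I i else -wd I i : ℤ) ∧ ∀ l < kk I, l ≠ i →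
    (rr I : ℝ) ≤ |f0 I l (tz (gap I i t up))| ∧
    (0 < f0 I l (tz (gap I i t up)) ↔ HH I i t l < HH I i t i)

def SZ : Prop := ∀ I : In, WF I → ∀ o < MM I, |(tz (zz I o)).re| ≤ rho I ∧
  f0 I (xI I o) (tz (zz I o)) = al I o ∧ f0 I (cI I o) (tz (zz I o)) = be I o ∧
  |f0 I (fI I o) (tz (zz I o))| ≤ 2 * kk I * (fac I : ℝ) ∧
  (∀ l < kk I, ¬ On I o l → (rr I : ℝ) ≤ |f0 I l (tz (zz I o))| ∧
    0 < f0 I l (tz (zz I o)) * f0 I l (V0 I (xI I o) (cI I o))) ∧
  ∀ o' < MM I, o < o' → o / 3 = o' / 3 → 2 * (tz (zz I o')).re + SS I ≤ 2 * (tz (zz I o)).re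

def SGapB : Prop := ∀ I : In, WF I → ∀ i t up, i < kk I → t < 3 → bnd I (gap I i t up) = true ∧
  ∀ i' t' up', i' < kk I → t' < 3 → sv I (gap I i t up) = sv I (gap I i' t' up') →
    i = i' ∧ t = t' ∧ up = up'

def SKept : Prop := ∀ I : In, WF I →
  (∀ p ∈ kept I, bnd I p = true ∧ ((∃ i t up, i < kk I ∧ t < 3 ∧ p = gap I i t up) ∨
    ∃ i j m s, i < j ∧ j < kk I ∧ m ≤ kk I ∧ p = cand I i j m s)) ∧
  (∀ i t up, i < kk I → t < 3 → gap I i t up ∈ kept I) ∧
  (∀ i j m s, i < j → j < kk I → m ≤ kk I → bnd I (cand I i j m s) = true →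
    ∃ q ∈ kept I, sv I q = sv I (cand I i j m s)) ∧
  (∀ p ∈ kept I, ∀ q ∈ kept I, sv I p = sv I q → p = q) ∧
  (∀ p, p ∈ dots I ↔ (∃ o < MM I, p = zz I o) ∨ p ∈ kept I) ∧ (dots I).Nodup

def SRig : Prop := ∀ I : In, WF I → ∀ (i j l ti tj tl : ℕ) (A B : ℝ), i < kk I → j < kk I →
  l < kk I → ti < 3 → tj < 3 → tl < 3 → nu I i ti ≠ nu I j tj → nu I i ti ≠ nu I l tl →
  nu I j tj ≠ nu I l tl →
  |A * (nu I i ti * rho I) + B - (i * (nu I i ti * rho I) + cc I i)| < del I →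
  |A * (nu I j tj * rho I) + B - (j * (nu I j tj * rho I) + cc I j)| < del I →
  |A * (nu I l tl * rho I) + B - (l * (nu I l tl * rho I) + cc I l)| < del I → i = j ∧ j = l

/-- lines through all gaps that meet the segment between any two dots -/
def Cut (I : In) (P : List ℂ) (a b : ℕ → ℝ) : Prop :=
  (∀ i t, i < kk I → t < 3 →
    |a i * (nu I i t * rho I) + b i - (i * (nu I i t * rho I) + cc I i)| < wd I i) ∧
  ∀ p ∈ P, ∀ p' ∈ P, p ≠ p' → ∃ i < kk I, ∃ x ∈ openSegment ℝ p p', fv a b i x = 0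

def SLines : Prop := ∀ I : In, WF I → ∀ P q : List ℂ,
  (∀ i t up, i < kk I → t < 3 → tz (gap I i t up) ∈ P) → Sep P q → q.length ≤ kk I →
    ∃ a b, Cut I P a b

/-- the point of the occurrence `o` has one of the two triangle patterns (weak form) -/
def Pat (I : In) (a b : ℕ → ℝ) (o : ℕ) : Prop :=
  (0 < fv a b (xI I o) (tz (zz I o)) ↔ 0 < fv a b (cI I o) (tz (zz I o))) ↔ mid I o = true

def SSoundA : Prop := ∀ I : In, WF I → ∀ a b, Cut I ((dots I).map tz) a b →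
  ∀ o < MM I, Pat I a b o

def SSoundB : Prop := ∀ I : In, WF I → ∀ (P : List ℂ) a b, Cut I P a b →
  (∀ o < MM I, Pat I a b o) → Sat3 I

/-- close lines for which all occurrence points have a triangle pattern -/
def Good (I : In) (a b : ℕ → ℝ) : Prop := Close I a b (fun i => wd I i) ∧ ∀ o < MM I,
  fv a b (xI I o) (tz (zz I o)) * fv a b (fI I o) (tz (zz I o)) < 0 ∧
  bif mid I o then 0 < fv a b (xI I o) (tz (zz I o)) * fv a b (cI I o) (tz (zz I o))
  else fv a b (xI I o) (tz (zz I o)) * fv a b (cI I o) (tz (zz I o)) < 0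

def SPert : Prop := ∀ I : In, WF I → Sat3 I → ∃ a b, Good I a b

def SKeep : Prop := ∀ I : In, WF I → ∀ a b : ℕ → ℝ, Close I a b (fun _ => 1100 * del I) →
  (∀ i t, i < kk I → t < 3 →
    |a i * (nu I i t * rho I) + b i - (i * (nu I i t * rho I) + cc I i)| < wd I i) →
  (∀ p ∈ kept I, ∀ l < kk I, 0 < fv a b l (tz p) * f0 I l (tz p)) ∧
  (∀ o < MM I, ∀ l < kk I, ¬ On I o l →
    (rr I : ℝ) / 2 ≤ |fv a b l (tz (zz I o))| ∧
    0 < fv a b l (tz (zz I o)) * f0 I l (V0 I (xI I o) (cI I o))) ∧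
  ∀ o < MM I, zz I o ∉ kept I

def SCompA : Prop := ∀ I : In, WF I → ∀ a b, Good I a b → Star (kk I) a b ∧
  (∀ p ∈ dots I, (∀ l < kk I, fv a b l (tz p) ≠ 0) ∧ Bnd (kk I) fun l => 0 < fv a b l (tz p)) ∧
  ∀ p ∈ dots I, ∀ p' ∈ dots I, (∀ l < kk I, 0 < fv a b l (tz p) * fv a b l (tz p')) → p = p'

def SCompB : Prop := ∀ I : In, WF I → ∀ a b, Good I a b → ∀ (x : ℂ) (i j : ℕ),
  (∀ l < kk I, fv a b l x ≠ 0) → Bnd (kk I) (fun l => 0 < fv a b l x) → i < j → j < kk I →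
  0 < fv a b i x → fv a b j x < 0 →
  (∀ l < kk I, l ≠ i → l ≠ j → 0 < fv a b l x * fv a b l (VV a b i j)) →
    ∃ p ∈ dots I, ∀ l < kk I, 0 < fv a b l x * fv a b l (tz p)

def SPT : Prop := PT dots ∧ PT kk

def SSat : Prop := ∃ g : CNF → In, PT g ∧ ∀ φ, WF (g φ) ∧ (Sat φ ↔ Sat3 (g φ))

/-! ### Basic facts -/

section
variable (I : In)

theorem kk_ge : 63 ≤ kk I := by unfold kk nn; omega

theorem kk_odd : kk I % 2 = 1 := by unfold kk; omega

theorem pw_eq (e : ℕ) : pw I e = BB I ^ e := List.prod_replicate _ _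

theorem BB_eq : BB I = (kk I : ℤ) ^ 8 := by simp [BB]

theorem fac_eq : fac I = ((kk I).factorial : ℤ) := by
  unfold fac
  generalize kk I = k
  induction k with
  | zero => rfl
  | succ k ih => rw [List.range_succ, List.map_append, List.prod_append, ih, Nat.factorial_succ]; simp [mul_comm]

theorem fac_pos : 1 ≤ fac I := by rw [fac_eq]; exact_mod_cast Nat.factorial_pos _

theorem dvd_fac {d : ℤ} (h0 : d ≠ 0) (h : |d| ≤ kk I) : d ∣ fac I := by
  rw [fac_eq, ← Int.natAbs_dvd, Int.natCast_dvd_natCast]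
  exact Nat.dvd_factorial (Int.natAbs_pos.2 h0) (by rw [abs_le] at h; omega)

/-- `B` exceeds `10 ^ 5 * k ^ 5`. -/
theorem BB_ge : 100000 * (kk I : ℤ) ^ 5 ≤ BB I := by
  have h : (63 : ℤ) ≤ kk I := by exact_mod_cast kk_ge I
  have h3 : (100000 : ℤ) ≤ (kk I : ℤ) ^ 3 := le_trans (by norm_num) (pow_le_pow_left₀ (by norm_num) h 3)
  rw [BB_eq, show (kk I : ℤ) ^ 8 = (kk I : ℤ) ^ 3 * (kk I : ℤ) ^ 5 by ring]
  exact mul_le_mul_of_nonneg_right h3 (by positivity)

theorem BB_ge' : 100000 * (kk I : ℤ) ≤ BB I := by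
  have h : (63 : ℤ) ≤ kk I := by exact_mod_cast kk_ge I
  refine le_trans (mul_le_mul_of_nonneg_left ?_ (by norm_num)) (BB_ge I)
  exact le_self_pow₀ (by omega) (by norm_num)

theorem BB_one : 1 ≤ BB I := by have := BB_ge' I; have := kk_ge I; omega

theorem del_eq : del I = fac I * BB I ^ (2 * kk I + 8) := by rw [del, pw_eq]

theorem rho_eq : rho I = SS I * BB I ^ (kk I + 1) := by rw [rho, pw_eq]

theorem gb_eq (i : ℕ) : gb I i = SS I * BB I ^ (if i = 0 then kk I else i) := by rw [gb, pw_eq]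

/-- the scales: `fac ≪ del ≪ rr ≪ SS ≪ rho` -/
theorem scales : fac I * BB I ≤ del I ∧ del I * BB I = rr I ∧ rr I * BB I ≤ SS I ∧
    SS I * BB I ≤ rho I ∧ 0 < del I ∧ 0 < rr I ∧ 0 < SS I ∧ 0 < rho I := by
  have h1 := fac_pos I
  have h2 := BB_one I
  have h1' : 0 < fac I := by omega
  have h2' : 0 < BB I := by omega
  have d : 0 < del I := by rw [del_eq]; exact mul_pos h1' (pow_pos h2' _)
  have r : 0 < rr I := mul_pos d h2'
  have s : 0 < SS I := mul_pos (mul_pos h1' r) h2'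
  refine ⟨?_, rfl, ?_, ?_, d, r, s, by rw [rho_eq]; exact mul_pos s (pow_pos h2' _)⟩
  · rw [del_eq]; exact mul_le_mul_of_nonneg_left (le_self_pow₀ h2 (by omega)) (by omega)
  · unfold SS; rw [mul_assoc]; exact le_mul_of_one_le_left (mul_pos r h2').le h1
  · rw [rho_eq]; exact mul_le_mul_of_nonneg_left (le_self_pow₀ h2 (by omega)) s.le

theorem wd_pos : ∀ i, 0 < wd I i ∧ wd I i ≤ del I := fun i => by
  have h1 := fac_pos I
  have h2 := BB_ge' I
  have h3 := kk_ge I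
  have h4 := scales I
  unfold wd
  cases isX I i
  · exact ⟨h4.2.2.2.2.1, le_rfl⟩
  · exact ⟨by simp only [cond_true]; omega, le_trans (by simp only [cond_true]; nlinarith) h4.1⟩

theorem ab_iff (l : ℕ) (p : ℤ × ℤ) : ab I l p = true ↔ 0 < f0 I l (tz p) := by
  simp only [ab, decide_eq_true_eq, f0, fv, tz, a0, b0, sub_pos]
  exact_mod_cast Iff.rfl

theorem sv_eq_iff (p q : ℤ × ℤ) : sv I p = sv I q ↔ ∀ l < kk I, ab I l p = ab I l q := by
  simp [sv, List.map_inj_left]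

theorem bnd_iff (p : ℤ × ℤ) : bnd I p = true ↔ Bnd (kk I) fun l => ab I l p = true := by
  simp only [bnd, Bnd, Bool.and_eq_true, List.any_eq_true, List.mem_range, Bool.not_eq_true',
    Bool.not_eq_true]
  exact and_congr ⟨fun ⟨j, h, i, h1, h2⟩ => ⟨i, j, h1, h, h2⟩, fun ⟨i, j, h1, h, h2⟩ => ⟨j, h, i, h1, h2⟩⟩
    ⟨fun ⟨j, h, i, h1, h2⟩ => ⟨i, j, h1, h, h2⟩, fun ⟨i, j, h1, h, h2⟩ => ⟨j, h, i, h1, h2⟩⟩

theorem tz_inj : Function.Injective tz := fun p q h => by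
  simp only [tz, Complex.mk.injEq, Int.cast_inj] at h
  exact Prod.ext h.1 h.2

variable {I}

theorem fI_eq (o : ℕ) : (mid I o = true ∧ fI I o = 2 * (MM I + nn I + 1 + o)) ∨
    (mid I o = false ∧ fI I o = 2 * (1 + o)) := by
  unfold fI; cases mid I o <;> simp

/-- positions of the three lines of an occurrence -/
theorem idx (h : WF I) {o : ℕ} (ho : o < MM I) :
    2 * (MM I + 1) ≤ xI I o ∧ xI I o ≤ 2 * (MM I + nn I) ∧ xI I o % 2 = 0 ∧
    2 * (2 * MM I + nn I + 1) ≤ cI I o ∧ cI I o + 3 ≤ kk I ∧ cI I o % 2 = 0 ∧ fI I o % 2 = 0 ∧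
    ((mid I o = true ∧ xI I o < fI I o ∧ fI I o < cI I o) ∨
      (mid I o = false ∧ 0 < fI I o ∧ fI I o < xI I o)) := by
  have := h.lt o ho
  rcases fI_eq (I := I) o with ⟨e1, e2⟩ | ⟨e1, e2⟩ <;>
    simp only [e1, e2, xI, cI, kk, nn, true_and, Bool.true_eq_false, Bool.false_eq_true, false_and,
      or_false, false_or] <;> omega

theorem occ_fI {o : ℕ} (ho : o < MM I) : occ I (fI I o) = o := by
  have := fI_eq (I := I) o
  unfold occ; split_ifs <;> omega

theorem isF_iff {i : ℕ} : isF I i = true ↔ ∃ o < MM I, i = fI I o := by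
  rw [isF, decide_eq_true_eq]
  exact ⟨fun h => ⟨_, h.1, h.2.symm⟩, fun ⟨o, ho, e⟩ => by rw [e, occ_fI ho]; exact ⟨ho, rfl⟩⟩

theorem isX_xI (h : WF I) {o : ℕ} (ho : o < MM I) : isX I (xI I o) = true := by
  have := idx h ho
  rw [isX, decide_eq_true_eq]; omega

theorem isX_cI (h : WF I) {o : ℕ} (ho : o < MM I) : isX I (cI I o) = false := by
  have := idx h ho
  rw [isX, decide_eq_false_iff_not]; omega

theorem isX_fI {o : ℕ} (ho : o < MM I) : isX I (fI I o) = false := by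
  have := fI_eq (I := I) o
  rw [isX, decide_eq_false_iff_not]; omega

/-- the three kinds of lines are different, and two lines fix the occurrence -/
theorem kinds (h : WF I) {o o' : ℕ} (ho : o < MM I) (ho' : o' < MM I) :
    xI I o ≠ cI I o' ∧ xI I o ≠ fI I o' ∧ cI I o ≠ fI I o' ∧ (fI I o = fI I o' → o = o') ∧
    (xI I o = xI I o' → cI I o = cI I o' → o = o') := by
  obtain ⟨a1, a2, -, a3, -⟩ := idx h ho
  obtain ⟨-, -, -, a4, -⟩ := idx h ho'
  have a5 : fI I o = 2 * (MM I + nn I + 1 + o) ∨ fI I o = 2 * (1 + o) :=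
    (fI_eq (I := I) o).imp And.right And.right
  have a6 : fI I o' = 2 * (MM I + nn I + 1 + o') ∨ fI I o' = 2 * (1 + o') :=
    (fI_eq (I := I) o').imp And.right And.right
  refine ⟨by omega, by omega, by omega, by omega, fun e1 e2 => ?_⟩
  have e3 : (lit I o).1 = (lit I o').1 := by unfold xI at e1; omega
  have e4 : o / 3 = o' / 3 := by unfold cI at e2; omega
  rcases lt_trichotomy o o' with l | l | l
  · exact absurd e3 (h.srt o o' l ho' e4).ne
  · exact l
  · exact absurd e3 (h.srt o' o l ho e4.symm).ne'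

theorem On.uniq (h : WF I) {o o' i j : ℕ} (ho : o < MM I) (ho' : o' < MM I) (hij : i ≠ j)
    (h1 : On I o i) (h2 : On I o j) (h3 : On I o' i) (h4 : On I o' j) : o = o' := by
  obtain ⟨a1, a2, a3, a4, a5⟩ := kinds h ho ho'
  obtain ⟨b1, b2, b3, -, -⟩ := kinds h ho' ho
  by_contra hne
  have a4' : fI I o ≠ fI I o' := fun e => hne (a4 e)
  have a5' : xI I o ≠ xI I o' ∨ cI I o ≠ cI I o' := by
    by_contra e
    exact hne (a5 (by omega) (by omega))
  clear a4 a5 hne ho ho'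
  rcases h1 with e1 | e1 | e1 <;> rcases h3 with e3 | e3 | e3 <;> try omega
  all_goals rcases h2 with e2 | e2 | e2 <;> rcases h4 with e4 | e4 | e4 <;> omega

theorem On.lt (h : WF I) {o l : ℕ} (ho : o < MM I) (h1 : On I o l) :
    0 < l ∧ l + 3 ≤ kk I ∧ l % 2 = 0 := by
  have := idx h ho
  unfold On at h1
  omega

theorem ga_of_not {i : ℕ} (h : ∀ o < MM I, i ≠ fI I o) : ga I i = gb I i := by
  have : isF I i = false := Bool.eq_false_iff.2 fun e => by
    obtain ⟨o, ho, e⟩ := isF_iff.1 e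
    exact h o ho e
  rw [ga, this, cond_false]

theorem ga_xI (h : WF I) {o : ℕ} (ho : o < MM I) : ga I (xI I o) = gb I (xI I o) :=
  ga_of_not fun _ ho' => (kinds h ho ho').2.1

theorem ga_cI (h : WF I) {o : ℕ} (ho : o < MM I) : ga I (cI I o) = gb I (cI I o) :=
  ga_of_not fun _ ho' => (kinds h ho ho').2.2.1

theorem ga_fI {o : ℕ} (ho : o < MM I) :
    ga I (fI I o) = gb I (xI I o) - ((fI I o : ℤ) - (xI I o : ℤ)) * xi I o := by
  rw [ga, isF_iff.2 ⟨o, ho, rfl⟩, cond_true, occ_fI ho]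

theorem fac_dvd_del : fac I ∣ del I := Dvd.intro _ rfl

theorem fac_sq_dvd : fac I * fac I ∣ SS I :=
  ((mul_dvd_mul_left _ (fac_dvd_del.trans (Dvd.intro _ rfl))).trans (Dvd.intro _ rfl))

/-- the division in `xi` is exact -/
theorem xi_spec (h : WF I) {o : ℕ} (ho : o < MM I) :
    ((cI I o : ℤ) - (xI I o : ℤ)) * xi I o = gb I (xI I o) - gb I (cI I o) ∧ fac I ∣ xi I o ∧
      xi I o < 0 ∧ -gb I (cI I o) ≤ xi I o := by
  have a1 := idx h ho
  have hd : ((cI I o : ℤ) - (xI I o : ℤ)) ∣ fac I :=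
    dvd_fac I (by omega) (by rw [abs_le]; omega)
  have h2 : fac I * fac I ∣ gb I (xI I o) - gb I (cI I o) :=
    dvd_sub (fac_sq_dvd.trans (Dvd.intro _ rfl)) (fac_sq_dvd.trans (Dvd.intro _ rfl))
  have h3 : ((cI I o : ℤ) - (xI I o : ℤ)) * fac I ∣ gb I (xI I o) - gb I (cI I o) :=
    (mul_dvd_mul_right hd _).trans h2
  have e : ((cI I o : ℤ) - (xI I o : ℤ)) * xi I o = gb I (xI I o) - gb I (cI I o) :=
    Int.mul_ediv_cancel' ((Dvd.intro _ rfl).trans h3)
  have hs := scales I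
  have p1 : 0 < gb I (xI I o) := by rw [gb_eq]; have := BB_one I; have := hs.2.2.2.2.2.2.1; positivity
  have p2 : gb I (xI I o) < gb I (cI I o) := by
    rw [gb_eq, gb_eq, if_neg (by omega), if_neg (by omega)]
    have := BB_ge' I
    have := kk_ge I
    exact mul_lt_mul_of_pos_left (pow_lt_pow_right₀ (by omega) (by omega)) hs.2.2.2.2.2.2.1
  have d1 : (1 : ℤ) ≤ (cI I o : ℤ) - (xI I o : ℤ) := by omega
  have n1 : xi I o < 0 := by nlinarith
  refine ⟨e, ?_, n1, by nlinarith⟩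
  rw [← e] at h3
  exact (mul_dvd_mul_iff_left (by omega)).1 h3

theorem fac_dvd_cc (h : WF I) (i : ℕ) : fac I ∣ cc I i := by
  have h0 : fac I ∣ SS I := (Dvd.intro _ rfl).trans fac_sq_dvd
  have h1 : ∀ j, fac I ∣ gb I j := fun j => h0.trans (Dvd.intro _ rfl)
  refine dvd_sub ?_ ?_
  · by_cases e : ∃ o < MM I, i = fI I o
    · obtain ⟨o, ho, rfl⟩ := e
      rw [ga_fI ho]
      exact dvd_sub (h1 _) ((xi_spec h ho).2.1.mul_left _)
    · rw [ga_of_not fun o ho e' => e ⟨o, ho, e'⟩]; exact h1 _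
  · split_ifs
    · exact (h0.trans (Dvd.intro _ rfl)).mul_left _
    · exact dvd_zero _

/-- sizes of the generic parts of the intercepts -/
theorem ga_le (h : WF I) {i : ℕ} (hi : i < kk I) : |ga I i| * BB I ≤ rho I ∧
    (0 < i → i + 1 < kk I → |ga I i| ≤ SS I * BB I ^ (kk I - 2)) := by
  have hs := (scales I).2.2.2.2.2.2.1
  have b1 := BB_one I
  have b2 := BB_ge' I
  have hk := kk_ge I
  have mon : ∀ e e', e ≤ e' → SS I * BB I ^ e ≤ SS I * BB I ^ e' := fun e e' he =>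
    mul_le_mul_of_nonneg_left (pow_le_pow_right₀ b1 he) hs.le
  have key : (0 < i → i + 1 < kk I → |ga I i| ≤ SS I * BB I ^ (kk I - 2)) ∧
      |ga I i| ≤ SS I * BB I ^ kk I := by
    by_cases e : ∃ o < MM I, i = fI I o
    · obtain ⟨o, ho, rfl⟩ := e
      have a1 := idx h ho
      obtain ⟨-, -, x1, x2⟩ := xi_spec h ho
      have g1 : gb I (xI I o) ≤ SS I * BB I ^ (kk I - 3) := by
        rw [gb_eq, if_neg (by omega)]; exact mon _ _ (by omega)
      have g2 : gb I (cI I o) ≤ SS I * BB I ^ (kk I - 3) := by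
        rw [gb_eq, if_neg (by omega)]; exact mon _ _ (by omega)
      have g3 : 0 < gb I (xI I o) := by rw [gb_eq]; positivity
      have g4 : |((fI I o : ℤ) - (xI I o : ℤ)) * xi I o| ≤ kk I * (SS I * BB I ^ (kk I - 3)) := by
        rw [abs_mul]
        exact mul_le_mul (by rw [abs_le]; omega) (by rw [abs_le]; omega) (abs_nonneg _) (by omega)
      have g5 : SS I * BB I ^ (kk I - 2) = BB I * (SS I * BB I ^ (kk I - 3)) := by
        rw [show kk I - 2 = kk I - 3 + 1 by omega, pow_succ]; ring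
      have g6 : 0 < SS I * BB I ^ (kk I - 3) := by positivity
      have g7 : |ga I (fI I o)| ≤ SS I * BB I ^ (kk I - 2) := by
        rw [ga_fI ho, g5]
        refine (abs_sub _ _).trans ?_
        rw [abs_of_pos g3]
        nlinarith
      exact ⟨fun _ _ => g7, g7.trans (mon _ _ (by omega))⟩
    · rw [ga_of_not fun o ho e' => e ⟨o, ho, e'⟩, gb_eq, abs_of_pos (by positivity)]
      exact ⟨fun h1 h2 => mon _ _ (by rw [if_neg (by omega)]; omega),
        mon _ _ (by split_ifs <;> omega)⟩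
  refine ⟨?_, key.1⟩
  rw [rho_eq, pow_succ, ← mul_assoc]
  exact mul_le_mul_of_nonneg_right key.2 (by omega)

end

end Pool.Agent.MP_b0ee3d_lc.H
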